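import Pool.Agent.Helper40.EL.D3
import Pool.Agent.Helper31.EC.Ext

/-! Exact entropy calculus, second layer: windows of systems of lines, the labels `kappa_c` and the function `i(c)`
(chapter KAPPA (2.1)-(2.3)). -/

namespace Pool.Agent.Helper40.EL

open Finset Filter Topology Pool.Agent.Helper69.RK Pool.Agent.Helper31.EC

noncomputable section

namespace Lab

variable {S : Sp}

/-- maximality does not depend on the representatives -/
theorem IsMax.congr {l : Lab S} {A B A' B' : Part S} (hl : l.IsMax A B) (h1 : PLe A A') (h2 : PLe A' A)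
    (h3 : PLe B B') (h4 : PLe B' B) : l.IsMax A' B' :=
  ⟨hl.1.mono h1 h3, fun l' h' => hl.2 l' (h'.mono h2 h4)⟩

/-- APPROXIMATE double Markov labels converge to double Markov labels -/
theorem approx {A B : Part S} (hA : A.Bd) (l : ℕ → Lab S) (e : ℕ → ℝ) (he : Tendsto e atTop (𝓝 0)) (v : ℝ)
    (h1 : ∀ j, ∀ᶠ k in UF, (l j k).leak (A k) / (S.F k).n ≤ e j)
    (h2 : ∀ j, ∀ᶠ k in UF, (l j k).leak (B k) / (S.F k).n ≤ e j)
    (h3 : ∀ j, ∀ᶠ k in UF, v - e j ≤ (l j k).info / (S.F k).n) : ∃ y : Lab S, y.DM A B ∧ v ≤ y.info := by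
  obtain ⟨y, j, hj, hy, hG⟩ := dia' (X := fun k => FLab (S.F k)) l (fun i k x =>
      x.leak (A k) / (S.F k).n ≤ e i ∧ x.leak (B k) / (S.F k).n ≤ e i ∧ v - e i ≤ x.info / (S.F k).n)
      (fun i => by filter_upwards [h1 i, h2 i, h3 i] with k a b c using ⟨a, b, c⟩)
  have h0 : Tendsto (fun k => e (j k)) UF (𝓝 0) := he.comp hj
  have hDM : Lab.DM y A B := by
    constructor
    · refine tendsto_of_tendsto_of_tendsto_of_le_of_le' tendsto_const_nhds h0 ?_ ?_
      · exact Eventually.of_forall fun k => div_nonneg ((y k).leak_nonneg _) (S.F k).pos.le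
      · filter_upwards [hG] with k hk using hk.1
    · refine tendsto_of_tendsto_of_tendsto_of_le_of_le' tendsto_const_nhds h0 ?_ ?_
      · exact Eventually.of_forall fun k => div_nonneg ((y k).leak_nonneg _) (S.F k).pos.le
      · filter_upwards [hG] with k hk using hk.2.1
  refine ⟨y, hDM, ?_⟩
  have h4 : Tendsto (fun k => v - e (j k)) UF (𝓝 v) := by
    have := h0.const_sub v
    rwa [sub_zero] at this
  exact le_of_tendsto_of_tendsto h4 (ul_tendsto (hDM.ub hA)) (by filter_upwards [hG] with k hk using hk.2.2)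

end Lab

open Sp

variable {S : Sp} {m : ℕ} (s : Sys S m)

/-- the line and the time up to level `c` -/
def cA (c : ℝ) : Part S := fun k => fc ((s.fin k).ka 1 ⊓ (s.fin k).kx 1 ⊓ (s.fin k).kt c)

/-- the point and the time -/
def cB : Part S := fun k => fc ((s.fin k).kP 1 ⊓ (s.fin k).kt 1)

/-- the line and the time up to level `c` -/
def lA (c : ℝ) : S.L := s.xi 1 ⊔ s.t.dg c

/-- the point and the time -/
def lB : S.L := s.P.dg 1 ⊔ s.T

theorem cA_eq (c : ℝ) : cA s c = rpI (Inf.sup (Inf.sup (s.Ia 1) (s.Ix 1)) (s.It c)) := rfl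

theorem cB_eq : cB s = rpI (Inf.sup (s.IP 1) (s.It 1)) := rfl

theorem cl_A (c : ℝ) : cl (Inf.sup (Inf.sup (s.Ia 1) (s.Ix 1)) (s.It c)) = lA s c := by
  rw [cl_sup, cl_sup, s.cl_Ia, s.cl_Ix, s.cl_It]
  rfl

theorem cl_B : cl (Inf.sup (s.IP 1) (s.It 1)) = lB s := by
  rw [cl_sup, s.cl_IP, s.cl_It]
  rfl

theorem cA_rp (c : ℝ) : PLe (rp (lA s c)) (cA s c) ∧ PLe (cA s c) (rp (lA s c)) := by
  rw [cA_eq, ← cl_A]
  exact rp_rpI _

theorem cB_rp : PLe (rp (lB s)) (cB s) ∧ PLe (cB s) (rp (lB s)) := by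
  rw [cB_eq, ← cl_B]
  exact rp_rpI _

theorem cA_Bd (c : ℝ) : (cA s c).Bd := by
  rw [cA_eq]; exact rpI_Bd _

theorem cB_Bd : (cB s).Bd := by
  rw [cB_eq]; exact rpI_Bd _

/-- double Markov labels of the window `c` -/
def DMc (c : ℝ) (l : Lab S) : Prop := l.DM (cA s c) (cB s)

/-- `l` is a label `kappa_c` -/
def IsKap (c : ℝ) (l : Lab S) : Prop := l.IsMax (cA s c) (cB s)

variable {s}

theorem DMc_iff {c : ℝ} {l : Lab S} : DMc s c l ↔ l.DML (lA s c) (lB s) := by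
  constructor
  · intro h
    exact Lab.DM.mono (l := l) (A := cA s c) (B := cB s) (A' := rp (lA s c)) (B' := rp (lB s)) h
      (cA_rp s c).2 (cB_rp s).2
  · intro h
    exact Lab.DM.mono (l := l) (A := rp (lA s c)) (B := rp (lB s)) (A' := cA s c) (B' := cB s) h
      (cA_rp s c).1 (cB_rp s).1

theorem IsKap_iff {c : ℝ} {l : Lab S} : IsKap s c l ↔ l.IsMaxL (lA s c) (lB s) := by
  constructor
  · intro h
    exact Lab.IsMax.congr (l := l) (A := cA s c) (B := cB s) (A' := rp (lA s c)) (B' := rp (lB s)) h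
      (cA_rp s c).2 (cA_rp s c).1 (cB_rp s).2 (cB_rp s).1
  · intro h
    exact Lab.IsMax.congr (l := l) (A := rp (lA s c)) (B := rp (lB s)) (A' := cA s c) (B' := cB s) h
      (cA_rp s c).1 (cA_rp s c).2 (cB_rp s).1 (cB_rp s).2

variable (s)

theorem exists_kap (c : ℝ) : ∃ l : Lab S, IsKap s c l := Lab.exists_max _ _ (cA_Bd s c)

/-- a label `kappa_c` -/
def kap (c : ℝ) : Lab S := (exists_kap s c).choose

theorem kap_isKap (c : ℝ) : IsKap s c (kap s c) := (exists_kap s c).choose_spec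

/-- the function `i(c)` -/
def ic (c : ℝ) : ℝ := (kap s c).info - c

variable {s}

theorem info_le_ic {c : ℝ} {l : Lab S} (hl : DMc s c l) : l.info ≤ ic s c + c := by
  have := (kap_isKap s c).2 l hl
  unfold ic
  linarith

theorem IsKap.info_eq {c : ℝ} {l : Lab S} (hl : IsKap s c l) : l.info = ic s c + c := by
  have h1 := hl.2 _ (kap_isKap s c).1
  have h2 := info_le_ic hl.1
  unfold ic at *
  linarith

theorem isKap_of_info {c : ℝ} {l : Lab S} (hl : DMc s c l) (hi : ic s c + c ≤ l.info) : IsKap s c l :=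
  ⟨hl, fun _ h' => (info_le_ic h').trans hi⟩

theorem IsKap.dm {c : ℝ} {l : Lab S} (hl : IsKap s c l) : DMc s c l := hl.1

theorem DMc.mono {c c' : ℝ} (hc : c ≤ c') {l : Lab S} (hl : DMc s c l) : DMc s c' l := by
  rw [DMc_iff] at hl ⊢
  exact hl.mono (sup_le_sup_left (s.t.dg_mono hc) _) le_rfl

variable (s)

/-- heights given the line and the coarse height -/
theorem h_T_A {c : ℝ} (h0 : 0 ≤ c) (h1 : c ≤ 1) : h s.T (lA s c) = 1 - c := by
  have h2 := s.h_t_xi h0 h1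
  have h3 : h (s.t.dg c ⊔ s.T) (s.xi 1) = h (s.t.dg c) (s.xi 1) + h s.T (s.t.dg c ⊔ s.xi 1) := h_chain _ _ _
  have h4 : s.t.dg c ⊔ s.T = s.T := sup_eq_right.mpr (s.t.dg_mono h1)
  rw [h4, s.hT_xi, h2, sup_comm] at h3
  unfold lA
  linarith

theorem H_A {c : ℝ} (h0 : 0 ≤ c) (h1 : c ≤ 1) : H (lA s c) = H (s.xi 1) + c := by
  unfold lA
  rw [H_chain, s.h_t_xi h0 h1]

theorem H_B : H (lB s) = h (s.P.dg 1) s.T + 1 := by
  unfold lB
  have h1 := H_chain s.T (s.P.dg 1)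
  rw [sup_comm, h1, s.H_T]
  ring

theorem t_le_B {c : ℝ} (h1 : c ≤ 1) : s.t.dg c ≤ lB s := (s.t.dg_mono h1).trans le_sup_right

theorem P_le_A {c : ℝ} (h1 : c ≤ 1) : s.P.dg c ≤ lA s c := by
  have h2 := VV.pt_dg_le s.a s.x s.t c
  refine h2.trans (sup_le (sup_le ?_ ?_) le_sup_right)
  · exact (s.a_le_xi h1).trans le_sup_left
  · exact (s.x_le_xi h1).trans le_sup_left

theorem P_le_B {c : ℝ} (h1 : c ≤ 1) : s.P.dg c ≤ lB s := (s.P.dg_mono h1).trans le_sup_left

/-- everything is a function of the line and the height -/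
theorem B_le : lB s ≤ s.xi 1 ⊔ s.T := sup_le (s.P_le le_rfl) le_sup_right

variable {s} {c : ℝ} {l : Lab S}

/-- `x` in the space over the label -/
abbrev up1 (l : Lab S) (x : S.L) : (l.ovr 1 one_pos).L := l.upL 1 one_pos x

theorem h_up1_le (l : Lab S) (x y : S.L) : h (up1 l x) (up1 l y) ≤ h x y := by
  rw [l.hr_upL, div_one, ← hr_rp]
  refine ul_mono ?_ ((rp_Bd x).ub _) ?_
  · refine UB.sandwich (UB_const 0) ((rp_Bd x).ub (fun _ => ⊥)) ?_ ?_
    · exact Eventually.of_forall fun k => div_nonneg (h_nonneg _ _) (S.F k).pos.le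
    · refine Eventually.of_forall fun k => div_le_div_of_nonneg_right ?_ (S.F k).pos.le
      rw [h_bot, ← (l k).p.H_map]
      exact h_le_H _ _
  · refine Eventually.of_forall fun k => div_le_div_of_nonneg_right ?_ (S.F k).pos.le
    rw [← (l k).p.h_map]
    exact h_anti le_sup_left

theorem H_up1_le (l : Lab S) (x : S.L) : H (up1 l x) ≤ H x := by
  have h1 := h_up1_le l x ⊥
  have h2 : up1 l ⊥ = ⊥ := l.upL_bot 1 one_pos
  rw [h2, h_bot, h_bot] at h1
  exact h1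

theorem up1_sup (l : Lab S) (x y : S.L) : up1 l (x ⊔ y) = up1 l x ⊔ up1 l y := l.upL_sup 1 one_pos x y

theorem up1_mono (l : Lab S) {x y : S.L} (h : x ≤ y) : up1 l x ≤ up1 l y := l.upL_mono 1 one_pos h

/-- conditional entropies given the line and the coarse height -/
theorem DMc.h_A (hl : DMc s c l) {x y : S.L} (hy : lA s c ≤ y) : h (up1 l x) (up1 l y) = h x y := by
  have h1 := Lab.h_upL_of_leak 1 one_pos (x := x) (DMc_iff.mp hl).1 hy
  rw [div_one] at h1
  exact h1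

/-- (C): conditional entropies given the point and the height -/
theorem DMc.h_B (hl : DMc s c l) {x y : S.L} (hy : lB s ≤ y) : h (up1 l x) (up1 l y) = h x y := by
  have h1 := Lab.h_upL_of_leak 1 one_pos (x := x) (DMc_iff.mp hl).2 hy
  rw [div_one] at h1
  exact h1

theorem DMc.info_A (hl : DMc s c l) : l.info = H (lA s c) - H (up1 l (lA s c)) := by
  have h1 := Lab.info_eq_of_leak 1 one_pos (DMc_iff.mp hl).1
  rw [one_mul] at h1
  exact h1

theorem DMc.info_B (hl : DMc s c l) : l.info = H (lB s) - H (up1 l (lB s)) := by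
  have h1 := Lab.info_eq_of_leak 1 one_pos (DMc_iff.mp hl).2
  rw [one_mul] at h1
  exact h1

/-- labels which know the coarse height: the fine height is independent of the line -/
theorem DMc.h_T (hl : DMc s c l) (h0 : 0 ≤ c) (h1 : c ≤ 1) (ht : up1 l (s.t.dg c) = ⊥) :
    h (up1 l s.T) (up1 l (s.xi 1)) = 1 - c := by
  have h2 : up1 l (lA s c) = up1 l (s.xi 1) := by
    unfold lA
    rw [up1_sup, ht, sup_bot_eq]
  rw [← h2, hl.h_A le_rfl, h_T_A s h0 h1]

theorem DMc.H_T (hl : DMc s c l) (h0 : 0 ≤ c) (h1 : c ≤ 1) (ht : up1 l (s.t.dg c) = ⊥) :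
    H (up1 l s.T) = 1 - c := by
  apply le_antisymm
  · have h2 := h_up1_le l s.T (s.t.dg c)
    rw [ht, h_bot] at h2
    have h3 := s.t.h_dg_dg h1
    simp only [Nat.cast_one, one_mul] at h3
    exact h2.trans h3
  · have h2 := h_le_H (up1 l s.T) (up1 l (s.xi 1))
    rw [hl.h_T h0 h1 ht] at h2
    exact h2

/-- (2.2): over a label of the window the height is independent of the line -/
theorem DMc.I_T (hl : DMc s c l) (h0 : 0 ≤ c) (h1 : c ≤ 1) (ht : up1 l (s.t.dg c) = ⊥) :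
    I (up1 l s.T) (up1 l (s.xi 1)) ⊥ = 0 := by
  rw [I_eq, h_bot, sup_bot_eq, hl.H_T h0 h1 ht, hl.h_T h0 h1 ht, sub_self]

theorem IsKap.t_bot (hl : IsKap s c l) (h1 : c ≤ 1) : up1 l (s.t.dg c) = ⊥ :=
  Lab.IsMaxL.common (IsKap_iff.mp hl) le_sup_right (t_le_B s h1)

theorem IsKap.P_bot (hl : IsKap s c l) (h1 : c ≤ 1) : up1 l (s.P.dg c) = ⊥ :=
  Lab.IsMaxL.common (IsKap_iff.mp hl) (P_le_A s h1) (P_le_B s h1)

theorem IsKap.H_T (hl : IsKap s c l) (h0 : 0 ≤ c) (h1 : c ≤ 1) : H (up1 l s.T) = 1 - c :=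
  hl.dm.H_T h0 h1 (hl.t_bot h1)

theorem IsKap.h_T (hl : IsKap s c l) (h0 : 0 ≤ c) (h1 : c ≤ 1) : h (up1 l s.T) (up1 l (s.xi 1)) = 1 - c :=
  hl.dm.h_T h0 h1 (hl.t_bot h1)

theorem IsKap.I_T (hl : IsKap s c l) (h0 : 0 ≤ c) (h1 : c ≤ 1) : I (up1 l s.T) (up1 l (s.xi 1)) ⊥ = 0 :=
  hl.dm.I_T h0 h1 (hl.t_bot h1)

/-- `i(c) = I(kappa_c; xi)` -/
theorem IsKap.ic_xi (hl : IsKap s c l) (h0 : 0 ≤ c) (h1 : c ≤ 1) : ic s c = H (s.xi 1) - H (up1 l (s.xi 1)) := by
  have h2 := hl.dm.info_A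
  have h3 : up1 l (lA s c) = up1 l (s.xi 1) := by
    unfold lA
    rw [up1_sup, hl.t_bot h1, sup_bot_eq]
  rw [hl.info_eq, H_A s h0 h1, h3] at h2
  linarith

/-- `i(c) = I(kappa_c; P | t)` -/
theorem IsKap.ic_P (hl : IsKap s c l) (h0 : 0 ≤ c) (h1 : c ≤ 1) :
    ic s c = h (s.P.dg 1) s.T - h (up1 l (s.P.dg 1)) (up1 l s.T) := by
  have h2 := hl.dm.info_B
  have h3 : H (up1 l (lB s)) = h (up1 l (s.P.dg 1)) (up1 l s.T) + (1 - c) := by
    unfold lB
    rw [up1_sup, sup_comm, H_chain, hl.H_T h0 h1]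
    ring
  rw [hl.info_eq, H_B s, h3] at h2
  linarith

/-- (C) -/
theorem IsKap.h_xi (hl : IsKap s c l) :
    h (up1 l (s.xi 1)) (up1 l (s.P.dg 1) ⊔ up1 l s.T) = h (s.xi 1) (s.P.dg 1 ⊔ s.T) := by
  have h1 := hl.dm.h_B (x := s.xi 1) (y := lB s) le_rfl
  unfold lB at h1
  rw [up1_sup] at h1
  exact h1

theorem ic_nonneg (h0 : 0 ≤ c) (h1 : c ≤ 1) : 0 ≤ ic s c := by
  have h2 := (kap_isKap s c).ic_xi h0 h1
  have h3 := H_up1_le (kap s c) (s.xi 1)
  linarith

theorem ic_le (h0 : 0 ≤ c) (h1 : c ≤ 1) : ic s c ≤ h (s.P.dg 1) s.T := by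
  have h2 := (kap_isKap s c).ic_P h0 h1
  have h3 := h_nonneg (up1 (kap s c) (s.P.dg 1)) (up1 (kap s c) s.T)
  linarith

/-- `h(Y | kappa_c)` is nonincreasing in `c` -/
theorem IsKap.H_anti {c' : ℝ} {l' : Lab S} (hl : IsKap s c l) (hl' : IsKap s c' l') (hc : c ≤ c') (Y : S.L) :
    H (up1 l' Y) ≤ H (up1 l Y) :=
  Lab.IsMaxL.H_le (IsKap_iff.mp hl') (DMc_iff.mp (hl.dm.mono hc)) Y

/-- `h(Y | kappa_c)` does not depend on the maximal label -/
theorem IsKap.H_eq {l' : Lab S} (hl : IsKap s c l) (hl' : IsKap s c l') (Y : S.L) :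
    H (up1 l Y) = H (up1 l' Y) :=
  le_antisymm (hl'.H_anti hl le_rfl Y) (hl.H_anti hl' le_rfl Y)

/-- `h(Y | kappa_c) ≤ h(Y | V)` for double Markov labels -/
theorem IsKap.H_le {l' : Lab S} (hl : IsKap s c l) (hl' : DMc s c l') (Y : S.L) :
    H (up1 l Y) ≤ H (up1 l' Y) := Lab.IsMaxL.H_le (IsKap_iff.mp hl) (DMc_iff.mp hl') Y

/-- (2.3): `i` is nondecreasing -/
theorem ic_mono {c' : ℝ} (h0 : 0 ≤ c) (hc : c ≤ c') (h1 : c' ≤ 1) : ic s c ≤ ic s c' := by
  rw [(kap_isKap s c).ic_xi h0 (hc.trans h1), (kap_isKap s c').ic_xi (h0.trans hc) h1]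
  have := (kap_isKap s c).H_anti (kap_isKap s c') hc (s.xi 1)
  linarith

/-- (2.3): `i` is right continuous -/
theorem ic_right (h0 : 0 ≤ c) (h1 : c < 1) (v : ℝ) (hv : ∀ c', c < c' → c' ≤ 1 → v ≤ ic s c') : v ≤ ic s c := by
  set e : ℕ → ℝ := fun j => (1 - c) / ((j : ℝ) + 1) with he
  have hepos : ∀ j, 0 < e j := fun j => div_pos (by linarith) (by positivity)
  have hele : ∀ j, e j ≤ 1 - c := by
    intro j
    rw [he]
    apply div_le_self (by linarith)
    have : (0 : ℝ) ≤ j := Nat.cast_nonneg j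
    linarith
  have he0 : Tendsto e atTop (𝓝 0) := by
    have h3 := (tendsto_one_div_add_atTop_nhds_zero_nat (𝕜 := ℝ)).const_mul (1 - c)
    rw [mul_zero] at h3
    refine h3.congr fun j => ?_
    rw [he]; ring
  have he2 : Tendsto (fun j => 2 * e j) atTop (𝓝 0) := by
    have := he0.const_mul 2
    rwa [mul_zero] at this
  -- the labels
  have hk : ∀ j, IsKap s (c + e j) (kap s (c + e j)) := fun j => kap_isKap s _
  have hleakB : ∀ j, ∀ᶠ k in UF, ((kap s (c + e j)) k).leak (cB s k) / (S.F k).n ≤ 2 * e j := by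
    intro j
    have h3 := (hk j).1.2
    filter_upwards [h3.eventually (gt_mem_nhds (show (0 : ℝ) < 2 * e j by linarith [hepos j]))] with k hk using hk.le
  have hleakA : ∀ j, ∀ᶠ k in UF, ((kap s (c + e j)) k).leak (cA s c k) / (S.F k).n ≤ 2 * e j := by
    intro j
    have h3 := (hk j).1.1
    -- the difference of the conditions
    have h4 : hr (cA s (c + e j)) (cA s c) ≤ e j := by
      rw [cA_eq, cA_eq, hr_rpI, cl_A, cl_A]
      have h5 : h (lA s (c + e j)) (lA s c) ≤ h (s.t.dg (c + e j)) (s.t.dg c) := by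
        unfold lA
        have h6 := h_chain (s.xi 1) (s.t.dg (c + e j)) (s.xi 1 ⊔ s.t.dg c)
        rw [h6, h_zero (le_sup_left : s.xi 1 ≤ s.xi 1 ⊔ s.t.dg c), zero_add]
        exact h_anti (le_sup_right.trans le_sup_right)
      have h7 := s.t.h_dg_dg (show c ≤ c + e j by linarith [hepos j])
      simp only [Nat.cast_one, one_mul] at h7
      linarith
    have h5 := (cA_Bd s (c + e j)).tendsto (cA s c)
    have h6 : Tendsto (fun k => ((kap s (c + e j)) k).leak (cA s (c + e j) k) / (S.F k).n +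
        h (cA s (c + e j) k) (cA s c k) / (S.F k).n) UF (𝓝 (0 + hr (cA s (c + e j)) (cA s c))) := Tendsto.add h3 h5
    have h7 : 0 + hr (cA s (c + e j)) (cA s c) < 2 * e j := by linarith [hepos j]
    filter_upwards [h6.eventually (gt_mem_nhds h7)] with k hk
    have h8 := ((kap s (c + e j)) k).leak_le_leak (cA s c k) (cA s (c + e j) k)
    have h9 := div_le_div_of_nonneg_right h8 (S.F k).pos.le
    rw [add_div] at h9
    linarith
  have hinfo : ∀ j, ∀ᶠ k in UF, (v + c) - 2 * e j ≤ ((kap s (c + e j)) k).info / (S.F k).n := by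
    intro j
    have h3 : (v + c) - 2 * e j < (kap s (c + e j)).info := by
      rw [(hk j).info_eq]
      have h4 := hv (c + e j) (by linarith [hepos j]) (by linarith [hele j])
      linarith [hepos j]
    filter_upwards [eventually_gt_of_lt_ul ((hk j).1.ub (cA_Bd s _)) h3] with k hk using hk.le
  obtain ⟨y, hy, hyi⟩ := Lab.approx (cA_Bd s c) (fun j => kap s (c + e j)) (fun j => 2 * e j) he2 (v + c)
    hleakA hleakB hinfo
  have h9 := info_le_ic (s := s) (c := c) hy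
  linarith

/-- `i(1) = h(P|t)` -/
theorem ic_one : ic s 1 = h (s.P.dg 1) s.T := by
  have hl := kap_isKap s 1
  have h1 := hl.ic_P zero_le_one le_rfl
  have h2 : up1 (kap s 1) (s.P.dg 1) = ⊥ := hl.P_bot le_rfl
  rw [h2] at h1
  have h3 : h (⊥ : ((kap s 1).ovr 1 one_pos).L) (up1 (kap s 1) s.T) = 0 := h_zero bot_le
  linarith

end

end Pool.Agent.Helper40.EL
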