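import Pool.Agent.Helper40.EL.D1
import Pool.Agent.Helper31.EC.Chg

/-! Exact entropy calculus, second layer: spaces over a label, triviality over a maximal label, common informations,
nested maximal labels, canonical numbers. -/

namespace Pool.Agent.Helper40.EL

open Finset Filter Topology Pool.Agent.Helper69.RK Pool.Agent.Helper31.EC

noncomputable section

/-! ### refinement of the base, finite level -/

/-- a measure preserving projection; the base of `K` is generated by the base of `R` and the partition `W` of `R` -/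
structure FRb (K R : FSp) where
  π : K.Ω → R.Ω
  law : push π K.μ = R.μ
  W : Setoid R.Ω
  hZ : ∀ ω ω', K.μ ω ≠ 0 → K.μ ω' ≠ 0 → (K.Z ω ω' ↔ W (π ω) (π ω') ∧ R.Z (π ω) (π ω'))

namespace FRb

variable {K R : FSp} (p : FRb K R)

theorem e_comap (A B : Setoid R.Ω) : K.e (Setoid.comap p.π A) (Setoid.comap p.π B) = R.e A B := by
  have h1 := (Pool.Agent.Helper70.RK.st_E5.1 R.Ω K.Ω _ _ K.μ p.π (Quotient.mk A) (Quotient.mk B) K.nn).2.2
  rw [p.law] at h1
  have h2 : R.e A B = CH R.μ (Quotient.mk A) (Quotient.mk B) := rfl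
  rw [h2, h1]
  apply K.e_congr
  · intro ω ω' _ _
    exact (Quotient.eq (r := A)).symm
  · intro ω ω' _ _
    exact (Quotient.eq (r := B)).symm

theorem e_comap_base (A B : Setoid R.Ω) :
    K.e (Setoid.comap p.π A) (Setoid.comap p.π B ⊓ K.Z) = R.e A ((B ⊓ p.W) ⊓ R.Z) := by
  rw [← p.e_comap A ((B ⊓ p.W) ⊓ R.Z)]
  apply K.e_congr_right
  intro ω ω' h1 h2
  constructor
  · intro h
    exact ⟨⟨h.1, ((p.hZ ω ω' h1 h2).1 h.2).1⟩, ((p.hZ ω ω' h1 h2).1 h.2).2⟩
  · intro h
    exact ⟨h.1.1, (p.hZ ω ω' h1 h2).2 ⟨h.1.2, h.2⟩⟩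

theorem e_mono_base {A B : Setoid R.Ω} (h : R.e A (B ⊓ R.Z) = 0) :
    K.e (Setoid.comap p.π A) (Setoid.comap p.π B ⊓ K.Z) = 0 := by
  rw [p.e_comap_base]
  apply le_antisymm _ (R.e_nonneg _ _)
  rw [← h]
  exact R.e_anti (fun ω ω' _ _ g => ⟨g.1.1, g.2⟩)

/-- the map of finite entropy lattices -/
def map : FL R → FL K := Quotient.map (fun A : Setoid R.Ω => (Setoid.comap p.π A : Setoid K.Ω)) (by
  intro A B hAB
  have a1 : R.e A (B ⊓ R.Z) = 0 := hAB.1
  have a2 : R.e B (A ⊓ R.Z) = 0 := hAB.2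
  exact ⟨p.e_mono_base a1, p.e_mono_base a2⟩)

theorem map_fc (A : Setoid R.Ω) : p.map (fc A) = fc (Setoid.comap p.π A) := rfl

theorem map_sup (x y : FL R) : p.map (x ⊔ y) = p.map x ⊔ p.map y := by
  induction x using fc_ind
  induction y using fc_ind
  rfl

theorem map_mono {x y : FL R} (h : x ≤ y) : p.map x ≤ p.map y := by
  have h1 := p.map_sup x y
  rw [sup_eq_right.mpr h] at h1
  rw [h1]
  exact le_sup_left

theorem map_bot : p.map ⊥ = ⊥ := by
  rw [← fc_top, p.map_fc]
  exact le_antisymm (fc_mono (fun _ _ _ => trivial)) bot_le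

theorem map_W : p.map (fc p.W) = ⊥ := by
  apply le_antisymm _ bot_le
  rw [← fc_top, p.map_fc]
  apply fc_le
  intro ω ω' h1 h2 h3 _
  exact ((p.hZ ω ω' h1 h2).1 h3).1

theorem H_map (x : FL R) : H (p.map x) = h x (fc p.W) := by
  induction x using fc_ind with | _ A
  rw [p.map_fc, H_fc, h_fc]
  have h1 := p.e_comap_base A ⊤
  rw [top_inf_eq] at h1
  rw [← h1]
  apply K.e_congr_right
  intro ω ω' _ _
  exact ⟨fun h => ⟨trivial, h⟩, fun h => h.2⟩

theorem h_map (x y : FL R) : h (p.map x) (p.map y) = h x (y ⊔ fc p.W) := by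
  unfold h
  rw [← p.map_sup, p.H_map, p.H_map]
  unfold h
  rw [← sup_assoc]; ring

theorem I_map (x y z : FL R) : I (p.map x) (p.map y) (p.map z) = I x y (z ⊔ fc p.W) := by
  unfold I
  rw [← p.map_sup, ← p.map_sup, ← p.map_sup, ← p.map_sup, p.H_map, p.H_map, p.H_map, p.H_map]
  unfold h
  rw [← sup_assoc, ← sup_assoc, ← sup_assoc]; ring

end FRb

theorem push_id {Ω : Type} [Fintype Ω] (μ : Ω → ℝ) : push (fun ω => ω) μ = μ := by
  funext ω
  rw [push_ind, Finset.sum_eq_single ω]
  · rw [e1_ind_pos rfl, one_mul]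
  · intro b _ hb
    rw [e1_ind_neg hb, zero_mul]
  · intro h
    exact absurd (Finset.mem_univ _) h

theorem push_comp {Ω₁ Ω₂ Ω₃ : Type} [Fintype Ω₂] [Fintype Ω₃] (π₂ : Ω₃ → Ω₂) (π₁ : Ω₂ → Ω₁) (ν : Ω₃ → ℝ) :
    push (fun w => π₁ (π₂ w)) ν = push π₁ (push π₂ ν) := by
  funext ω
  rw [push_ind, push_ind]
  have h2 : ∀ x : Ω₂, e1_ind (π₁ x = ω) * push π₂ ν x =
      ∑ ω', e1_ind (π₂ ω' = x) * (e1_ind (π₁ (π₂ ω') = ω) * ν ω') := by
    intro x
    rw [push_ind, Finset.mul_sum]
    apply Finset.sum_congr rfl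
    intro y _
    by_cases hy : π₂ y = x
    · rw [hy]; ring
    · rw [e1_ind_neg hy]; ring
  rw [Finset.sum_congr rfl (fun x _ => h2 x), Finset.sum_comm]
  apply Finset.sum_congr rfl
  intro y _
  rw [Finset.sum_eq_single (π₂ y)]
  · rw [e1_ind_pos rfl, one_mul]
  · intro b _ hb
    rw [e1_ind_neg (fun h => hb h.symm), zero_mul]
  · intro h
    exact absurd (Finset.mem_univ _) h

/-- the change of the base of a finite space -/
def frb (F : FSp) (Z : Setoid F.Ω) (c : ℝ) (hc : 0 < c) : FRb (F.chg Z c hc) F where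
  π := fun ω => ω
  law := push_id F.μ
  W := Z
  hZ := fun _ _ _ _ => Iff.rfl

namespace FLab

variable {F : FSp} (l : FLab F) (c : ℝ) (hc : 0 < c)

/-- the space over a label -/
abbrev ovr : FSp := l.T.chg l.V c hc

/-- informations of the space as informations of the space over the label -/
def up (x : FL F) : FL (l.ovr c hc) := (frb l.T l.V c hc).map (l.p.map x)

theorem up_mono {x y : FL F} (h : x ≤ y) : l.up c hc x ≤ l.up c hc y :=
  (frb l.T l.V c hc).map_mono (l.p.map_mono h)

theorem up_sup (x y : FL F) : l.up c hc (x ⊔ y) = l.up c hc x ⊔ l.up c hc y := by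
  show (frb l.T l.V c hc).map (l.p.map (x ⊔ y)) = _
  rw [l.p.map_sup]
  exact (frb l.T l.V c hc).map_sup _ _

theorem up_bot : l.up c hc ⊥ = ⊥ := by
  show (frb l.T l.V c hc).map (l.p.map ⊥) = ⊥
  rw [l.p.map_bot]
  exact (frb l.T l.V c hc).map_bot

theorem H_up (x : FL F) : H (l.up c hc x) = h (l.p.map x) l.v := (frb l.T l.V c hc).H_map _

theorem h_up (x y : FL F) : h (l.up c hc x) (l.up c hc y) = h (l.p.map x) (l.p.map y ⊔ l.v) :=
  (frb l.T l.V c hc).h_map _ _

variable (l2 : FLab (l.ovr c hc))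

/-- a label over a label, as a label of the space -/
def comp : FLab F where
  T :=
    { Ω := l2.T.Ω
      ft := l2.T.ft
      μ := l2.T.μ
      nn := l2.T.nn
      ms := l2.T.ms
      Z := Setoid.comap (fun ω => l.p.π (l2.p.π ω)) F.Z
      n := F.n
      pos := F.pos }
  p :=
    { π := fun ω => l.p.π (l2.p.π ω)
      law := (push_comp l2.p.π l.p.π l2.T.μ).trans ((congrArg (push l.p.π) l2.p.law).trans l.p.law)
      hZ := fun _ _ _ _ => Iff.rfl }
  hn := rfl
  V := Setoid.comap l2.p.π l.V ⊓ l2.V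

/-- the projection to the space of the first label -/
def cq : FPj (l.comp c hc l2).T l.T where
  π := l2.p.π
  law := l2.p.law
  hZ := by
    intro ω ω' h1 h2
    have e1 : l.T.μ (l2.p.π ω) ≠ 0 := l2.p.supp ω h1
    have e2 : l.T.μ (l2.p.π ω') ≠ 0 := l2.p.supp ω' h2
    exact (l.p.hZ _ _ e1 e2).symm

/-- the space of the second label over the composed one -/
def cr : FRb l2.T (l.comp c hc l2).T where
  π := fun ω => ω
  law := push_id l2.T.μ
  W := Setoid.comap l2.p.π l.V
  hZ := by
    intro ω ω' h1 h2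
    have e1 : l.T.μ (l2.p.π ω) ≠ 0 := l2.p.supp ω h1
    have e2 : l.T.μ (l2.p.π ω') ≠ 0 := l2.p.supp ω' h2
    have e3 : l2.T.Z ω ω' ↔ (l.V (l2.p.π ω) (l2.p.π ω') ∧ l.T.Z (l2.p.π ω) (l2.p.π ω')) := l2.p.hZ ω ω' h1 h2
    rw [e3, l.p.hZ _ _ e1 e2]
    exact Iff.rfl

theorem cr_cq (x : FL l.T) :
    (l.cr c hc l2).map ((l.cq c hc l2).map x) = l2.p.map ((frb l.T l.V c hc).map x) := by
  induction x using fc_ind
  rfl

theorem comp_v : (l.comp c hc l2).v = (l.cq c hc l2).map l.v ⊔ (fc l2.V : FL (l.comp c hc l2).T) := rfl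

theorem comp_leak (x : FL F) : (l.comp c hc l2).leak x =
    l.leak x + I l2.v (l2.p.map ((frb l.T l.V c hc).map l.p.top)) (l2.p.map (l.up c hc x)) := by
  have h1 : (l.comp c hc l2).leak x = I ((l.cq c hc l2).map l.v ⊔ (fc l2.V : FL (l.comp c hc l2).T))
      ((l.cq c hc l2).map l.p.top) ((l.cq c hc l2).map (l.p.map x)) := by
    unfold leak
    rw [comp_v]
    congr 1
    induction x using fc_ind
    rfl
  rw [h1, I_chain, (l.cq c hc l2).I_map]
  have h2 : I (fc l2.V : FL (l.comp c hc l2).T) ((l.cq c hc l2).map l.p.top)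
      ((l.cq c hc l2).map l.v ⊔ (l.cq c hc l2).map (l.p.map x)) =
      I ((l.cr c hc l2).map (fc l2.V : FL (l.comp c hc l2).T)) ((l.cr c hc l2).map ((l.cq c hc l2).map l.p.top))
        ((l.cr c hc l2).map ((l.cq c hc l2).map (l.p.map x))) := by
    rw [(l.cr c hc l2).I_map, sup_comm ((l.cq c hc l2).map (l.p.map x))]
    rfl
  rw [h2, cr_cq, cr_cq]
  rfl

theorem comp_leak_le (x : FL F) : (l.comp c hc l2).leak x ≤ l.leak x + l2.leak (l.up c hc x) := by
  rw [comp_leak]
  have h1 : I l2.v (l2.p.map ((frb l.T l.V c hc).map l.p.top)) (l2.p.map (l.up c hc x)) ≤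
      l2.leak (l.up c hc x) := I_mono_right ((l2.p.map_le_top _).trans le_sup_left)
  linarith

theorem comp_info : (l.comp c hc l2).info =
    l.info + I l2.v (l2.p.map ((frb l.T l.V c hc).map l.p.top)) ⊥ := by
  rw [← leak_bot, comp_leak, leak_bot]
  have h1 : l2.p.map (l.up c hc ⊥) = ⊥ := by
    rw [up_bot]
    exact l2.p.map_bot
  rw [h1]

theorem comp_info_le : (l.comp c hc l2).info - l.info ≤ l2.info := by
  have h1 : I l2.v (l2.p.map ((frb l.T l.V c hc).map l.p.top)) ⊥ ≤ l2.info :=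
    I_mono_right ((l2.p.map_le_top _).trans le_sup_left)
  rw [comp_info]
  linarith

/-- the information of a label over a label -/
theorem info_over_le (x : FL F) : l2.info ≤ (l.comp c hc l2).info - l.info + l2.leak (l.up c hc x) := by
  rw [comp_info, l2.info_eq_leak (l.up c hc x)]
  have h1 : I l2.v (l2.p.map (l.up c hc x)) ⊥ ≤ I l2.v (l2.p.map ((frb l.T l.V c hc).map l.p.top)) ⊥ := by
    apply I_mono_right
    refine le_trans ?_ le_sup_left
    exact l2.p.map_mono ((frb l.T l.V c hc).map_mono (l.p.map_le_top x))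
  linarith

end FLab

/-! ### spaces over labels -/

namespace Lab

variable {S : Sp} (l : Lab S)

/-- the space of a label -/
def sp : Sp where
  F := fun k => (l k).T
  lim := by
    have h1 : (fun k => (l k).T.n) = fun k => (S.F k).n := by
      funext k; exact (l k).hn
    rw [h1]; exact S.lim

/-- the projection -/
def pj : Pj l.sp S where
  π := fun k => (l k).p.π
  law := fun k => (l k).p.law
  hZ := fun k => (l k).p.hZ
  hn := fun k => (l k).hn

/-- the partitions of a label -/
def V : ∀ k, Setoid (l.sp.F k).Ω := fun k => (l k).V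

/-- the space over a label -/
def ovr (c : ℝ) (hc : 0 < c) : Sp := l.sp.chg l.V c hc

/-- informations in the space over the label -/
def up (c : ℝ) (hc : 0 < c) (A : Part S) : Part (l.ovr c hc) := fun k => (l k).up c hc (A k)

variable (c : ℝ) (hc : 0 < c)

theorem n_over (k : ℕ) : ((l.ovr c hc).F k).n = c * (S.F k).n := by
  have h1 : ((l.ovr c hc).F k).n = c * (l k).T.n := rfl
  rw [h1, (l k).hn]

theorem nul_over {f : ℕ → ℝ} : Nul (l.ovr c hc) f ↔ Nul S f := by
  have h1 : (fun k => f k / ((l.ovr c hc).F k).n) = fun k => c⁻¹ * (f k / (S.F k).n) := by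
    funext k
    rw [n_over, mul_comm c, ← div_div, div_eq_inv_mul]
  have h2 : (fun k => f k / (S.F k).n) = fun k => c * (f k / ((l.ovr c hc).F k).n) := by
    funext k
    rw [congrFun h1 k, ← mul_assoc, mul_inv_cancel₀ hc.ne', one_mul]
  constructor
  · intro h
    have h3 := Tendsto.const_mul c h
    rw [mul_zero] at h3
    unfold Nul
    rw [h2]; exact h3
  · intro h
    have h3 := Tendsto.const_mul c⁻¹ h
    rw [mul_zero] at h3
    unfold Nul
    rw [h1]; exact h3

/-- a label over a label -/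
def comp (l2 : Lab (l.ovr c hc)) : Lab S := fun k => (l k).comp c hc (l2 k)

variable {l c hc} {A B : Part S}

theorem DM.comp (h : l.DM A B) {l2 : Lab (l.ovr c hc)} (h2 : l2.DM (l.up c hc A) (l.up c hc B)) :
    (l.comp c hc l2).DM A B := by
  constructor
  · apply (h.1.add ((nul_over l c hc).mp h2.1)).of_le (Eventually.of_forall fun k => FLab.leak_nonneg _ _)
    exact Eventually.of_forall fun k => (l k).comp_leak_le c hc (l2 k) (A k)
  · apply (h.2.add ((nul_over l c hc).mp h2.2)).of_le (Eventually.of_forall fun k => FLab.leak_nonneg _ _)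
    exact Eventually.of_forall fun k => (l k).comp_leak_le c hc (l2 k) (B k)

/-- D9: TRIVIALITY ovr a maximal double Markov label -/
theorem IsMax.triv (h : l.IsMax A B) (hA : A.Bd) (l2 : Lab (l.ovr c hc))
    (h2 : l2.DM (l.up c hc A) (l.up c hc B)) : Nul S (fun k => (l2 k).info) := by
  have h1 := h.2 _ (h.1.comp h2)
  have hu1 := (h.1.comp h2).ub hA
  have hu2 := h.1.ub hA
  have hl := (nul_over l c hc).mp h2.1
  have h3 : Tendsto (fun k => (((l.comp c hc l2) k).info / (S.F k).n - (l k).info / (S.F k).n) +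
      (l2 k).leak (l.up c hc A k) / (S.F k).n) UF (𝓝 ((l.comp c hc l2).info - l.info + 0)) :=
    ((ul_tendsto hu1).sub (ul_tendsto hu2)).add hl
  have h4 : ∀ k, (l2 k).info / (S.F k).n ≤ (((l.comp c hc l2) k).info / (S.F k).n - (l k).info / (S.F k).n) +
      (l2 k).leak (l.up c hc A k) / (S.F k).n := by
    intro k
    rw [← sub_div, ← add_div]
    exact div_le_div_of_nonneg_right ((l k).info_over_le c hc (l2 k) (A k)) (S.F k).pos.le
  have h0 : ∀ k, 0 ≤ (l2 k).info / (S.F k).n := fun k => div_nonneg (FLab.info_nonneg _) (S.F k).pos.le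
  have h5 : 0 ≤ (l.comp c hc l2).info - l.info + 0 :=
    ge_of_tendsto h3 (Eventually.of_forall fun k => (h0 k).trans (h4 k))
  have h6 : (l.comp c hc l2).info - l.info + 0 = 0 := le_antisymm (by linarith) h5
  rw [h6] at h3
  exact tendsto_of_tendsto_of_tendsto_of_le_of_le tendsto_const_nhds h3 h0 h4

/-- maximality in the space over a label: a label over `l` which makes a maximal label of the space is maximal -/
theorem IsMax.ovr {l2 : Lab (l.ovr c hc)} (h : (l.comp c hc l2).IsMax A B) (hl : l.DM A B)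
    (h2 : l2.DM (l.up c hc A) (l.up c hc B)) (hA : A.Bd) : l2.IsMax (l.up c hc A) (l.up c hc B) := by
  refine ⟨h2, ?_⟩
  intro l3 h3
  have h4 := h.2 _ (hl.comp h3)
  have hu := hl.ub hA
  have hu2 := (hl.comp h2).ub hA
  have hu3 := (hl.comp h3).ub hA
  -- information of a label over `l` is the difference, up to the leak
  have key : ∀ (l4 : Lab (l.ovr c hc)), l4.DM (l.up c hc A) (l.up c hc B) →
      l4.info = ((l.comp c hc l4).info - l.info) / c := by
    intro l4 h4
    have hv := (hl.comp h4).ub hA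
    have t1 : Tendsto (fun k => (((l.comp c hc l4) k).info / (S.F k).n - (l k).info / (S.F k).n)) UF
        (𝓝 ((l.comp c hc l4).info - l.info)) := (ul_tendsto hv).sub (ul_tendsto hu)
    have t2 : Tendsto (fun k => (((l.comp c hc l4) k).info / (S.F k).n - (l k).info / (S.F k).n) +
        (l4 k).leak (l.up c hc A k) / (S.F k).n) UF (𝓝 ((l.comp c hc l4).info - l.info)) := by
      have := t1.add ((nul_over l c hc).mp h4.1)
      rwa [add_zero] at this
    have b1 : ∀ k, ((l.comp c hc l4) k).info / (S.F k).n - (l k).info / (S.F k).n ≤ (l4 k).info / (S.F k).n := by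
      intro k
      rw [← sub_div]
      exact div_le_div_of_nonneg_right ((l k).comp_info_le c hc (l4 k)) (S.F k).pos.le
    have b2 : ∀ k, (l4 k).info / (S.F k).n ≤ (((l.comp c hc l4) k).info / (S.F k).n - (l k).info / (S.F k).n) +
        (l4 k).leak (l.up c hc A k) / (S.F k).n := by
      intro k
      rw [← sub_div, ← add_div]
      exact div_le_div_of_nonneg_right ((l k).info_over_le c hc (l4 k) (A k)) (S.F k).pos.le
    have t3 : Tendsto (fun k => (l4 k).info / (S.F k).n) UF (𝓝 ((l.comp c hc l4).info - l.info)) :=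
      tendsto_of_tendsto_of_tendsto_of_le_of_le t1 t2 b1 b2
    have e : (fun k => (l4 k).info / ((l.ovr c hc).F k).n) = fun k => c⁻¹ * ((l4 k).info / (S.F k).n) := by
      funext k
      rw [n_over, mul_comm c, ← div_div, div_eq_inv_mul]
    show ul (fun k => (l4 k).info / ((l.ovr c hc).F k).n) = _
    rw [e, ul_eq (t3.const_mul c⁻¹), div_eq_inv_mul]
  rw [key l2 h2, key l3 h3]
  apply div_le_div_of_nonneg_right _ hc.le
  linarith

end Lab

end

end Pool.Agent.Helper40.EL
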