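import Pool.Agent.Helper40.EL.D2

/-! Exact entropy calculus, second layer: unbounded informations and the entropy lattice; the lattice of a space over
a label; common informations and canonical numbers. -/

namespace Pool.Agent.Helper40.EL

open Finset Filter Topology Pool.Agent.Helper69.RK Pool.Agent.Helper31.EC

noncomputable section

variable {S : Sp}

/-! ### rates of parts -/

/-- `A` is a function of `B` up to rate zero -/
def PLe (A B : Part S) : Prop := Nul S (fun k => h (A k) (B k))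

theorem PLe.refl (A : Part S) : PLe A A := by
  have h1 : (fun k => h (A k) (A k)) = fun _ => 0 := by
    funext k; exact h_self _
  unfold PLe
  rw [h1]; exact Nul_zero S

theorem PLe_of_le {A B : Part S} (hAB : ∀ k, A k ≤ B k) : PLe A B := by
  have h1 : (fun k => h (A k) (B k)) = fun _ => 0 := by
    funext k; exact h_zero (hAB k)
  unfold PLe
  rw [h1]; exact Nul_zero S

theorem PLe.trans {A B C : Part S} (h1 : PLe A B) (h2 : PLe B C) : PLe A C :=
  (h1.add h2).of_le (Eventually.of_forall fun _ => h_nonneg _ _)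
    (Eventually.of_forall fun k => h_triangle' (A k) (B k) (C k))

theorem PLe.sup_le {A B C : Part S} (h1 : PLe A C) (h2 : PLe B C) : PLe (fun k => A k ⊔ B k) C :=
  (h1.add h2).of_le (Eventually.of_forall fun _ => h_nonneg _ _)
    (Eventually.of_forall fun k => h_sup_le (A k) (B k) (C k))

/-- conditional rate -/
def hr (A B : Part S) : ℝ := ul (fun k => h (A k) (B k) / (S.F k).n)

theorem Part.Bd.ub {A : Part S} (hA : A.Bd) (B : Part S) : UB (fun k => h (A k) (B k) / (S.F k).n) := by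
  refine UB.sandwich (UB_const 0) hA ?_ ?_
  · exact Eventually.of_forall fun k => div_nonneg (h_nonneg _ _) (S.F k).pos.le
  · exact Eventually.of_forall fun k => div_le_div_of_nonneg_right (h_le_H _ _) (S.F k).pos.le

theorem Part.Bd.tendsto {A : Part S} (hA : A.Bd) (B : Part S) :
    Tendsto (fun k => h (A k) (B k) / (S.F k).n) UF (𝓝 (hr A B)) := ul_tendsto (hA.ub B)

theorem hr_nonneg {A : Part S} (hA : A.Bd) (B : Part S) : 0 ≤ hr A B :=
  const_le_ul (hA.ub B) (Eventually.of_forall fun k => div_nonneg (h_nonneg _ _) (S.F k).pos.le)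

theorem hr_zero_of_PLe {A B : Part S} (h1 : PLe A B) : hr A B = 0 := ul_eq h1

theorem PLe_of_hr {A B : Part S} (hA : A.Bd) (h1 : hr A B ≤ 0) : PLe A B := by
  have h2 := hA.tendsto B
  rw [le_antisymm h1 (hr_nonneg hA B)] at h2
  exact h2

/-- comparison of rates -/
theorem hr_le {A B A' B' : Part S} (hA : A.Bd) (hA' : A'.Bd) {f : ℕ → ℝ} (hf : Nul S f)
    (hh : ∀ᶠ k in UF, h (A k) (B k) ≤ h (A' k) (B' k) + f k) : hr A B ≤ hr A' B' := by
  have h1 := hA.tendsto B
  have h2 := (hA'.tendsto B').add hf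
  rw [add_zero] at h2
  refine le_of_tendsto_of_tendsto h1 h2 ?_
  filter_upwards [hh] with k hk
  rw [← add_div]
  exact div_le_div_of_nonneg_right hk (S.F k).pos.le

theorem hr_anti {A B B' : Part S} (hA : A.Bd) (hB : PLe B B') : hr A B' ≤ hr A B := by
  apply hr_le hA hA hB
  refine Eventually.of_forall fun k => ?_
  have h1 := h_triangle (A k) (B k) (B' k)
  have h2 : h (A k) (B k ⊔ B' k) ≤ h (A k) (B k) := h_anti le_sup_left
  linarith

theorem hr_mono {A A' B : Part S} (hA : A.Bd) (hA' : A'.Bd) (hAA : PLe A A') : hr A B ≤ hr A' B := by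
  apply hr_le hA hA' hAA
  refine Eventually.of_forall fun k => ?_
  have h1 := h_triangle' (A k) (A' k) (B k)
  linarith

/-! ### representatives of bounded informations -/

/-- the part of an information -/
def rpI (A : S.Inf) : Part S := fun k => fc (A.1 k)

theorem h_rpI (A B : S.Inf) (k : ℕ) : h (rpI A k) (rpI B k) / (S.F k).n = S.rt A.1 B.1 k := by
  unfold rpI
  rw [h_fc]
  rfl

theorem H_rpI (A : S.Inf) (k : ℕ) : H (rpI A k) / (S.F k).n = S.rt A.1 S.tr k := by
  unfold rpI Sp.rt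
  rw [H_fc]
  congr 1
  apply (S.F k).e_congr_right
  intro ω ω' _ _
  exact ⟨fun h => ⟨trivial, h⟩, fun h => h.2⟩

theorem rpI_Bd (A : S.Inf) : (rpI A).Bd := by
  have h1 : (fun k => H (rpI A k) / (S.F k).n) = S.rt A.1 S.tr := by
    funext k; exact H_rpI A k
  unfold Part.Bd
  rw [h1]
  exact A.ub

theorem hr_rpI (A B : S.Inf) : hr (rpI A) (rpI B) = h (Sp.cl A) (Sp.cl B) := by
  rw [Sp.h_cl]
  unfold hr
  congr 1
  funext k
  exact h_rpI A B k

theorem PLe_rpI {A B : S.Inf} : PLe (rpI A) (rpI B) ↔ Sp.cl A ≤ Sp.cl B := by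
  have h1 : (fun k => h (rpI A k) (rpI B k) / (S.F k).n) = S.rt A.1 B.1 := by
    funext k; exact h_rpI A B k
  unfold PLe Nul
  rw [h1]
  exact Iff.rfl

/-- a representative of an element of the entropy lattice -/
def rpo (x : S.L) : S.Inf := ofAntisymmetrization (· ≤ ·) x

theorem cl_rpo (x : S.L) : Sp.cl (rpo x) = x := toAntisymmetrization_ofAntisymmetrization _ x

/-- the part of an element of the entropy lattice -/
def rp (x : S.L) : Part S := rpI (rpo x)

theorem rp_Bd (x : S.L) : (rp x).Bd := rpI_Bd _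

theorem PLe_rp {x y : S.L} : PLe (rp x) (rp y) ↔ x ≤ y := by
  unfold rp
  rw [PLe_rpI, cl_rpo, cl_rpo]

theorem hr_rp (x y : S.L) : hr (rp x) (rp y) = h x y := by
  unfold rp
  rw [hr_rpI, cl_rpo, cl_rpo]

theorem rp_rpI (A : S.Inf) : PLe (rp (Sp.cl A)) (rpI A) ∧ PLe (rpI A) (rp (Sp.cl A)) := by
  unfold rp
  rw [PLe_rpI, PLe_rpI, cl_rpo]
  exact ⟨le_rfl, le_rfl⟩

theorem rp_sup (x y : S.L) : PLe (rp (x ⊔ y)) (fun k => rp x k ⊔ rp y k) ∧
    PLe (fun k => rp x k ⊔ rp y k) (rp (x ⊔ y)) := by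
  have h1 : (fun k => rp x k ⊔ rp y k) = rpI (Sp.Inf.sup (rpo x) (rpo y)) := rfl
  rw [h1]
  unfold rp
  rw [PLe_rpI, PLe_rpI, cl_rpo, Sp.cl_sup, cl_rpo, cl_rpo]
  exact ⟨le_rfl, le_rfl⟩

theorem rp_mono {x y : S.L} (hxy : x ≤ y) : PLe (rp x) (rp y) := PLe_rp.mpr hxy

/-! ### double Markov labels for elements of the lattice -/

namespace Lab

variable (l l' : Lab S)

/-- double Markov labels -/
def DML (x y : S.L) : Prop := l.DM (rp x) (rp y)

/-- maximal double Markov labels -/
def IsMaxL (x y : S.L) : Prop := l.IsMax (rp x) (rp y)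

theorem exists_maxL (x y : S.L) : ∃ l : Lab S, l.IsMaxL x y := exists_max _ _ (rp_Bd x)

variable {l l'}

theorem DML.mono {x y x' y' : S.L} (hl : l.DML x y) (hx : x ≤ x') (hy : y ≤ y') : l.DML x' y' :=
  DM.mono (A := rp x) (B := rp y) hl (rp_mono hx) (rp_mono hy)

theorem DML.symm {x y : S.L} (hl : l.DML x y) : l.DML y x := ⟨hl.2, hl.1⟩

theorem IsMaxL.symm {x y : S.L} (hl : l.IsMaxL x y) : l.IsMaxL y x :=
  ⟨hl.1.symm, fun l' h' => hl.2 l' h'.symm⟩

theorem DML.join {x y : S.L} (hl : l.DML x y) (hl' : l'.DML x y) : (l.join l').DML x y := DM.join hl hl'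

variable (l) (c : ℝ) (hc : 0 < c)

/-- elements of the lattice in the space over the label -/
def upL (x : S.L) : (l.ovr c hc).L := Sp.chgL l.V c hc (l.pj.map x)

theorem upL_sup (x y : S.L) : l.upL c hc (x ⊔ y) = l.upL c hc x ⊔ l.upL c hc y := by
  show Sp.chgL l.V c hc (l.pj.map (x ⊔ y)) = _
  rw [l.pj.map_sup]
  exact Sp.chgL_sup _ _ _ _ _

theorem upL_mono {x y : S.L} (hxy : x ≤ y) : l.upL c hc x ≤ l.upL c hc y :=
  Sp.chgL_mono _ _ _ (l.pj.map_mono hxy)

theorem upL_bot : l.upL c hc ⊥ = ⊥ := by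
  show Sp.chgL l.V c hc (l.pj.map ⊥) = _
  rw [l.pj.map_bot]
  exact Sp.chgL_bot _ _ _

/-- the information of `x` in the space over the label -/
def upI (A : S.Inf) : (l.ovr c hc).Inf := Sp.chgI l.V c hc (l.pj.mapI A)

theorem upL_cl (A : S.Inf) : l.upL c hc (Sp.cl A) = Sp.cl (l.upI c hc A) := rfl

theorem rpI_upI (A : S.Inf) : rpI (l.upI c hc A) = l.up c hc (rpI A) := rfl

theorem PLe_up {A B : Part S} (hAB : PLe A B) : PLe (l.up c hc A) (l.up c hc B) := by
  unfold PLe
  rw [nul_over]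
  apply Nul.of_le hAB (Eventually.of_forall fun _ => h_nonneg _ _)
  refine Eventually.of_forall fun k => ?_
  show h ((l k).up c hc (A k)) ((l k).up c hc (B k)) ≤ h (A k) (B k)
  rw [(l k).h_up, ← (l k).p.h_map]
  exact h_anti le_sup_left

theorem rp_upL (x : S.L) : PLe (rp (l.upL c hc x)) (l.up c hc (rp x)) ∧
    PLe (l.up c hc (rp x)) (rp (l.upL c hc x)) := by
  have h1 : l.upL c hc x = Sp.cl (l.upI c hc (rpo x)) := by
    rw [← upL_cl, cl_rpo]
  have h2 : l.up c hc (rp x) = rpI (l.upI c hc (rpo x)) := rfl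
  rw [h1, h2]
  exact rp_rpI _

/-- double Markov labels over a label, the two forms -/
theorem DML_upL {l2 : Lab (l.ovr c hc)} {x y : S.L} : l2.DML (l.upL c hc x) (l.upL c hc y) ↔
    l2.DM (l.up c hc (rp x)) (l.up c hc (rp y)) := by
  constructor
  · intro h
    exact DM.mono (S := l.ovr c hc) (l := l2) (A := rp (l.upL c hc x)) (B := rp (l.upL c hc y))
      (A' := l.up c hc (rp x)) (B' := l.up c hc (rp y)) h (l.rp_upL c hc x).1 (l.rp_upL c hc y).1
  · intro h
    exact DM.mono (S := l.ovr c hc) (l := l2) (A := l.up c hc (rp x)) (B := l.up c hc (rp y))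
      (A' := rp (l.upL c hc x)) (B' := rp (l.upL c hc y)) h (l.rp_upL c hc x).2 (l.rp_upL c hc y).2

/-- rates in the space over a label -/
theorem hr_upL (x y : S.L) : h (l.upL c hc x) (l.upL c hc y) =
    ul (fun k => h ((l k).p.map (rp x k)) ((l k).p.map (rp y k) ⊔ (l k).v) / (S.F k).n) / c := by
  have h1 : l.upL c hc x = Sp.cl (l.upI c hc (rpo x)) := by
    rw [← upL_cl, cl_rpo]
  have h2 : l.upL c hc y = Sp.cl (l.upI c hc (rpo y)) := by
    rw [← upL_cl, cl_rpo]
  rw [h1, h2, ← hr_rpI]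
  unfold hr
  have h3 : (fun k => h (rpI (l.upI c hc (rpo x)) k) (rpI (l.upI c hc (rpo y)) k) / ((l.ovr c hc).F k).n) =
      fun k => c⁻¹ * (h ((l k).p.map (rp x k)) ((l k).p.map (rp y k) ⊔ (l k).v) / (S.F k).n) := by
    funext k
    have e1 : h (rpI (l.upI c hc (rpo x)) k) (rpI (l.upI c hc (rpo y)) k) =
        h ((l k).p.map (rp x k)) ((l k).p.map (rp y k) ⊔ (l k).v) := (l k).h_up c hc (rp x k) (rp y k)
    rw [e1, n_over, mul_comm c, ← div_div, div_eq_inv_mul _ c]
  rw [h3, ul_const_mul, div_eq_inv_mul]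
  refine UB.sandwich (UB_const 0) ((rp_Bd x).ub (fun _ => ⊥)) ?_ ?_
  · exact Eventually.of_forall fun k => div_nonneg (h_nonneg _ _) (S.F k).pos.le
  · refine Eventually.of_forall fun k => div_le_div_of_nonneg_right ?_ (S.F k).pos.le
    rw [h_bot, ← (l k).p.H_map]
    exact h_le_H _ _

theorem H_upL (x : S.L) : H (l.upL c hc x) =
    ul (fun k => h ((l k).p.map (rp x k)) (l k).v / (S.F k).n) / c := by
  have h1 := l.hr_upL c hc x ⊥
  rw [upL_bot, h_bot] at h1
  rw [h1]
  congr 1
  have hb : PLe (rp (⊥ : S.L)) (fun _ => ⊥) := by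
    have h2 : PLe (rp (Sp.cl (Sp.Inf.bot : S.Inf))) (rpI Sp.Inf.bot) := (rp_rpI _).1
    rw [Sp.cl_bot] at h2
    exact h2.trans (PLe_of_le fun k => le_rfl)
  -- the two sequences differ by a null sequence
  have hu : ∀ B : ∀ k, FL (l k).T, UB (fun k => h ((l k).p.map (rp x k)) (B k) / (S.F k).n) := by
    intro B
    refine UB.sandwich (UB_const 0) ((rp_Bd x).ub (fun _ => ⊥)) ?_ ?_
    · exact Eventually.of_forall fun k => div_nonneg (h_nonneg _ _) (S.F k).pos.le
    · refine Eventually.of_forall fun k => div_le_div_of_nonneg_right ?_ (S.F k).pos.le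
      rw [h_bot, ← (l k).p.H_map]
      exact h_le_H _ _
  apply le_antisymm
  · apply ul_mono (hu _) (hu _)
    exact Eventually.of_forall fun k => div_le_div_of_nonneg_right (h_anti le_sup_right) (S.F k).pos.le
  · have t1 := (ul_tendsto (hu (fun k => (l k).p.map (rp (⊥ : S.L) k) ⊔ (l k).v))).add hb
    rw [add_zero] at t1
    refine le_of_tendsto_of_tendsto (ul_tendsto (hu (fun k => (l k).v))) t1 ?_
    refine Eventually.of_forall fun k => ?_
    show _ ≤ h ((l k).p.map (rp x k)) ((l k).p.map (rp (⊥ : S.L) k) ⊔ (l k).v) / (S.F k).n +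
      h (rp (⊥ : S.L) k) ⊥ / (S.F k).n
    rw [← add_div]
    apply div_le_div_of_nonneg_right _ (S.F k).pos.le
    have h3 := h_triangle ((l k).p.map (rp x k)) ((l k).p.map (rp (⊥ : S.L) k)) (l k).v
    have h4 := h_le_H ((l k).p.map (rp (⊥ : S.L) k)) (l k).v
    rw [(l k).p.H_map] at h4
    rw [h_bot]
    linarith

variable {l}

/-- (C): conditional entropies given `A` (and more) do not change over a label without leak at `A` -/
theorem h_upL_of_leak {A x y : S.L} (hl : Nul S (fun k => (l k).leak (rp A k))) (hA : A ≤ y) :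
    h (l.upL c hc x) (l.upL c hc y) = h x y / c := by
  rw [l.hr_upL]
  congr 1
  have hu : ∀ B : ∀ k, FL (l k).T, UB (fun k => h ((l k).p.map (rp x k)) (B k) / (S.F k).n) := by
    intro B
    refine UB.sandwich (UB_const 0) ((rp_Bd x).ub (fun _ => ⊥)) ?_ ?_
    · exact Eventually.of_forall fun k => div_nonneg (h_nonneg _ _) (S.F k).pos.le
    · refine Eventually.of_forall fun k => div_le_div_of_nonneg_right ?_ (S.F k).pos.le
      rw [h_bot, ← (l k).p.H_map]
      exact h_le_H _ _
  have hxy : h x y = ul (fun k => h ((l k).p.map (rp x k)) ((l k).p.map (rp y k)) / (S.F k).n) := by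
    rw [← hr_rp]
    unfold hr
    congr 1
    funext k
    rw [(l k).p.h_map]
  rw [hxy]
  apply le_antisymm
  · apply ul_mono (hu _) (hu _)
    exact Eventually.of_forall fun k => div_le_div_of_nonneg_right (h_anti le_sup_left) (S.F k).pos.le
  · have hAy : PLe (rp A) (rp y) := rp_mono hA
    have hl2 : Nul S (fun k => (l k).leak (rp y k)) :=
      (hl.add hAy).of_le (Eventually.of_forall fun _ => FLab.leak_nonneg _ _)
        (Eventually.of_forall fun k => (l k).leak_le_leak (rp y k) (rp A k))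
    have t1 := (ul_tendsto (hu (fun k => (l k).p.map (rp y k) ⊔ (l k).v))).add hl2
    rw [add_zero] at t1
    refine le_of_tendsto_of_tendsto (ul_tendsto (hu (fun k => (l k).p.map (rp y k)))) t1 ?_
    refine Eventually.of_forall fun k => ?_
    show _ ≤ h ((l k).p.map (rp x k)) ((l k).p.map (rp y k) ⊔ (l k).v) / (S.F k).n +
      (l k).leak (rp y k) / (S.F k).n
    rw [← add_div]
    apply div_le_div_of_nonneg_right _ (S.F k).pos.le
    have h3 := I_eq' (l k).v ((l k).p.map (rp x k)) ((l k).p.map (rp y k))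
    have h4 : I (l k).v ((l k).p.map (rp x k)) ((l k).p.map (rp y k)) ≤ (l k).leak (rp y k) :=
      I_mono_right (((l k).p.map_le_top _).trans le_sup_left)
    rw [sup_comm (l k).v] at h3
    linarith

/-- the information of a label without leak at `A` -/
theorem info_eq_of_leak {A : S.L} (hl : Nul S (fun k => (l k).leak (rp A k))) :
    l.info = H A - c * H (l.upL c hc A) := by
  rw [l.H_upL, mul_div_cancel₀ _ hc.ne']
  have hu1 : UB (fun k => h ((l k).p.map (rp A k)) (l k).v / (S.F k).n) := by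
    refine UB.sandwich (UB_const 0) ((rp_Bd A).ub (fun _ => ⊥)) ?_ ?_
    · exact Eventually.of_forall fun k => div_nonneg (h_nonneg _ _) (S.F k).pos.le
    · refine Eventually.of_forall fun k => div_le_div_of_nonneg_right ?_ (S.F k).pos.le
      rw [h_bot, ← (l k).p.H_map]
      exact h_le_H _ _
  have h1 : H A = ul (fun k => H (rp A k) / (S.F k).n) := by
    have h2 : H A = H (Sp.cl (rpo A)) := by rw [cl_rpo]
    rw [h2, Sp.H_cl]
    congr 1
    funext k
    exact (H_rpI (rpo A) k).symm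
  have t := ((ul_tendsto (rp_Bd A)).sub (ul_tendsto hu1)).add hl
  rw [add_zero, ← h1] at t
  have e : (fun k => (l k).info / (S.F k).n) = fun k => (H (rp A k) / (S.F k).n -
      h ((l k).p.map (rp A k)) (l k).v / (S.F k).n) + (l k).leak (rp A k) / (S.F k).n := by
    funext k
    rw [← sub_div, ← add_div]
    congr 1
    rw [(l k).info_eq_leak (rp A k), I_eq', h_bot, (l k).p.H_map, sup_bot_eq]
  show ul (fun k => (l k).info / (S.F k).n) = _
  rw [e]
  exact ul_eq t

variable {c hc}

/-- D8: a common information is known to the maximal double Markov label -/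
theorem IsMaxL.common {A B Y : S.L} (hl : l.IsMaxL A B) (hA : Y ≤ A) (hB : Y ≤ B) : l.upL c hc Y = ⊥ := by
  -- the label `Y`
  set l' : Lab S := fun k => ⟨(FLab.triv (S.F k)).T, (FLab.triv (S.F k)).p, (FLab.triv (S.F k)).hn, (rpo Y).1 k⟩ with hl'
  have hv : ∀ k, (l' k).v = (l' k).p.map (rp Y k) := fun k => rfl
  have hleak : ∀ (C : S.L), Y ≤ C → Nul S (fun k => (l' k).leak (rp C k)) := by
    intro C hC
    apply (rp_mono hC).of_le (Eventually.of_forall fun _ => FLab.leak_nonneg _ _)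
    refine Eventually.of_forall fun k => ?_
    have h1 : (l' k).leak (rp C k) ≤ h (l' k).v ((l' k).p.map (rp C k)) := I_le_h_left _ _ _
    rw [hv, (l' k).p.h_map] at h1
    exact h1
  have h1 := IsMax.univ hl (l' := l') ⟨hleak A hA, hleak B hB⟩ (rp_Bd A)
  have h2 : Nul S (fun k => h ((l k).p.map (rp Y k)) (l k).v) := by
    apply h1.of_le (Eventually.of_forall fun _ => h_nonneg _ _)
    refine Eventually.of_forall fun k => ?_
    have e1 : ((l k).am (l' k)).p2.map (l' k).v = ((l k).am (l' k)).p1.map ((l k).p.map (rp Y k)) := by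
      rw [hv, FLab.am_map]
    show _ ≤ I (((l k).am (l' k)).p2.map (l' k).v) (((l k).am (l' k)).p1.map (l k).p.top)
      (((l k).am (l' k)).p1.map (l k).v)
    rw [e1, ((l k).am (l' k)).p1.I_map, I_eq, h_zero (((l k).p.map_le_top _).trans le_sup_left), sub_zero]
  have h3 : H (l.upL c hc Y) = 0 := by
    rw [l.H_upL, ul_eq h2, zero_div]
  apply le_antisymm _ bot_le
  rw [← h_eq_zero_iff, h_bot]
  exact h3

/-- D5: CANONICAL numbers: `h(Y|κ) ≤ h(Y|V)` for every double Markov label `V` -/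
theorem IsMaxL.H_le {A B : S.L} (hl : l.IsMaxL A B) (hl' : l'.DML A B) (Y : S.L) :
    H (l.upL c hc Y) ≤ H (l'.upL c hc Y) := by
  rw [l.H_upL, l'.H_upL]
  apply div_le_div_of_nonneg_right _ hc.le
  have hu : ∀ l0 : Lab S, UB (fun k => h ((l0 k).p.map (rp Y k)) (l0 k).v / (S.F k).n) := by
    intro l0
    refine UB.sandwich (UB_const 0) ((rp_Bd Y).ub (fun _ => ⊥)) ?_ ?_
    · exact Eventually.of_forall fun k => div_nonneg (h_nonneg _ _) (S.F k).pos.le
    · refine Eventually.of_forall fun k => div_le_div_of_nonneg_right ?_ (S.F k).pos.le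
      rw [h_bot, ← (l0 k).p.H_map]
      exact h_le_H _ _
  have t1 := (ul_tendsto (hu l')).add (IsMax.univ hl hl' (rp_Bd A))
  rw [add_zero] at t1
  refine le_of_tendsto_of_tendsto (ul_tendsto (hu l)) t1 ?_
  refine Eventually.of_forall fun k => ?_
  show _ ≤ h ((l' k).p.map (rp Y k)) (l' k).v / (S.F k).n +
    I (((l k).am (l' k)).p2.map (l' k).v) (((l k).am (l' k)).p1.map (l k).p.top)
      (((l k).am (l' k)).p1.map (l k).v) / (S.F k).n
  rw [← add_div]
  apply div_le_div_of_nonneg_right _ (S.F k).pos.le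
  set D := (l k).am (l' k) with hD
  have e1 : D.p1.map ((l k).p.map (rp Y k)) = D.p2.map ((l' k).p.map (rp Y k)) := FLab.am_map _ _ _
  have e2 : h ((l k).p.map (rp Y k)) (l k).v = h (D.p1.map ((l k).p.map (rp Y k))) (D.p1.map (l k).v) :=
    (D.p1.h_map _ _).symm
  have e3 : h ((l' k).p.map (rp Y k)) (l' k).v = h (D.p1.map ((l k).p.map (rp Y k))) (D.p2.map (l' k).v) := by
    rw [e1]; exact (D.p2.h_map _ _).symm
  rw [e2, e3]
  have h4 := I_eq (D.p1.map ((l k).p.map (rp Y k))) (D.p2.map (l' k).v) (D.p1.map (l k).v)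
  have h5 : I (D.p1.map ((l k).p.map (rp Y k))) (D.p2.map (l' k).v) (D.p1.map (l k).v) ≤
      I (D.p2.map (l' k).v) (D.p1.map (l k).p.top) (D.p1.map (l k).v) := by
    rw [I_comm]
    exact I_mono_right ((D.p1.map_mono ((l k).p.map_le_top _)).trans le_sup_left)
  have h6 : h (D.p1.map ((l k).p.map (rp Y k))) (D.p2.map (l' k).v ⊔ D.p1.map (l k).v) ≤
      h (D.p1.map ((l k).p.map (rp Y k))) (D.p2.map (l' k).v) := h_anti le_sup_left
  linarith

/-- triviality over a maximal label, in terms of the lattice -/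
theorem IsMaxL.triv {A B : S.L} (hl : l.IsMaxL A B) (l2 : Lab (l.ovr c hc))
    (h2 : l2.DML (l.upL c hc A) (l.upL c hc B)) : l2.info = 0 := by
  have h3 := IsMax.triv hl (rp_Bd A) l2 ((l.DML_upL c hc).mp h2)
  have h4 : Nul (l.ovr c hc) (fun k => (l2 k).info) := (l.nul_over c hc).mpr h3
  exact ul_eq h4

end Lab

end

end Pool.Agent.Helper40.EL
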