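import Pool.Agent.Helper40.EL.W1

/-! Exact entropy calculus, second layer: adding known informations to a label, pullbacks of labels (functoriality,
chapter KAPPA (1.4)), literally nested families of maximal labels (KAPPA (1.3)). -/

namespace Pool.Agent.Helper40.EL

open Finset Filter Topology Pool.Agent.Helper69.RK Pool.Agent.Helper31.EC

noncomputable section

namespace FLab

variable {F : FSp} (l : FLab F)

/-- adding a partition of the space to a label -/
def add (Y : Setoid F.Ω) : FLab F := ⟨l.T, l.p, l.hn, l.V ⊓ Setoid.comap l.p.π Y⟩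

theorem add_v (Y : Setoid F.Ω) : (l.add Y).v = l.v ⊔ l.p.map (fc Y) := rfl

theorem add_leak_le (Y : Setoid F.Ω) (x : FL F) : (l.add Y).leak x ≤ l.leak x + h (fc Y) x := by
  have h1 : (l.add Y).leak x = I (l.v ⊔ l.p.map (fc Y)) l.p.top (l.p.map x) := rfl
  rw [h1, I_chain]
  have h2 := I_le_h_left (l.p.map (fc Y)) l.p.top (l.v ⊔ l.p.map x)
  have h3 : h (l.p.map (fc Y)) (l.v ⊔ l.p.map x) ≤ h (l.p.map (fc Y)) (l.p.map x) := h_anti le_sup_right
  rw [l.p.h_map] at h3
  have h4 : l.leak x = I l.v l.p.top (l.p.map x) := rfl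
  linarith

theorem add_info_ge (Y : Setoid F.Ω) : l.info ≤ (l.add Y).info := by
  have h1 : (l.add Y).info = I (l.v ⊔ l.p.map (fc Y)) l.p.top ⊥ := rfl
  rw [h1, I_chain]
  have h2 := I_nonneg (l.p.map (fc Y)) l.p.top (l.v ⊔ ⊥)
  have h4 : l.info = I l.v l.p.top ⊥ := rfl
  linarith

/-! ### pullbacks -/

variable {G : FSp} (q : FPj G F)

/-- the space of the pullback of a label along a projection -/
def pbD : FAm G l.T where
  α := F.Ω
  f := q.π
  g := l.p.π
  law := by
    intro a
    have h1 : ms G.μ q.π a = push q.π G.μ a := (push_ind _ _ _).symm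
    have h2 : ms l.T.μ l.p.π a = push l.p.π l.T.μ a := (push_ind _ _ _).symm
    rw [h1, h2, q.law, l.p.law]
  Zr := F.Z
  hZ1 := q.hZ
  hZ2 := l.p.hZ

/-- the pullback of a label along a projection -/
def pb : FLab G where
  T := (l.pbD q).sp
  p := (l.pbD q).p1
  hn := rfl
  V := Setoid.comap (l.pbD q).p2.π l.V

theorem pbD_map (x : FL F) : (l.pbD q).p1.map (q.map x) = (l.pbD q).p2.map (l.p.map x) := by
  induction x using fc_ind with | _ A
  apply le_antisymm
  · apply fc_le
    intro w w' h h' _ e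
    have a : q.π w.1 = l.p.π w.2 := ((l.pbD q).supp w h).1
    have a' : q.π w'.1 = l.p.π w'.2 := ((l.pbD q).supp w' h').1
    have e' : A (l.p.π w.2) (l.p.π w'.2) := e
    show A (q.π w.1) (q.π w'.1)
    rw [a, a']; exact e'
  · apply fc_le
    intro w w' h h' _ e
    have a : q.π w.1 = l.p.π w.2 := ((l.pbD q).supp w h).1
    have a' : q.π w'.1 = l.p.π w'.2 := ((l.pbD q).supp w' h').1
    have e' : A (q.π w.1) (q.π w'.1) := e
    show A (l.p.π w.2) (l.p.π w'.2)
    rw [← a, ← a']; exact e'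

theorem pbD_top : (l.pbD q).p1.map q.top = (l.pbD q).p2.map l.p.top := (l.pbD q).common

/-- FUNCTORIALITY: the leak of a pulled back label -/
theorem pb_leak (y : FL F) : (l.pb q).leak (q.map y) = l.leak y := by
  have h1 : (l.pb q).leak (q.map y) = I ((l.pbD q).p2.map l.v) (l.pbD q).p1.top ((l.pbD q).p1.map (q.map y)) := rfl
  have h2 : I ((l.pbD q).p2.map l.v) (l.pbD q).p1.top ((l.pbD q).p1.map q.top) = 0 := by
    rw [I_comm]
    have h3 : (l.pbD q).p1.top = (l.pbD q).p1.map (fc (⊥ : Setoid G.Ω)) := rfl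
    rw [h3]
    exact (l.pbD q).indep _ _
  have h4 := I_chain_right ((l.pbD q).p2.map l.v) ((l.pbD q).p1.map q.top) (l.pbD q).p1.top
    ((l.pbD q).p1.map (q.map y))
  have h5 : (l.pbD q).p1.map q.top ⊔ (l.pbD q).p1.top = (l.pbD q).p1.top :=
    sup_eq_right.mpr ((l.pbD q).p1.map_le_top _)
  have h6 : (l.pbD q).p1.map q.top ⊔ (l.pbD q).p1.map (q.map y) = (l.pbD q).p1.map q.top :=
    sup_eq_left.mpr ((l.pbD q).p1.map_mono (q.map_le_top y))
  rw [h5, h6, h2, add_zero] at h4
  rw [h1, h4, pbD_top, pbD_map, (l.pbD q).p2.I_map]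
  rfl

theorem pb_info : (l.pb q).info = l.info := by
  rw [← leak_bot, ← leak_bot, ← pb_leak l q ⊥, q.map_bot]

/-- the same label in an extension of its space -/
def extD {T' : FSp} (r : FPj T' l.T) (hn : T'.n = l.T.n) : FLab F := ⟨T', r.comp l.p, hn.trans l.hn, Setoid.comap r.π l.V⟩

theorem extD_leak {T' : FSp} (r : FPj T' l.T) (hn : T'.n = l.T.n) (x : FL F) : (l.extD r hn).leak x = l.leak x := by
  have h1 : (l.extD r hn).leak x = I (r.map l.v) (r.map l.p.top) ((r.comp l.p).map x) := rfl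
  rw [h1, FPj.comp_map, r.I_map]
  rfl

theorem extD_info {T' : FSp} (r : FPj T' l.T) (hn : T'.n = l.T.n) : (l.extD r hn).info = l.info := by
  rw [← leak_bot, ← leak_bot, extD_leak]

end FLab

/-! ### families of labels on one extension -/

/-- a family of labels on one extension of a finite space -/
structure FFam (F : FSp) where
  T : FSp
  p : FPj T F
  hn : T.n = F.n
  V : ℕ → Setoid T.Ω

namespace FFam

variable {F : FSp}

/-- the label of the partition `W` -/
abbrev labW (M : FFam F) (W : Setoid M.T.Ω) : FLab F := ⟨M.T, M.p, M.hn, W⟩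

open Classical in
/-- the meet of the partitions with index `< N` which satisfy `P` -/
def mt {Ω : Type} (V : ℕ → Setoid Ω) (P : ℕ → Prop) : ℕ → Setoid Ω
  | 0 => ⊤
  | N + 1 => if P N then mt V P N ⊓ V N else mt V P N

theorem mt_zero {Ω : Type} (V : ℕ → Setoid Ω) (P : ℕ → Prop) : mt V P 0 = ⊤ := rfl

theorem mt_succ_pos {Ω : Type} (V : ℕ → Setoid Ω) (P : ℕ → Prop) (N : ℕ) (h : P N) :
    mt V P (N + 1) = mt V P N ⊓ V N := if_pos h

theorem mt_succ_neg {Ω : Type} (V : ℕ → Setoid Ω) (P : ℕ → Prop) (N : ℕ) (h : ¬ P N) :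
    mt V P (N + 1) = mt V P N := if_neg h

theorem mt_congr {Ω : Type} (V V' : ℕ → Setoid Ω) (P : ℕ → Prop) (N : ℕ) (h : ∀ i, i < N → V i = V' i) :
    mt V P N = mt V' P N := by
  induction N with
  | zero => rfl
  | succ N ih =>
    have h1 := ih (fun i hi => h i (Nat.lt_succ_of_lt hi))
    by_cases hP : P N
    · rw [mt_succ_pos _ _ _ hP, mt_succ_pos _ _ _ hP, h1, h N (Nat.lt_succ_self N)]
    · rw [mt_succ_neg _ _ _ hP, mt_succ_neg _ _ _ hP, h1]

theorem mt_comap {Ω Ω' : Type} (r : Ω' → Ω) (V : ℕ → Setoid Ω) (P : ℕ → Prop) (N : ℕ) :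
    mt (fun i => Setoid.comap r (V i)) P N = Setoid.comap r (mt V P N) := by
  induction N with
  | zero =>
    ext ω ω'
    exact Iff.rfl
  | succ N ih =>
    by_cases hP : P N
    · rw [mt_succ_pos _ _ _ hP, mt_succ_pos _ _ _ hP, ih]
      ext ω ω'
      exact Iff.rfl
    · rw [mt_succ_neg _ _ _ hP, mt_succ_neg _ _ _ hP, ih]

theorem mt_le {Ω : Type} (V : ℕ → Setoid Ω) {P : ℕ → Prop} {N i : ℕ} (hi : i < N) (h : P i) : mt V P N ≤ V i := by
  induction N with
  | zero => exact absurd hi (Nat.not_lt_zero i)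
  | succ N ih =>
    by_cases hP : P N
    · rw [mt_succ_pos _ _ _ hP]
      rcases Nat.lt_succ_iff_lt_or_eq.mp hi with h1 | h1
      · exact inf_le_left.trans (ih h1)
      · subst h1
        exact inf_le_right
    · rw [mt_succ_neg _ _ _ hP]
      rcases Nat.lt_succ_iff_lt_or_eq.mp hi with h1 | h1
      · exact ih h1
      · subst h1
        exact absurd h hP

theorem mt_anti {Ω : Type} (V : ℕ → Setoid Ω) {P Q : ℕ → Prop} (N : ℕ) (h : ∀ i, P i → Q i) :
    mt V Q N ≤ mt V P N := by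
  induction N with
  | zero => exact le_rfl
  | succ N ih =>
    by_cases hP : P N
    · rw [mt_succ_pos _ _ _ hP, mt_succ_pos _ _ _ (h N hP)]
      exact inf_le_inf_right _ ih
    · rw [mt_succ_neg _ _ _ hP]
      by_cases hQ : Q N
      · rw [mt_succ_pos _ _ _ hQ]
        exact inf_le_left.trans ih
      · rw [mt_succ_neg _ _ _ hQ]
        exact ih

/-- adding one conditionally independent label -/
def snoc (M : FFam F) (κ : FLab F) (N : ℕ) : FFam F where
  T := ((M.labW ⊤).am κ).sp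
  p := ((M.labW ⊤).am κ).p1.comp M.p
  hn := M.hn
  V := fun i => if i < N then Setoid.comap ((M.labW ⊤).am κ).p1.π (M.V i)
    else Setoid.comap ((M.labW ⊤).am κ).p2.π κ.V

theorem snoc_V_lt (M : FFam F) (κ : FLab F) (N : ℕ) {i : ℕ} (h : i < N) :
    (M.snoc κ N).V i = Setoid.comap ((M.labW ⊤).am κ).p1.π (M.V i) := if_pos h

theorem snoc_V_self (M : FFam F) (κ : FLab F) (N : ℕ) :
    (M.snoc κ N).V N = Setoid.comap ((M.labW ⊤).am κ).p2.π κ.V := if_neg (lt_irrefl N)

theorem snoc_leak_old (M : FFam F) (κ : FLab F) (N : ℕ) (W : Setoid M.T.Ω) (x : FL F) :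
    ((M.snoc κ N).labW (Setoid.comap ((M.labW ⊤).am κ).p1.π W)).leak x = (M.labW W).leak x :=
  (M.labW W).extD_leak ((M.labW ⊤).am κ).p1 rfl x

theorem snoc_info_old (M : FFam F) (κ : FLab F) (N : ℕ) (W : Setoid M.T.Ω) :
    ((M.snoc κ N).labW (Setoid.comap ((M.labW ⊤).am κ).p1.π W)).info = (M.labW W).info :=
  (M.labW W).extD_info ((M.labW ⊤).am κ).p1 rfl

theorem snoc_leak_new (M : FFam F) (κ : FLab F) (N : ℕ) (W : Setoid M.T.Ω) (x : FL F) :
    ((M.snoc κ N).labW (Setoid.comap ((M.labW ⊤).am κ).p1.π W ⊓ Setoid.comap ((M.labW ⊤).am κ).p2.π κ.V)).leak x ≤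
      (M.labW W).leak x + κ.leak x := (M.labW W).join_leak κ x

theorem snoc_info_new_left (M : FFam F) (κ : FLab F) (N : ℕ) (W : Setoid M.T.Ω) :
    (M.labW W).info ≤
      ((M.snoc κ N).labW (Setoid.comap ((M.labW ⊤).am κ).p1.π W ⊓ Setoid.comap ((M.labW ⊤).am κ).p2.π κ.V)).info :=
  (M.labW W).join_info_ge_left κ

theorem snoc_info_new_right (M : FFam F) (κ : FLab F) (N : ℕ) (W : Setoid M.T.Ω) :
    κ.info ≤
      ((M.snoc κ N).labW (Setoid.comap ((M.labW ⊤).am κ).p1.π W ⊓ Setoid.comap ((M.labW ⊤).am κ).p2.π κ.V)).info :=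
  (M.labW W).join_info_ge_right κ

/-- the family of conditionally independent labels -/
def bld (κ : ℕ → FLab F) : ℕ → FFam F
  | 0 => ⟨(FLab.triv F).T, (FLab.triv F).p, (FLab.triv F).hn, fun _ => ⊤⟩
  | N + 1 => (bld κ N).snoc (κ N) N

theorem bld_mt_old (κ : ℕ → FLab F) (P : ℕ → Prop) (N : ℕ) :
    mt (bld κ (N + 1)).V P N =
      Setoid.comap (((bld κ N).labW ⊤).am (κ N)).p1.π (mt (bld κ N).V P N) :=
  (mt_congr _ _ P N (fun i hi => snoc_V_lt (bld κ N) (κ N) N hi)).trans
    (mt_comap (((bld κ N).labW ⊤).am (κ N)).p1.π (bld κ N).V P N)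

open Classical in
/-- leaks of the joins of subfamilies -/
theorem bld_leak (κ : ℕ → FLab F) (P : ℕ → Prop) (x : FL F) (N : ℕ) :
    ((bld κ N).labW (mt (bld κ N).V P N)).leak x ≤ ∑ i ∈ range N, if P i then (κ i).leak x else 0 := by
  induction N with
  | zero =>
    apply le_of_eq
    rw [Finset.sum_range_zero]
    exact FLab.triv_leak x
  | succ N ih =>
    rw [Finset.sum_range_succ]
    by_cases hP : P N
    · have e : mt (bld κ (N + 1)).V P (N + 1) =
          Setoid.comap (((bld κ N).labW ⊤).am (κ N)).p1.π (mt (bld κ N).V P N) ⊓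
            Setoid.comap (((bld κ N).labW ⊤).am (κ N)).p2.π (κ N).V := by
        rw [mt_succ_pos _ _ _ hP, bld_mt_old]
        exact congrArg _ (snoc_V_self (bld κ N) (κ N) N)
      rw [e, if_pos hP]
      exact (snoc_leak_new (bld κ N) (κ N) N (mt (bld κ N).V P N) x).trans (by linarith)
    · have e : mt (bld κ (N + 1)).V P (N + 1) =
          Setoid.comap (((bld κ N).labW ⊤).am (κ N)).p1.π (mt (bld κ N).V P N) := by
        rw [mt_succ_neg _ _ _ hP, bld_mt_old]
      rw [e, if_neg hP, add_zero]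
      exact (snoc_leak_old (bld κ N) (κ N) N (mt (bld κ N).V P N) x).le.trans ih

/-- informations of the joins of subfamilies -/
theorem bld_info (κ : ℕ → FLab F) (P : ℕ → Prop) (N i : ℕ) (hi : i < N) (hP : P i) :
    (κ i).info ≤ ((bld κ N).labW (mt (bld κ N).V P N)).info := by
  induction N with
  | zero => exact absurd hi (Nat.not_lt_zero i)
  | succ N ih =>
    by_cases hPN : P N
    · have e : mt (bld κ (N + 1)).V P (N + 1) =
          Setoid.comap (((bld κ N).labW ⊤).am (κ N)).p1.π (mt (bld κ N).V P N) ⊓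
            Setoid.comap (((bld κ N).labW ⊤).am (κ N)).p2.π (κ N).V := by
        rw [mt_succ_pos _ _ _ hPN, bld_mt_old]
        exact congrArg _ (snoc_V_self (bld κ N) (κ N) N)
      rw [e]
      rcases Nat.lt_succ_iff_lt_or_eq.mp hi with h4 | h4
      · exact (ih h4).trans (snoc_info_new_left (bld κ N) (κ N) N (mt (bld κ N).V P N))
      · subst h4
        exact snoc_info_new_right (bld κ i) (κ i) i (mt (bld κ i).V P i)
    · have e : mt (bld κ (N + 1)).V P (N + 1) =
          Setoid.comap (((bld κ N).labW ⊤).am (κ N)).p1.π (mt (bld κ N).V P N) := by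
        rw [mt_succ_neg _ _ _ hPN, bld_mt_old]
      have hlt : i < N := by
        rcases Nat.lt_succ_iff_lt_or_eq.mp hi with h4 | h4
        · exact h4
        · subst h4
          exact absurd hP hPN
      rw [e]
      exact (ih hlt).trans (snoc_info_old (bld κ N) (κ N) N (mt (bld κ N).V P N)).ge

/-- the projections of the family to the spaces of the labels -/
theorem bld_proj (κ : ℕ → FLab F) (N i : ℕ) (hi : i < N) : ∃ r : FPj (bld κ N).T (κ i).T,
    (bld κ N).V i = Setoid.comap r.π (κ i).V ∧ ∀ x, (bld κ N).p.map x = r.map ((κ i).p.map x) := by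
  induction N with
  | zero => exact absurd hi (Nat.not_lt_zero i)
  | succ N ih =>
    rcases Nat.lt_succ_iff_lt_or_eq.mp hi with h4 | h4
    · obtain ⟨r, hr1, hr2⟩ := ih h4
      refine ⟨(((bld κ N).labW ⊤).am (κ N)).p1.comp r, ?_, ?_⟩
      · refine (snoc_V_lt (bld κ N) (κ N) N h4).trans ?_
        rw [hr1]
        rfl
      · intro x
        have h5 : (bld κ (N + 1)).p.map x = (((bld κ N).labW ⊤).am (κ N)).p1.map ((bld κ N).p.map x) :=
          FPj.comp_map _ _ x
        rw [h5, hr2]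
        exact (FPj.comp_map _ _ _).symm
    · subst h4
      refine ⟨(((bld κ i).labW ⊤).am (κ i)).p2, snoc_V_self (bld κ i) (κ i) i, ?_⟩
      intro x
      have h5 : (bld κ (i + 1)).p.map x = (((bld κ i).labW ⊤).am (κ i)).p1.map ((bld κ i).p.map x) :=
        FPj.comp_map _ _ x
      rw [h5]
      exact FLab.am_map _ _ x

end FFam

/-- families of labels of a space on one extension -/
def Fam (S : Sp) : Type 1 := ∀ k, FFam (S.F k)

/-- the labels of a family -/
def Fam.lab {S : Sp} (M : Fam S) (i : ℕ) : Lab S := fun k => (M k).labW ((M k).V i)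

/-- the space of a family -/
def Fam.sp {S : Sp} (M : Fam S) : Sp where
  F := fun k => (M k).T
  lim := by
    have h1 : (fun k => (M k).T.n) = fun k => (S.F k).n := by
      funext k; exact (M k).hn
    rw [h1]; exact S.lim

theorem Fam.lab_sp {S : Sp} (M : Fam S) (i : ℕ) : (M.lab i).sp = M.sp := rfl

open Classical in
/-- D7: LITERALLY NESTED FAMILIES of maximal double Markov labels for countably many first conditions -/
theorem exists_nested {S : Sp} (q : ℕ → ℝ) (A : ℕ → Part S) (B : Part S)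
    (hA : ∀ i j, q i ≤ q j → PLe (A i) (A j)) (hAb : ∀ i, (A i).Bd) (κ : ℕ → Lab S)
    (hκ : ∀ i, (κ i).IsMax (A i) B) :
    ∃ M : Fam S, (∀ i, (M.lab i).IsMax (A i) B) ∧ (∀ i j, q i ≤ q j → ∀ k, (M k).V j ≤ (M k).V i) ∧
      ∀ i, ∀ᶠ k in UF, ∃ r : FPj (M k).T ((κ i) k).T, (M k).V i ≤ Setoid.comap r.π ((κ i) k).V ∧
        ∀ x, (M k).p.map x = r.map (((κ i) k).p.map x) := by
  -- the conditions
  have hG : ∀ N : ℕ, ∀ᶠ k in UF, (∀ i ∈ range N, ∀ j ∈ range N, q i ≤ q j →
      ((κ i) k).leak (A j k) / (S.F k).n ≤ 1 / ((N : ℝ) + 1) ^ 2) ∧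
      (∀ i ∈ range N, ((κ i) k).leak (B k) / (S.F k).n ≤ 1 / ((N : ℝ) + 1) ^ 2) := by
    intro N
    have hpos : (0 : ℝ) < 1 / ((N : ℝ) + 1) ^ 2 := by positivity
    apply Filter.Eventually.and
    · rw [Filter.eventually_all_finset]
      intro i _
      rw [Filter.eventually_all_finset]
      intro j _
      by_cases hij : q i ≤ q j
      · have h1 := ((hκ i).1.mono (hA i j hij) (PLe.refl B)).1
        filter_upwards [h1.eventually (gt_mem_nhds hpos)] with k hk _ using hk.le
      · exact Eventually.of_forall fun k h => absurd h hij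
    · rw [Filter.eventually_all_finset]
      intro i _
      filter_upwards [(hκ i).1.2.eventually (gt_mem_nhds hpos)] with k hk using hk.le
  obtain ⟨J, hJ, hJG⟩ := dia (fun N k => (∀ i ∈ range N, ∀ j ∈ range N, q i ≤ q j →
      ((κ i) k).leak (A j k) / (S.F k).n ≤ 1 / ((N : ℝ) + 1) ^ 2) ∧
      (∀ i ∈ range N, ((κ i) k).leak (B k) / (S.F k).n ≤ 1 / ((N : ℝ) + 1) ^ 2)) hG
  set M : Fam S := fun k =>
    { T := (FFam.bld (fun i => κ i k) (J k)).T
      p := (FFam.bld (fun i => κ i k) (J k)).p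
      hn := (FFam.bld (fun i => κ i k) (J k)).hn
      V := fun j => FFam.mt (FFam.bld (fun i => κ i k) (J k)).V (fun i => q i ≤ q j) (J k) } with hM
  have hlab : ∀ j k, (M.lab j) k = (FFam.bld (fun i => κ i k) (J k)).labW
      (FFam.mt (FFam.bld (fun i => κ i k) (J k)).V (fun i => q i ≤ q j) (J k)) := fun _ _ => rfl
  have h0 : Tendsto (fun k => 1 / ((J k : ℝ) + 1)) UF (𝓝 0) :=
    tendsto_one_div_add_atTop_nhds_zero_nat.comp hJ
  have hsum : ∀ (N : ℕ) (f : ℕ → ℝ) (P : ℕ → Prop), (∀ i ∈ range N, P i → f i ≤ 1 / ((N : ℝ) + 1) ^ 2) →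
      (∑ i ∈ range N, if P i then f i else 0) ≤ 1 / ((N : ℝ) + 1) := by
    intro N f P hf
    have h1 : (∑ i ∈ range N, if P i then f i else 0) ≤ ∑ i ∈ range N, 1 / ((N : ℝ) + 1) ^ 2 := by
      apply Finset.sum_le_sum
      intro i hi
      split_ifs with hP
      · exact hf i hi hP
      · positivity
    refine h1.trans ?_
    rw [Finset.sum_const, card_range, nsmul_eq_mul, mul_one_div, div_le_div_iff₀ (by positivity) (by positivity)]
    nlinarith [(Nat.cast_nonneg N : (0 : ℝ) ≤ N)]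
  have hleakA : ∀ j, ∀ᶠ k in UF, ((M.lab j) k).leak (A j k) / (S.F k).n ≤ 1 / ((J k : ℝ) + 1) := by
    intro j
    filter_upwards [hJG, hJ.eventually (eventually_gt_atTop j)] with k hk hkj
    have h1 := hk (J k) le_rfl
    rw [hlab]
    have h2 := FFam.bld_leak (fun i => κ i k) (fun i => q i ≤ q j) (A j k) (J k)
    have h3 := div_le_div_of_nonneg_right h2 (S.F k).pos.le
    refine h3.trans ?_
    rw [Finset.sum_div]
    have h4 : (∑ i ∈ range (J k), (if q i ≤ q j then ((κ i) k).leak (A j k) else 0) / (S.F k).n) =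
        ∑ i ∈ range (J k), if q i ≤ q j then ((κ i) k).leak (A j k) / (S.F k).n else 0 := by
      apply Finset.sum_congr rfl
      intro i _
      split_ifs
      · rfl
      · rw [zero_div]
    rw [h4]
    apply hsum
    intro i hi hP
    exact h1.1 i hi j (mem_range.mpr hkj) hP
  have hleakB : ∀ j, ∀ᶠ k in UF, ((M.lab j) k).leak (B k) / (S.F k).n ≤ 1 / ((J k : ℝ) + 1) := by
    intro j
    filter_upwards [hJG] with k hk
    have h1 := hk (J k) le_rfl
    rw [hlab]
    have h2 := FFam.bld_leak (fun i => κ i k) (fun i => q i ≤ q j) (B k) (J k)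
    have h3 := div_le_div_of_nonneg_right h2 (S.F k).pos.le
    refine h3.trans ?_
    rw [Finset.sum_div]
    have h4 : (∑ i ∈ range (J k), (if q i ≤ q j then ((κ i) k).leak (B k) else 0) / (S.F k).n) =
        ∑ i ∈ range (J k), if q i ≤ q j then ((κ i) k).leak (B k) / (S.F k).n else 0 := by
      apply Finset.sum_congr rfl
      intro i _
      split_ifs
      · rfl
      · rw [zero_div]
    rw [h4]
    apply hsum
    intro i hi _
    exact h1.2 i hi
  have hDM : ∀ j, (M.lab j).DM (A j) B := by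
    intro j
    constructor
    · refine tendsto_of_tendsto_of_tendsto_of_le_of_le' tendsto_const_nhds h0 ?_ (hleakA j)
      exact Eventually.of_forall fun k => div_nonneg (FLab.leak_nonneg _ _) (S.F k).pos.le
    · refine tendsto_of_tendsto_of_tendsto_of_le_of_le' tendsto_const_nhds h0 ?_ (hleakB j)
      exact Eventually.of_forall fun k => div_nonneg (FLab.leak_nonneg _ _) (S.F k).pos.le
  refine ⟨M, ?_, ?_, ?_⟩
  · intro j
    refine ⟨hDM j, fun l' hl' => ((hκ j).2 l' hl').trans ?_⟩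
    apply ul_mono ((hκ j).1.ub (hAb j)) ((hDM j).ub (hAb j))
    filter_upwards [hJ.eventually (eventually_gt_atTop j)] with k hk
    apply div_le_div_of_nonneg_right _ (S.F k).pos.le
    rw [hlab]
    exact FFam.bld_info (fun i => κ i k) (fun i => q i ≤ q j) (J k) j hk le_rfl
  · intro i j hij k
    exact FFam.mt_anti _ _ (fun i' h => h.trans hij)
  · intro i
    filter_upwards [hJ.eventually (eventually_gt_atTop i)] with k hk
    obtain ⟨r, hr1, hr2⟩ := FFam.bld_proj (fun i => κ i k) (J k) i hk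
    refine ⟨r, ?_, hr2⟩
    rw [← hr1]
    exact FFam.mt_le _ hk le_rfl

end

end Pool.Agent.Helper40.EL
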