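import Pool.Agent.Helper31.EC.AmS

/-! Exact entropy calculus, second layer: the finite entropy lattice (in bits), finite projections, finite amalgams,
diagonal in place. -/

namespace Pool.Agent.Helper40.EL

open Finset Filter Topology Pool.Agent.Helper69.RK Pool.Agent.Helper31.EC

noncomputable section

/-- DIAGONAL IN PLACE -/
theorem dia (G : ℕ → ℕ → Prop) (hG : ∀ i, ∀ᶠ k in UF, G i k) :
    ∃ j : ℕ → ℕ, Tendsto j UF atTop ∧ ∀ᶠ k in UF, ∀ i, i ≤ j k → G i k := by
  classical
  refine ⟨fun k => Nat.findGreatest (fun j => ∀ i, i ≤ j → G i k) k, ?_, ?_⟩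
  · rw [tendsto_atTop]
    intro N
    have h1 : ∀ᶠ k in UF, ∀ i ∈ Finset.range (N + 1), G i k := by
      rw [Filter.eventually_all_finset]
      intro i _
      exact hG i
    filter_upwards [h1, UF_ge N] with k hk hN
    exact Nat.le_findGreatest hN (fun i hi => hk i (Finset.mem_range.mpr (by omega)))
  · filter_upwards [hG 0] with k hk
    exact Nat.findGreatest_spec (P := fun j => ∀ i, i ≤ j → G i k) (Nat.zero_le k)
      (fun i hi => by
        have : i = 0 := by omega
        rw [this]; exact hk)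

/-- the form used for sequences of objects: one object for every index, which satisfies the finitely many
conditions known at this index -/
theorem dia' {X : ℕ → Type*} (x : ℕ → ∀ k, X k) (G : ℕ → ∀ k, X k → Prop) (hG : ∀ i, ∀ᶠ k in UF, G i k (x i k)) :
    ∃ (y : ∀ k, X k) (j : ℕ → ℕ), Tendsto j UF atTop ∧ (∀ k, y k = x (j k) k) ∧
      ∀ᶠ k in UF, G (j k) k (y k) := by
  obtain ⟨j, h1, h2⟩ := dia (fun i k => G i k (x i k)) hG
  refine ⟨fun k => x (j k) k, j, h1, fun _ => rfl, ?_⟩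
  filter_upwards [h2] with k hk using hk (j k) le_rfl

/-! ### the finite entropy lattice -/

/-- partitions of a finite space, ordered by information -/
def FP (F : FSp) : Type := Setoid F.Ω

theorem e_trans (F : FSp) {A B C : Setoid F.Ω} (h1 : F.e A (B ⊓ F.Z) = 0) (h2 : F.e B (C ⊓ F.Z) = 0) :
    F.e A (C ⊓ F.Z) = 0 := by
  apply le_antisymm _ (F.e_nonneg _ _)
  have h3 := F.e_triangle A B (C ⊓ F.Z)
  have h4 : F.e A (B ⊓ (C ⊓ F.Z)) ≤ F.e A (B ⊓ F.Z) := F.e_anti (fun ω ω' _ _ h => ⟨h.1, h.2.2⟩)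
  linarith

instance (F : FSp) : Preorder (FP F) where
  le A B := F.e (show Setoid F.Ω from A) ((show Setoid F.Ω from B) ⊓ F.Z) = 0
  le_refl A := F.e_zero (fun _ _ _ _ h => h.1)
  le_trans A B C h1 h2 := e_trans F h1 h2

/-- the finite entropy lattice -/
def FL (F : FSp) : Type := Antisymmetrization (FP F) (· ≤ ·)

instance (F : FSp) : PartialOrder (FL F) := inferInstanceAs (PartialOrder (Antisymmetrization (FP F) (· ≤ ·)))

/-- class of a partition -/
def fc {F : FSp} (A : Setoid F.Ω) : FL F := toAntisymmetrization (α := FP F) (· ≤ ·) A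

variable {F : FSp}

theorem fc_le_iff {A B : Setoid F.Ω} : fc A ≤ fc B ↔ F.e A (B ⊓ F.Z) = 0 := Iff.rfl

theorem fc_le {A B : Setoid F.Ω} (h : ∀ ω ω', F.μ ω ≠ 0 → F.μ ω' ≠ 0 → F.Z ω ω' → B ω ω' → A ω ω') :
    fc A ≤ fc B := by
  rw [fc_le_iff]
  exact F.e_zero (fun ω ω' a b c => h ω ω' a b c.2 c.1)

theorem fc_mono {A B : Setoid F.Ω} (h : B ≤ A) : fc A ≤ fc B := fc_le (fun _ _ _ _ _ c => h c)

theorem fc_ind {p : FL F → Prop} (h : ∀ A : Setoid F.Ω, p (fc A)) (x : FL F) : p x := Quotient.ind h x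

theorem fc_sup_le {A B C : Setoid F.Ω} (h1 : fc A ≤ fc C) (h2 : fc B ≤ fc C) : fc (A ⊓ B) ≤ fc C := by
  rw [fc_le_iff] at h1 h2 ⊢
  apply le_antisymm _ (F.e_nonneg _ _)
  have := F.e_sup_le A B (C ⊓ F.Z)
  linarith

instance : SemilatticeSup (FL F) where
  sup := Quotient.map₂ (fun A B : Setoid F.Ω => (A ⊓ B : Setoid F.Ω)) (by
    intro A A' hA B B' hB
    have a1 : fc A ≤ fc A' := hA.1
    have a2 : fc A' ≤ fc A := hA.2
    have b1 : fc B ≤ fc B' := hB.1
    have b2 : fc B' ≤ fc B := hB.2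
    constructor
    · exact fc_sup_le (a1.trans (fc_mono inf_le_left)) (b1.trans (fc_mono inf_le_right))
    · exact fc_sup_le (a2.trans (fc_mono inf_le_left)) (b2.trans (fc_mono inf_le_right)))
  le_sup_left x y := by
    induction x using fc_ind
    induction y using fc_ind
    exact fc_mono inf_le_left
  le_sup_right x y := by
    induction x using fc_ind
    induction y using fc_ind
    exact fc_mono inf_le_right
  sup_le x y z h1 h2 := by
    induction x using fc_ind
    induction y using fc_ind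
    induction z using fc_ind
    exact fc_sup_le h1 h2

theorem fc_inf (A B : Setoid F.Ω) : fc (A ⊓ B) = fc A ⊔ fc B := rfl

instance : OrderBot (FL F) where
  bot := fc (⊤ : Setoid F.Ω)
  bot_le x := by
    induction x using fc_ind
    exact fc_mono le_top

theorem fc_top : fc (⊤ : Setoid F.Ω) = ⊥ := rfl

theorem fc_base : fc F.Z = ⊥ := le_antisymm (fc_le (fun _ _ _ _ h _ => h)) bot_le

/-- entropy on the finite lattice, in bits -/
def FH : FL F → ℝ := Quotient.lift (fun A : Setoid F.Ω => F.e A F.Z) (by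
  intro A B hAB
  have h0 : ∀ C D : Setoid F.Ω, fc C ≤ fc D → F.e C F.Z ≤ F.e D F.Z := by
    intro C D hCD
    have h1 := F.e_triangle C D F.Z
    rw [fc_le_iff.mp hCD] at h1
    linarith
  exact le_antisymm (h0 A B hAB.1) (h0 B A hAB.2))

theorem FH_fc (A : Setoid F.Ω) : FH (fc A) = F.e A F.Z := rfl

instance : PM (FL F) where
  H := FH
  H_bot := F.e_zero (fun _ _ _ _ _ => trivial)
  H_mono := by
    intro x y hxy
    induction x using fc_ind with | _ A
    induction y using fc_ind with | _ B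
    have h1 := F.e_triangle A B F.Z
    rw [fc_le_iff.mp hxy] at h1
    rw [FH_fc, FH_fc]
    linarith
  H_sub := by
    intro x y z
    induction x using fc_ind with | _ A
    induction y using fc_ind with | _ B
    induction z using fc_ind with | _ C
    rw [← fc_inf, ← fc_inf, ← fc_inf, ← fc_inf, FH_fc, FH_fc, FH_fc, FH_fc]
    have h1 : F.e (A ⊓ B ⊓ C) F.Z = F.e C F.Z + F.e (A ⊓ B) (C ⊓ F.Z) := by
      rw [inf_comm (A ⊓ B) C, F.e_chain]
    have h2 : F.e (A ⊓ C) F.Z = F.e C F.Z + F.e A (C ⊓ F.Z) := by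
      rw [inf_comm A C, F.e_chain]
    have h3 : F.e (B ⊓ C) F.Z = F.e C F.Z + F.e B (C ⊓ F.Z) := by
      rw [inf_comm B C, F.e_chain]
    have h4 := F.e_sup_le A B (C ⊓ F.Z)
    rw [h1, h2, h3]
    linarith
  H_strict := by
    intro x y hxy
    induction x using fc_ind with | _ A
    induction y using fc_ind with | _ B
    rw [← fc_inf, FH_fc, FH_fc, inf_comm A B, F.e_chain] at hxy
    rw [fc_le_iff]
    exact le_antisymm (by linarith) (F.e_nonneg _ _)

theorem H_fc (A : Setoid F.Ω) : H (fc A) = F.e A F.Z := rfl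

theorem h_fc (A B : Setoid F.Ω) : h (fc A) (fc B) = F.e A (B ⊓ F.Z) := by
  unfold h
  rw [sup_comm, ← fc_inf, H_fc, H_fc, F.e_chain]; ring

/-! ### finite projections -/

/-- a measure preserving projection of finite spaces with base -/
structure FPj (T F : FSp) where
  π : T.Ω → F.Ω
  law : push π T.μ = F.μ
  hZ : ∀ ω ω', T.μ ω ≠ 0 → T.μ ω' ≠ 0 → (T.Z ω ω' ↔ F.Z (π ω) (π ω'))

namespace FPj

variable {T F : FSp} (p : FPj T F)

include p in
theorem supp (ω : T.Ω) (h : T.μ ω ≠ 0) : F.μ (p.π ω) ≠ 0 := by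
  rw [← p.law]
  exact supp_push _ _ T.nn ω h

theorem e_comap (A B : Setoid F.Ω) : T.e (Setoid.comap p.π A) (Setoid.comap p.π B) = F.e A B := by
  have h1 := (Pool.Agent.Helper70.RK.st_E5.1 F.Ω T.Ω _ _ T.μ p.π (Quotient.mk A) (Quotient.mk B) T.nn).2.2
  rw [p.law] at h1
  have h2 : F.e A B = CH F.μ (Quotient.mk A) (Quotient.mk B) := rfl
  rw [h2, h1]
  apply T.e_congr
  · intro ω ω' _ _
    exact (Quotient.eq (r := A)).symm
  · intro ω ω' _ _
    exact (Quotient.eq (r := B)).symm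

theorem e_comap_base (A B : Setoid F.Ω) :
    T.e (Setoid.comap p.π A) (Setoid.comap p.π B ⊓ T.Z) = F.e A (B ⊓ F.Z) := by
  rw [← p.e_comap A (B ⊓ F.Z)]
  apply T.e_congr_right
  intro ω ω' h1 h2
  exact and_congr Iff.rfl (p.hZ ω ω' h1 h2)

/-- the pullback on finite entropy lattices -/
def map : FL F → FL T := Quotient.map (fun A : Setoid F.Ω => (Setoid.comap p.π A : Setoid T.Ω)) (by
  intro A B hAB
  have a1 : F.e A (B ⊓ F.Z) = 0 := hAB.1
  have a2 : F.e B (A ⊓ F.Z) = 0 := hAB.2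
  exact ⟨(p.e_comap_base A B).trans a1, (p.e_comap_base B A).trans a2⟩)

theorem map_fc (A : Setoid F.Ω) : p.map (fc A) = fc (Setoid.comap p.π A) := rfl

theorem map_le {x y : FL F} : p.map x ≤ p.map y ↔ x ≤ y := by
  induction x using fc_ind
  induction y using fc_ind
  rw [p.map_fc, p.map_fc, fc_le_iff, fc_le_iff, p.e_comap_base]

theorem map_mono {x y : FL F} (h : x ≤ y) : p.map x ≤ p.map y := p.map_le.mpr h

theorem map_sup (x y : FL F) : p.map (x ⊔ y) = p.map x ⊔ p.map y := by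
  induction x using fc_ind
  induction y using fc_ind
  rfl

theorem map_bot : p.map ⊥ = ⊥ := by
  rw [← fc_top, p.map_fc]
  exact le_antisymm (fc_mono (fun _ _ _ => trivial)) bot_le

theorem H_map (x : FL F) : H (p.map x) = H x := by
  induction x using fc_ind with | _ A
  rw [p.map_fc, H_fc, H_fc]
  have h1 := p.e_comap_base A ⊤
  rw [top_inf_eq] at h1
  rw [← h1]
  apply T.e_congr_right
  intro ω ω' _ _
  exact ⟨fun h => ⟨trivial, h⟩, fun h => h.2⟩

theorem h_map (x y : FL F) : h (p.map x) (p.map y) = h x y := by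
  unfold h
  rw [← p.map_sup, p.H_map, p.H_map]

theorem I_map (x y z : FL F) : I (p.map x) (p.map y) (p.map z) = I x y z := by
  unfold I
  rw [← p.map_sup, ← p.map_sup, ← p.map_sup, ← p.map_sup, p.H_map, p.H_map, p.H_map, p.H_map]

/-- everything in `F` -/
def top : FL T := fc (Setoid.ker p.π)

theorem map_le_top (x : FL F) : p.map x ≤ p.top := by
  induction x using fc_ind with | _ A
  rw [p.map_fc]
  apply fc_le
  intro ω ω' _ _ _ h
  have h' : p.π ω = p.π ω' := h
  show A (p.π ω) (p.π ω')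
  rw [h']

/-- composition -/
def comp {R T F : FSp} (q : FPj R T) (p : FPj T F) : FPj R F where
  π := fun ω => p.π (q.π ω)
  law := by
    rw [← p.law, ← q.law]
    funext ω
    rw [push_ind, push_ind]
    have h1 : ∀ x : T.Ω, e1_ind (p.π x = ω) * push q.π R.μ x =
        ∑ ω', e1_ind (q.π ω' = x) * (e1_ind (p.π (q.π ω') = ω) * R.μ ω') := by
      intro x
      rw [push_ind, Finset.mul_sum]
      apply Finset.sum_congr rfl
      intro y _
      by_cases hy : q.π y = x
      · rw [hy]; ring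
      · rw [e1_ind_neg hy]; ring
    rw [Finset.sum_congr rfl (fun x _ => h1 x), Finset.sum_comm]
    apply Finset.sum_congr rfl
    intro y _
    rw [Finset.sum_eq_single (q.π y)]
    · rw [e1_ind_pos rfl, one_mul]
    · intro b _ hb
      rw [e1_ind_neg (fun h => hb h.symm), zero_mul]
    · intro h
      exact absurd (Finset.mem_univ _) h
  hZ := by
    intro ω ω' h1 h2
    rw [q.hZ ω ω' h1 h2, p.hZ _ _ (q.supp ω h1) (q.supp ω' h2)]

theorem comp_map {R T F : FSp} (q : FPj R T) (p : FPj T F) (x : FL F) : (q.comp p).map x = q.map (p.map x) := by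
  induction x using fc_ind
  rfl

theorem comp_top {R T F : FSp} (q : FPj R T) (p : FPj T F) : (q.comp p).top = q.map p.top := rfl

theorem comp_top_le {R T F : FSp} (q : FPj R T) (p : FPj T F) : (q.comp p).top ≤ q.top := by
  rw [comp_top]
  exact q.map_le_top _

end FPj

/-! ### finite amalgams over a common variable -/

/-- data of a finite amalgam -/
structure FAm (W F : FSp) where
  α : Type
  f : W.Ω → α
  g : F.Ω → α
  law : ∀ a, ms W.μ f a = ms F.μ g a
  Zr : Setoid α
  hZ1 : ∀ ω ω', W.μ ω ≠ 0 → W.μ ω' ≠ 0 → (W.Z ω ω' ↔ Zr (f ω) (f ω'))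
  hZ2 : ∀ ω ω', F.μ ω ≠ 0 → F.μ ω' ≠ 0 → (F.Z ω ω' ↔ Zr (g ω) (g ω'))

namespace FAm

variable {W F : FSp} (D : FAm W F)

/-- the amalgam -/
def sp : FSp where
  Ω := W.Ω × F.Ω
  ft := inferInstance
  μ := amw W.μ F.μ D.f D.g
  nn := amw_nonneg _ _ _ _ W.nn F.nn
  ms := by
    have h1 := (Pool.Agent.Helper70.RK.st_E5.1 W.Ω (W.Ω × F.Ω) Unit Unit
      (amw W.μ F.μ D.f D.g) Prod.fst (fun _ => ()) (fun _ => ())
      (amw_nonneg _ _ _ _ W.nn F.nn)).2.1
    rw [← h1, amw_push_fst _ _ _ _ D.law W.nn, W.ms]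
  Z := Setoid.comap Prod.fst W.Z
  n := W.n
  pos := W.pos

theorem supp (w : W.Ω × F.Ω) (h : D.sp.μ w ≠ 0) : D.f w.1 = D.g w.2 ∧ W.μ w.1 ≠ 0 ∧ F.μ w.2 ≠ 0 :=
  amw_supp _ _ _ _ w h

/-- the first projection -/
def p1 : FPj D.sp W where
  π := fun w => w.1
  law := amw_push_fst _ _ _ _ D.law W.nn
  hZ := fun _ _ _ _ => Iff.rfl

/-- the second projection -/
def p2 : FPj D.sp F where
  π := fun w => w.2
  law := amw_push_snd _ _ _ _ D.law F.nn
  hZ := fun w w' h h' => by
    obtain ⟨a, b, c⟩ := D.supp w h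
    obtain ⟨a', b', c'⟩ := D.supp w' h'
    rw [D.hZ2 _ _ c c', ← a, ← a']
    exact D.hZ1 _ _ b b'

/-- the common variable is common -/
theorem common : D.p1.map (fc (Setoid.ker D.f)) = D.p2.map (fc (Setoid.ker D.g)) := by
  apply le_antisymm
  · apply fc_le
    intro w w' h h' _ e
    have a := (D.supp w h).1
    have a' := (D.supp w' h').1
    have e' : D.g w.2 = D.g w'.2 := e
    show D.f w.1 = D.f w'.1
    rw [a, a', e']
  · apply fc_le
    intro w w' h h' _ e
    have a := (D.supp w h).1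
    have a' := (D.supp w' h').1
    have e' : D.f w.1 = D.f w'.1 := e
    show D.g w.2 = D.g w'.2
    rw [← a, ← a', e']

/-- conditional independence -/
theorem indep (x : FL W) (y : FL F) : I (D.p1.map x) (D.p2.map y) (D.p1.map (fc (Setoid.ker D.f))) = 0 := by
  induction x using fc_ind with | _ A
  induction y using fc_ind with | _ B
  rw [I_zero_iff_h, D.p1.map_fc, D.p1.map_fc, D.p2.map_fc, ← fc_inf, h_fc, h_fc]
  have e1 : D.sp.e (Setoid.comap D.p1.π A) (Setoid.comap D.p2.π B ⊓ Setoid.comap D.p1.π (Setoid.ker D.f) ⊓ D.sp.Z) =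
      CH (amw W.μ F.μ D.f D.g) (fun w => Quotient.mk A w.1) (fun w => (Quotient.mk B w.2, D.f w.1)) := by
    apply D.sp.e_congr
    · intro w w' _ _
      exact (Quotient.eq (r := A)).symm
    · intro w w' h h'
      obtain ⟨_, b, _⟩ := D.supp w h
      obtain ⟨_, b', _⟩ := D.supp w' h'
      rw [Prod.mk.injEq]
      constructor
      · rintro ⟨⟨c1, c2⟩, _⟩
        exact ⟨Quotient.sound c1, c2⟩
      · rintro ⟨c1, c2⟩
        refine ⟨⟨(Quotient.eq (r := B)).mp c1, c2⟩, ?_⟩
        show W.Z w'.1 w.1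
        rw [D.hZ1 _ _ b' b, c2]
  have e2 : D.sp.e (Setoid.comap D.p1.π A) (Setoid.comap D.p1.π (Setoid.ker D.f) ⊓ D.sp.Z) =
      CH W.μ (Quotient.mk A) D.f := by
    rw [D.p1.e_comap_base]
    apply W.e_congr
    · intro w w' _ _
      exact (Quotient.eq (r := A)).symm
    · intro w w' b b'
      constructor
      · rintro ⟨c, _⟩
        exact c
      · intro c
        refine ⟨c, ?_⟩
        show W.Z w' w
        rw [D.hZ1 _ _ b' b, c]
  rw [e1, e2]
  exact amw_CH _ _ _ _ D.law W.nn F.nn _ _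

end FAm

end

end Pool.Agent.Helper40.EL
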