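import Pool.Agent.Helper40.EL.D0

/-! Exact entropy calculus, second layer: labels, leaks, joins (finite level, in bits), double Markov labels and
their maxima. -/

namespace Pool.Agent.Helper40.EL

open Finset Filter Topology Pool.Agent.Helper69.RK Pool.Agent.Helper31.EC

noncomputable section

/-- leaks are subadditive -/
theorem leak_add {L : Type*} [PM L] {v v' o a : L} (ha : a ≤ o) (hi : I v v' o = 0) :
    I (v ⊔ v') o a ≤ I v o a + I v' o a := by
  rw [I_chain]
  have h1 : I v' o (v ⊔ a) ≤ I v' (v ⊔ o) a := by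
    rw [I_chain_right v' v o a]
    have := I_nonneg v' v a
    linarith
  have h2 : I v' (v ⊔ o) a = I v' o a + I v' v (o ⊔ a) := by
    rw [sup_comm v o, I_chain_right]
  have h3 : I v' v (o ⊔ a) = 0 := by
    rw [sup_eq_left.mpr ha, I_comm, hi]
  linarith

/-- information of a label and leaks -/
theorem info_eq {L : Type*} [PM L] {v o a : L} (ha : a ≤ o) : I v o ⊥ = I v a ⊥ + I v o a := by
  have h1 : I v (a ⊔ o) ⊥ = I v a ⊥ + I v o (a ⊔ ⊥) := I_chain_right v a o ⊥
  rw [sup_eq_right.mpr ha, sup_bot_eq] at h1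
  exact h1

theorem I_self {L : Type*} [PM L] (a c : L) : I a a c = h a c := by
  rw [I_eq, h_zero (le_sup_left : a ≤ a ⊔ c)]; ring

theorem I_le_h_of_le {L : Type*} [PM L] (v : L) {a o c : L} (ha : a ≤ o) : I v a c ≤ I v o c :=
  I_mono_right (ha.trans le_sup_left)

theorem leak_cond {L : Type*} [PM L] {v o a b : L} (hab : a ≤ b) (hb : b ≤ o) : I v o b ≤ I v o a := by
  have h1 : I o v (b ⊔ a) ≤ I o v a := I_cond_le hb
  rw [sup_eq_left.mpr hab] at h1
  rw [I_comm v, I_comm v]
  exact h1

/-! ### finite labels -/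

/-- a label of a finite space: a partition of an extension -/
structure FLab (F : FSp) where
  T : FSp
  p : FPj T F
  hn : T.n = F.n
  V : Setoid T.Ω

namespace FLab

variable {F : FSp} (l l' : FLab F)

/-- the label -/
def v : FL l.T := fc l.V

/-- the information of the label about the space -/
def info : ℝ := I l.v l.p.top ⊥

/-- the information of the label about the space beyond `x` -/
def leak (x : FL F) : ℝ := I l.v l.p.top (l.p.map x)

theorem info_nonneg : 0 ≤ l.info := I_nonneg _ _ _

theorem leak_nonneg (x : FL F) : 0 ≤ l.leak x := I_nonneg _ _ _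

theorem leak_bot : l.leak ⊥ = l.info := by
  unfold leak info
  rw [l.p.map_bot]

theorem leak_anti {x y : FL F} (h : x ≤ y) : l.leak y ≤ l.leak x :=
  leak_cond (l.p.map_mono h) (l.p.map_le_top y)

theorem info_eq_leak (x : FL F) : l.info = I l.v (l.p.map x) ⊥ + l.leak x := info_eq (l.p.map_le_top x)

theorem info_le (x : FL F) : l.info ≤ H x + l.leak x := by
  rw [l.info_eq_leak x]
  have h1 := I_le_h_right l.v (l.p.map x) ⊥
  rw [h_bot, l.p.H_map] at h1
  linarith

/-- leaks for two conditions -/
theorem leak_le_leak (x y : FL F) : l.leak x ≤ l.leak y + h y x := by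
  unfold leak
  have h1 : I l.v l.p.top (l.p.map x) ≤ I l.v (l.p.map y ⊔ l.p.top) (l.p.map x) :=
    I_mono_right (le_sup_right.trans le_sup_left)
  rw [I_chain_right] at h1
  have h2 := I_le_h_right l.v (l.p.map y) (l.p.map x)
  rw [l.p.h_map] at h2
  have h3 : I l.v l.p.top (l.p.map y ⊔ l.p.map x) ≤ I l.v l.p.top (l.p.map y) := by
    apply leak_cond le_sup_left (sup_le (l.p.map_le_top y) (l.p.map_le_top x))
  linarith

/-- two labels, conditionally independent given the space -/
def am : FAm l.T l'.T where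
  α := F.Ω
  f := l.p.π
  g := l'.p.π
  law := by
    intro a
    have h1 : ms l.T.μ l.p.π a = push l.p.π l.T.μ a := (push_ind _ _ _).symm
    have h2 : ms l'.T.μ l'.p.π a = push l'.p.π l'.T.μ a := (push_ind _ _ _).symm
    rw [h1, h2, l.p.law, l'.p.law]
  Zr := F.Z
  hZ1 := l.p.hZ
  hZ2 := l'.p.hZ

theorem am_top : (l.am l').p1.map l.p.top = (l.am l').p2.map l'.p.top := (l.am l').common

theorem am_map (x : FL F) : (l.am l').p1.map (l.p.map x) = (l.am l').p2.map (l'.p.map x) := by
  induction x using fc_ind with | _ A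
  apply le_antisymm
  · apply fc_le
    intro w w' h h' _ e
    have a : l.p.π w.1 = l'.p.π w.2 := ((l.am l').supp w h).1
    have a' : l.p.π w'.1 = l'.p.π w'.2 := ((l.am l').supp w' h').1
    have e' : A (l'.p.π w.2) (l'.p.π w'.2) := e
    show A (l.p.π w.1) (l.p.π w'.1)
    rw [a, a']; exact e'
  · apply fc_le
    intro w w' h h' _ e
    have a : l.p.π w.1 = l'.p.π w.2 := ((l.am l').supp w h).1
    have a' : l.p.π w'.1 = l'.p.π w'.2 := ((l.am l').supp w' h').1
    have e' : A (l.p.π w.1) (l.p.π w'.1) := e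
    show A (l'.p.π w.2) (l'.p.π w'.2)
    rw [← a, ← a']; exact e'

theorem am_indep (x : FL l.T) (y : FL l'.T) :
    I ((l.am l').p1.map x) ((l.am l').p2.map y) ((l.am l').p1.map l.p.top) = 0 := (l.am l').indep x y

/-- the join of two labels -/
def join : FLab F where
  T := (l.am l').sp
  p := (l.am l').p1.comp l.p
  hn := l.hn
  V := Setoid.comap (l.am l').p1.π l.V ⊓ Setoid.comap (l.am l').p2.π l'.V

theorem join_v : (l.join l').v = (l.am l').p1.map l.v ⊔ (l.am l').p2.map l'.v := rfl

theorem join_top : (l.join l').p.top = (l.am l').p1.map l.p.top := rfl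

theorem join_map (x : FL F) : (l.join l').p.map x = (l.am l').p1.map (l.p.map x) := FPj.comp_map _ _ x

/-- JOINS: leaks are subadditive -/
theorem join_leak (x : FL F) : (l.join l').leak x ≤ l.leak x + l'.leak x := by
  have h1 : (l.join l').leak x = I ((l.am l').p1.map l.v ⊔ (l.am l').p2.map l'.v) ((l.am l').p1.map l.p.top)
      ((l.am l').p1.map (l.p.map x)) := by
    unfold leak
    rw [join_map]
    rfl
  have h2 : l.leak x = I ((l.am l').p1.map l.v) ((l.am l').p1.map l.p.top) ((l.am l').p1.map (l.p.map x)) := by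
    unfold leak
    exact ((l.am l').p1.I_map _ _ _).symm
  have h3 : l'.leak x = I ((l.am l').p2.map l'.v) ((l.am l').p1.map l.p.top) ((l.am l').p1.map (l.p.map x)) := by
    unfold leak
    rw [am_top, am_map]
    exact ((l.am l').p2.I_map _ _ _).symm
  rw [h1, h2, h3]
  apply leak_add
  · exact (l.am l').p1.map_mono (l.p.map_le_top x)
  · exact am_indep l l' _ _

/-- the information of the join -/
theorem join_info_def : (l.join l').info =
    I ((l.am l').p1.map l.v ⊔ (l.am l').p2.map l'.v) ((l.am l').p1.map l.p.top) ⊥ := rfl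

theorem join_info : (l.join l').info = l.info + I ((l.am l').p2.map l'.v) ((l.am l').p1.map l.p.top)
    ((l.am l').p1.map l.v) := by
  rw [join_info_def, I_chain, sup_bot_eq]
  have h1 := (l.am l').p1.I_map l.v l.p.top ⊥
  rw [(l.am l').p1.map_bot] at h1
  rw [h1]
  rfl

theorem join_info_ge_left : l.info ≤ (l.join l').info := by
  rw [join_info]
  have := I_nonneg ((l.am l').p2.map l'.v) ((l.am l').p1.map l.p.top) ((l.am l').p1.map l.v)
  linarith

theorem join_info_ge_right : l'.info ≤ (l.join l').info := by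
  rw [join_info_def]
  have h1 := (l.am l').p2.I_map l'.v l'.p.top ⊥
  rw [(l.am l').p2.map_bot, ← am_top] at h1
  have h2 : l'.info = I l'.v l'.p.top ⊥ := rfl
  rw [h2, ← h1]
  exact I_mono_left (le_sup_right.trans le_sup_left)

/-- the trivial label -/
def triv (F : FSp) : FLab F where
  T := F
  p := { π := fun ω => ω
         law := by
          funext ω
          rw [push_ind, Finset.sum_eq_single ω]
          · rw [e1_ind_pos rfl, one_mul]
          · intro b _ hb
            rw [e1_ind_neg hb, zero_mul]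
          · intro h
            exact absurd (Finset.mem_univ _) h
         hZ := fun _ _ _ _ => Iff.rfl }
  hn := rfl
  V := ⊤

theorem triv_info : (triv F).info = 0 := by
  unfold info
  apply I_zero_of_le_left
  exact le_rfl

theorem triv_leak (x : FL F) : (triv F).leak x = 0 := by
  unfold leak
  apply I_zero_of_le_left
  exact bot_le

/-- coarser labels -/
theorem leak_of_coarser (V' : Setoid l.T.Ω) (hV : fc V' ≤ fc l.V) (x : FL F) :
    (FLab.mk l.T l.p l.hn V').leak x ≤ l.leak x := I_mono_left (hV.trans le_sup_left)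

theorem info_of_coarser (V' : Setoid l.T.Ω) (hV : fc V' ≤ fc l.V) :
    (FLab.mk l.T l.p l.hn V').info ≤ l.info := I_mono_left (hV.trans le_sup_left)

end FLab

/-! ### labels of spaces -/

/-- null sequences at the scale of the depth -/
def Nul (S : Sp) (f : ℕ → ℝ) : Prop := Tendsto (fun k => f k / (S.F k).n) UF (𝓝 0)

theorem Nul.add {S : Sp} {f g : ℕ → ℝ} (hf : Nul S f) (hg : Nul S g) : Nul S (fun k => f k + g k) := by
  have h1 := Tendsto.add hf hg
  rw [add_zero] at h1
  exact h1.congr (fun k => by rw [add_div])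

theorem Nul.const_mul {S : Sp} {f : ℕ → ℝ} (c : ℝ) (hf : Nul S f) : Nul S (fun k => c * f k) := by
  have h1 := Tendsto.const_mul c hf
  rw [mul_zero] at h1
  exact h1.congr (fun k => by rw [mul_div_assoc])

theorem Nul.of_le {S : Sp} {f g : ℕ → ℝ} (hg : Nul S g) (h0 : ∀ᶠ k in UF, 0 ≤ f k) (h1 : ∀ᶠ k in UF, f k ≤ g k) :
    Nul S f := by
  refine tendsto_of_tendsto_of_tendsto_of_le_of_le' tendsto_const_nhds hg ?_ ?_
  · filter_upwards [h0] with k hk using div_nonneg hk (S.F k).pos.le
  · filter_upwards [h1] with k hk using div_le_div_of_nonneg_right hk (S.F k).pos.le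

theorem Nul_zero (S : Sp) : Nul S (fun _ => 0) := by
  unfold Nul
  simp only [zero_div]
  exact tendsto_const_nhds

theorem Nul_iff_ul {S : Sp} {f : ℕ → ℝ} (h0 : ∀ᶠ k in UF, 0 ≤ f k) :
    Nul S f ↔ UB (fun k => f k / (S.F k).n) ∧ ul (fun k => f k / (S.F k).n) ≤ 0 := by
  constructor
  · intro hf
    exact ⟨UB_of_tendsto hf, (ul_eq hf).le⟩
  · rintro ⟨h1, h2⟩
    have h3 : 0 ≤ ul (fun k => f k / (S.F k).n) := by
      apply const_le_ul h1
      filter_upwards [h0] with k hk using div_nonneg hk (S.F k).pos.le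
    have h4 := ul_tendsto h1
    rw [le_antisymm h2 h3] at h4
    exact h4

/-- unbounded informations of a space -/
def Part (S : Sp) : Type := ∀ k, FL (S.F k)

/-- an unbounded information whose entropy is bounded after all -/
def Part.Bd {S : Sp} (A : Part S) : Prop := UB (fun k => H (A k) / (S.F k).n)

/-- labels of a space -/
def Lab (S : Sp) : Type 1 := ∀ k, FLab (S.F k)

namespace Lab

variable {S : Sp} (l l' : Lab S)

/-- rate of the information -/
def info : ℝ := ul (fun k => (l k).info / (S.F k).n)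

/-- double Markov labels -/
def DM (A B : Part S) : Prop := Nul S (fun k => (l k).leak (A k)) ∧ Nul S (fun k => (l k).leak (B k))

variable {l l'} {A B : Part S}

theorem DM.symm (h : l.DM A B) : l.DM B A := ⟨h.2, h.1⟩

theorem DM.ub (h : l.DM A B) (hA : A.Bd) : UB (fun k => (l k).info / (S.F k).n) := by
  have h1 : UB (fun k => H (A k) / (S.F k).n + (l k).leak (A k) / (S.F k).n) := hA.add (UB_of_tendsto h.1)
  refine UB.sandwich (UB_const 0) h1 ?_ ?_
  · exact Eventually.of_forall fun k => div_nonneg (l k).info_nonneg (S.F k).pos.le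
  · refine Eventually.of_forall fun k => ?_
    rw [← add_div]
    exact div_le_div_of_nonneg_right ((l k).info_le (A k)) (S.F k).pos.le

/-- D3: the information of a double Markov label is at most `h(A)` -/
theorem DM.info_le (h : l.DM A B) (hA : A.Bd) : l.info ≤ ul (fun k => H (A k) / (S.F k).n) := by
  have h1 : UB (fun k => (l k).leak (A k) / (S.F k).n) := UB_of_tendsto h.1
  have h2 : ul (fun k => (l k).leak (A k) / (S.F k).n) = 0 := ul_eq h.1
  have h3 : ul (fun k => H (A k) / (S.F k).n + (l k).leak (A k) / (S.F k).n) =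
      ul (fun k => H (A k) / (S.F k).n) := by rw [ul_add hA h1, h2, add_zero]
  rw [← h3]
  apply ul_mono (h.ub hA) (hA.add h1)
  refine Eventually.of_forall fun k => ?_
  rw [← add_div]
  exact div_le_div_of_nonneg_right ((l k).info_le (A k)) (S.F k).pos.le

/-- D6: finer conditions -/
theorem DM.mono {A' B' : Part S} (hl : l.DM A B) (hA : Nul S (fun k => h (A k) (A' k)))
    (hB : Nul S (fun k => h (B k) (B' k))) : l.DM A' B' := by
  constructor
  · apply (hl.1.add hA).of_le (Eventually.of_forall fun k => (l k).leak_nonneg _)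
    exact Eventually.of_forall fun k => (l k).leak_le_leak (A' k) (A k)
  · apply (hl.2.add hB).of_le (Eventually.of_forall fun k => (l k).leak_nonneg _)
    exact Eventually.of_forall fun k => (l k).leak_le_leak (B' k) (B k)

theorem DM.mono_left {A' : Part S} (h : l.DM A B) (hA : ∀ k, A k ≤ A' k) : l.DM A' B :=
  ⟨h.1.of_le (Eventually.of_forall fun k => (l k).leak_nonneg _)
    (Eventually.of_forall fun k => (l k).leak_anti (hA k)), h.2⟩

variable (l l')

/-- the join of two labels -/
def join : Lab S := fun k => (l k).join (l' k)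

variable {l l'}

/-- D2: JOINS of double Markov labels -/
theorem DM.join (h : l.DM A B) (h' : l'.DM A B) : (l.join l').DM A B := by
  constructor
  · apply (h.1.add h'.1).of_le (Eventually.of_forall fun k => ((l.join l') k).leak_nonneg _)
    exact Eventually.of_forall fun k => (l k).join_leak (l' k) (A k)
  · apply (h.2.add h'.2).of_le (Eventually.of_forall fun k => ((l.join l') k).leak_nonneg _)
    exact Eventually.of_forall fun k => (l k).join_leak (l' k) (B k)

theorem DM_triv (A B : Part S) : Lab.DM (fun k => FLab.triv (S.F k)) A B := by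
  constructor
  · have h1 : (fun k => (FLab.triv (S.F k)).leak (A k)) = fun _ => 0 := by
      funext k; exact FLab.triv_leak _
    rw [h1]; exact Nul_zero S
  · have h1 : (fun k => (FLab.triv (S.F k)).leak (B k)) = fun _ => 0 := by
      funext k; exact FLab.triv_leak _
    rw [h1]; exact Nul_zero S

variable (l A B)

/-- maximal double Markov labels -/
def IsMax : Prop := l.DM A B ∧ ∀ l' : Lab S, l'.DM A B → l'.info ≤ l.info

variable {l A B}

/-- D5: UNIVERSALITY of a maximal double Markov label: every other one is conditionally independent of the space -/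
theorem IsMax.univ (h : l.IsMax A B) (h' : l'.DM A B) (hA : A.Bd) :
    Nul S (fun k => I (((l k).am (l' k)).p2.map (l' k).v) (((l k).am (l' k)).p1.map (l k).p.top)
      (((l k).am (l' k)).p1.map (l k).v)) := by
  have h1 := h.2 _ (h.1.join h')
  have h2 : (fun k => ((l.join l') k).info / (S.F k).n) = fun k => (l k).info / (S.F k).n +
      I (((l k).am (l' k)).p2.map (l' k).v) (((l k).am (l' k)).p1.map (l k).p.top)
        (((l k).am (l' k)).p1.map (l k).v) / (S.F k).n := by
    funext k
    rw [← add_div]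
    exact congrArg (· / (S.F k).n) ((l k).join_info (l' k))
  have hu1 := (h.1.join h').ub hA
  have hu2 := h.1.ub hA
  have hu3 : UB (fun k => I (((l k).am (l' k)).p2.map (l' k).v) (((l k).am (l' k)).p1.map (l k).p.top)
        (((l k).am (l' k)).p1.map (l k).v) / (S.F k).n) := by
    have h3 := hu1.sub hu2
    have h4 : (fun k => I (((l k).am (l' k)).p2.map (l' k).v) (((l k).am (l' k)).p1.map (l k).p.top)
        (((l k).am (l' k)).p1.map (l k).v) / (S.F k).n) = fun k => ((l.join l') k).info / (S.F k).n -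
        (l k).info / (S.F k).n := by
      funext k
      rw [congrFun h2 k]; ring
    rw [h4]
    exact h3
  rw [Nul_iff_ul (Eventually.of_forall fun k => I_nonneg _ _ _)]
  refine ⟨hu3, ?_⟩
  have h5 : (l.join l').info = l.info + ul (fun k => I (((l k).am (l' k)).p2.map (l' k).v)
      (((l k).am (l' k)).p1.map (l k).p.top) (((l k).am (l' k)).p1.map (l k).v) / (S.F k).n) := by
    unfold Lab.info
    rw [h2, ul_add hu2 hu3]
  linarith

/-- D4: MAXIMAL double Markov labels exist -/
theorem exists_max (A B : Part S) (hA : A.Bd) : ∃ l : Lab S, l.IsMax A B := by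
  set I0 : Set ℝ := {x | ∃ l : Lab S, l.DM A B ∧ x = l.info} with hI0
  have hbd : BddAbove I0 := by
    refine ⟨ul (fun k => H (A k) / (S.F k).n), ?_⟩
    rintro x ⟨l, hl, rfl⟩
    exact hl.info_le hA
  have hne : I0.Nonempty := ⟨_, _, DM_triv A B, rfl⟩
  have h1 : ∀ j : ℕ, ∃ l : Lab S, l.DM A B ∧ sSup I0 - 1 / ((j : ℝ) + 1) < l.info := by
    intro j
    have h2 : sSup I0 - 1 / ((j : ℝ) + 1) < sSup I0 := by
      have : (0 : ℝ) < 1 / ((j : ℝ) + 1) := by positivity
      linarith
    obtain ⟨x, ⟨l, hl, rfl⟩, hx⟩ := exists_lt_of_lt_csSup hne h2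
    exact ⟨l, hl, hx⟩
  choose l hl hi using h1
  have hG : ∀ i, ∀ᶠ k in UF, (l i k).leak (A k) / (S.F k).n ≤ 1 / ((i : ℝ) + 1) ∧
      (l i k).leak (B k) / (S.F k).n ≤ 1 / ((i : ℝ) + 1) ∧
      sSup I0 - 1 / ((i : ℝ) + 1) ≤ (l i k).info / (S.F k).n := by
    intro i
    have h5 : (0 : ℝ) < 1 / ((i : ℝ) + 1) := by positivity
    have h6 := (hl i).1.eventually (gt_mem_nhds h5)
    have h7 := (hl i).2.eventually (gt_mem_nhds h5)
    have h8 := eventually_gt_of_lt_ul ((hl i).ub hA) (hi i)
    filter_upwards [h6, h7, h8] with k a b c using ⟨a.le, b.le, c.le⟩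
  obtain ⟨y, j, hj, hy, hG'⟩ := dia' (X := fun k => FLab (S.F k)) l (fun i k x =>
      x.leak (A k) / (S.F k).n ≤ 1 / ((i : ℝ) + 1) ∧ x.leak (B k) / (S.F k).n ≤ 1 / ((i : ℝ) + 1) ∧
      sSup I0 - 1 / ((i : ℝ) + 1) ≤ x.info / (S.F k).n) hG
  have h0 : Tendsto (fun k => 1 / ((j k : ℝ) + 1)) UF (𝓝 0) :=
    tendsto_one_div_add_atTop_nhds_zero_nat.comp hj
  have hDM : Lab.DM y A B := by
    constructor
    · refine tendsto_of_tendsto_of_tendsto_of_le_of_le' tendsto_const_nhds h0 ?_ ?_
      · exact Eventually.of_forall fun k => div_nonneg ((y k).leak_nonneg _) (S.F k).pos.le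
      · filter_upwards [hG'] with k hk using hk.1
    · refine tendsto_of_tendsto_of_tendsto_of_le_of_le' tendsto_const_nhds h0 ?_ ?_
      · exact Eventually.of_forall fun k => div_nonneg ((y k).leak_nonneg _) (S.F k).pos.le
      · filter_upwards [hG'] with k hk using hk.2.1
  refine ⟨y, hDM, ?_⟩
  intro l' hl'
  have h2 : l'.info ≤ sSup I0 := le_csSup hbd ⟨l', hl', rfl⟩
  refine h2.trans ?_
  have h3 : Tendsto (fun k => sSup I0 - 1 / ((j k : ℝ) + 1)) UF (𝓝 (sSup I0)) := by
    have := h0.const_sub (sSup I0)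
    rwa [sub_zero] at this
  have h4 : Tendsto (fun k => (y k).info / (S.F k).n) UF (𝓝 (Lab.info y)) := ul_tendsto (hDM.ub hA)
  exact le_of_tendsto_of_tendsto h3 h4 (by filter_upwards [hG'] with k hk using hk.2.2)

end Lab

end

end Pool.Agent.Helper40.EL
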