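import Pool.Agent.Helper40.EL.D3

/-! Exact entropy calculus, second layer: resampling of labels, mixing of walks (chapter KAPPA (2.5)). -/

namespace Pool.Agent.Helper40.EL

open Finset Filter Topology Pool.Agent.Helper69.RK Pool.Agent.Helper31.EC

noncomputable section

/-- a partition which represents an element of the finite lattice -/
def frep {F : FSp} (x : FL F) : Setoid F.Ω := ofAntisymmetrization (α := FP F) (· ≤ ·) x

theorem fc_frep {F : FSp} (x : FL F) : fc (frep x) = x := toAntisymmetrization_ofAntisymmetrization _ x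

namespace FLab

variable {F : FSp} (l : FLab F) (x : FL F)

/-- the space of a label and a copy of `F` which agree in `x` (and in the base) -/
def rsD : FAm l.T F where
  α := Quotient (frep x) × Quotient F.Z
  f := fun ω => (Quotient.mk (frep x) (l.p.π ω), Quotient.mk F.Z (l.p.π ω))
  g := fun ω => (Quotient.mk (frep x) ω, Quotient.mk F.Z ω)
  law := by
    intro a
    have h1 := ms_push l.p.π l.T.μ (fun ω => (Quotient.mk (frep x) ω, Quotient.mk F.Z ω)) a
    rw [l.p.law] at h1
    exact h1
  Zr := Setoid.ker Prod.snd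
  hZ1 := by
    intro ω ω' h h'
    rw [l.p.hZ ω ω' h h']
    exact (Quotient.eq (r := F.Z)).symm
  hZ2 := by
    intro ω ω' _ _
    exact (Quotient.eq (r := F.Z)).symm

/-- RESAMPLING: the label attached to a copy of the space, given `x` -/
def rs : FLab F where
  T := (l.rsD x).sp
  p := (l.rsD x).p2
  hn := l.hn
  V := Setoid.comap (l.rsD x).p1.π l.V

theorem rs_v : (l.rs x).v = (l.rsD x).p1.map l.v := rfl

theorem rs_top : (l.rsD x).p2.top = (l.rsD x).p2.map (fc (⊥ : Setoid F.Ω)) := by
  rw [(l.rsD x).p2.map_fc]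
  rfl

theorem rs_ker_g : fc (Setoid.ker (l.rsD x).g) = x := by
  refine Eq.trans ?_ (fc_frep x)
  apply le_antisymm
  · apply fc_le
    intro ω ω' _ _ hZ h
    show (Quotient.mk (frep x) ω, Quotient.mk F.Z ω) = (Quotient.mk (frep x) ω', Quotient.mk F.Z ω')
    rw [Prod.mk.injEq]
    exact ⟨Quotient.sound h, Quotient.sound hZ⟩
  · apply fc_le
    intro ω ω' _ _ _ h
    have h1 : (Quotient.mk (frep x) ω, Quotient.mk F.Z ω) = (Quotient.mk (frep x) ω', Quotient.mk F.Z ω') := h
    rw [Prod.mk.injEq] at h1
    exact (Quotient.eq (r := frep x)).mp h1.1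

theorem rs_ker_f : fc (Setoid.ker (l.rsD x).f) = l.p.map x := by
  have h1 : l.p.map x = l.p.map (fc (frep x)) := by rw [fc_frep]
  rw [h1, l.p.map_fc]
  apply le_antisymm
  · apply fc_le
    intro ω ω' h h' hZ e
    show (Quotient.mk (frep x) (l.p.π ω), Quotient.mk F.Z (l.p.π ω)) =
      (Quotient.mk (frep x) (l.p.π ω'), Quotient.mk F.Z (l.p.π ω'))
    rw [Prod.mk.injEq]
    exact ⟨Quotient.sound e, Quotient.sound ((l.p.hZ ω ω' h h').mp hZ)⟩
  · apply fc_le
    intro ω ω' _ _ _ e
    have h2 : (Quotient.mk (frep x) (l.p.π ω), Quotient.mk F.Z (l.p.π ω)) =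
      (Quotient.mk (frep x) (l.p.π ω'), Quotient.mk F.Z (l.p.π ω')) := e
    rw [Prod.mk.injEq] at h2
    exact (Quotient.eq (r := frep x)).mp h2.1

theorem rs_common : (l.rsD x).p1.map (l.p.map x) = (l.rsD x).p2.map x := by
  have h1 := (l.rsD x).common
  rw [rs_ker_f, rs_ker_g] at h1
  exact h1

theorem rs_indep (y : FL l.T) (z : FL F) :
    I ((l.rsD x).p1.map y) ((l.rsD x).p2.map z) ((l.rsD x).p1.map (l.p.map x)) = 0 := by
  have h1 := (l.rsD x).indep y z
  rw [rs_ker_f] at h1
  exact h1

/-- after resampling given `x` there is no leak at `x` -/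
theorem rs_leak : (l.rs x).leak x = 0 := by
  have h1 : (l.rs x).leak x = I ((l.rsD x).p1.map l.v) (l.rsD x).p2.top ((l.rsD x).p2.map x) := rfl
  rw [h1, rs_top, ← rs_common]
  exact l.rs_indep x _ _

/-- the information after resampling -/
theorem rs_info : (l.rs x).info = l.info - l.leak x := by
  rw [(l.rs x).info_eq_leak x, rs_leak, add_zero, l.info_eq_leak x]
  have h1 : I (l.rs x).v ((l.rs x).p.map x) ⊥ = I l.v (l.p.map x) ⊥ := by
    have h2 : I (l.rs x).v ((l.rs x).p.map x) ⊥ = I ((l.rsD x).p1.map l.v) ((l.rsD x).p2.map x) ⊥ := rfl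
    rw [h2, ← rs_common, ← (l.rsD x).p1.map_bot, (l.rsD x).p1.I_map]
  rw [h1]; ring

end FLab

namespace Lab

variable {S : Sp}

/-- resampling of labels -/
def rs (l : Lab S) (A : Part S) : Lab S := fun k => (l k).rs (A k)

/-- the walk: the label `V` is fixed, the point of the space makes `2 N` steps -/
def walk (A B : Part S) (l : Lab S) : ℕ → Lab S
  | 0 => l
  | N + 1 => ((walk A B l N).rs B).rs A

variable (A B : Part S) (l : Lab S)

theorem walk_leak (N k : ℕ) : ((walk A B l (N + 1)) k).leak (A k) = 0 := FLab.rs_leak _ _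

theorem walk_info (N k : ℕ) : ((walk A B l (N + 1)) k).info ≤
    ((walk A B l N) k).info - ((walk A B l N) k).leak (B k) := by
  have h1 : ((walk A B l (N + 1)) k).info =
      (((walk A B l N) k).rs (B k)).info - (((walk A B l N) k).rs (B k)).leak (A k) := FLab.rs_info _ _
  have h2 := FLab.rs_info ((walk A B l N) k) (B k)
  have h3 := FLab.leak_nonneg (((walk A B l N) k).rs (B k)) (A k)
  rw [h1, h2]
  linarith

theorem walk_info_mono (N k : ℕ) : ((walk A B l (N + 1)) k).info ≤ ((walk A B l N) k).info := by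
  have h1 := walk_info A B l N k
  have h2 := FLab.leak_nonneg ((walk A B l N) k) (B k)
  linarith

theorem walk_info_le (N k : ℕ) : ((walk A B l N) k).info ≤ (l k).info := by
  induction N with
  | zero => exact le_rfl
  | succ N ih => exact (walk_info_mono A B l N k).trans ih

variable {A B l}

theorem walk_UB (hl : UB (fun k => (l k).info / (S.F k).n)) (N : ℕ) :
    UB (fun k => ((walk A B l N) k).info / (S.F k).n) := by
  refine UB.sandwich (UB_const 0) hl ?_ ?_
  · exact Eventually.of_forall fun k => div_nonneg (FLab.info_nonneg _) (S.F k).pos.le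
  · exact Eventually.of_forall fun k => div_le_div_of_nonneg_right (walk_info_le A B l N k) (S.F k).pos.le

theorem walk_anti (hl : UB (fun k => (l k).info / (S.F k).n)) : Antitone (fun N => (walk A B l N).info) := by
  apply antitone_nat_of_succ_le
  intro N
  apply ul_mono (walk_UB hl _) (walk_UB hl _)
  exact Eventually.of_forall fun k => div_le_div_of_nonneg_right (walk_info_mono A B l N k) (S.F k).pos.le

theorem info_nonneg' (hl : UB (fun k => (l k).info / (S.F k).n)) : 0 ≤ l.info :=
  const_le_ul hl (Eventually.of_forall fun k => div_nonneg (FLab.info_nonneg _) (S.F k).pos.le)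

/-- an approximate form of the existence of double Markov labels: only the information matters -/
theorem approx' {A B : Part S} (hA : A.Bd) (l : ℕ → Lab S) (e : ℕ → ℝ) (he : Tendsto e atTop (𝓝 0)) (v : ℝ)
    (h1 : ∀ j, ∀ᶠ k in UF, (l j k).leak (A k) / (S.F k).n ≤ e j)
    (h2 : ∀ j, ∀ᶠ k in UF, (l j k).leak (B k) / (S.F k).n ≤ e j)
    (h3 : ∀ j, ∀ᶠ k in UF, v - e j ≤ (l j k).info / (S.F k).n) : ∃ y : Lab S, y.DM A B ∧ v ≤ y.info := by
  obtain ⟨y, j, hj, hy, hG⟩ := dia' (X := fun k => FLab (S.F k)) l (fun i k x =>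
      x.leak (A k) / (S.F k).n ≤ e i ∧ x.leak (B k) / (S.F k).n ≤ e i ∧ v - e i ≤ x.info / (S.F k).n)
      (fun i => by filter_upwards [h1 i, h2 i, h3 i] with k a b c using ⟨a, b, c⟩)
  have h0 : Tendsto (fun k => e (j k)) UF (𝓝 0) := he.comp hj
  have hDM : Lab.DM y A B := by
    constructor
    · refine tendsto_of_tendsto_of_tendsto_of_le_of_le' tendsto_const_nhds h0 ?_ ?_
      · exact Eventually.of_forall fun k => div_nonneg ((y k).leak_nonneg _) (S.F k).pos.le
      · filter_upwards [hG] with k hk using hk.1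
    · refine tendsto_of_tendsto_of_tendsto_of_le_of_le' tendsto_const_nhds h0 ?_ ?_
      · exact Eventually.of_forall fun k => div_nonneg ((y k).leak_nonneg _) (S.F k).pos.le
      · filter_upwards [hG] with k hk using hk.2.1
  refine ⟨y, hDM, ?_⟩
  have h4 : Tendsto (fun k => v - e (j k)) UF (𝓝 v) := by
    have := h0.const_sub v
    rwa [sub_zero] at this
  exact le_of_tendsto_of_tendsto h4 (ul_tendsto (hDM.ub hA)) (by filter_upwards [hG] with k hk using hk.2.2)

/-- (2.5) MIXING: if all double Markov labels are trivial, then every label loses its information under the walk -/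
theorem mixing (hA : A.Bd) (htr : ∀ y : Lab S, y.DM A B → y.info ≤ 0)
    (hl : UB (fun k => (l k).info / (S.F k).n)) : Tendsto (fun N => (walk A B l N).info) atTop (𝓝 0) := by
  have hanti := walk_anti (A := A) (B := B) hl
  have hnn : ∀ N, 0 ≤ (walk A B l N).info := fun N => info_nonneg' (walk_UB hl N)
  have hbdd : BddBelow (Set.range fun N => (walk A B l N).info) := ⟨0, by rintro x ⟨N, rfl⟩; exact hnn N⟩
  have hlim := tendsto_atTop_ciInf hanti hbdd
  set v := ⨅ N, (walk A B l N).info with hv
  have hv0 : 0 ≤ v := le_ciInf hnn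
  have hvle : ∀ N, v ≤ (walk A B l N).info := fun N => ciInf_le hbdd N
  -- the decrements tend to zero
  have hdec : Tendsto (fun N => (walk A B l N).info - (walk A B l (N + 1)).info) atTop (𝓝 0) := by
    have h1 := hlim.sub (hlim.comp (tendsto_add_atTop_nat 1))
    rw [sub_self] at h1
    exact h1
  set e : ℕ → ℝ := fun j => 2 * (1 / ((j : ℝ) + 1)) with he
  have hepos : ∀ j : ℕ, (0 : ℝ) < 1 / ((j : ℝ) + 1) := fun j => by positivity
  have he0 : Tendsto e atTop (𝓝 0) := by
    have := (tendsto_one_div_add_atTop_nhds_zero_nat (𝕜 := ℝ)).const_mul 2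
    rwa [mul_zero] at this
  have hN : ∀ j : ℕ, ∃ N, (walk A B l (N + 1)).info - (walk A B l (N + 2)).info < 1 / ((j : ℝ) + 1) := by
    intro j
    obtain ⟨N, hN⟩ := ((hdec.comp (tendsto_add_atTop_nat 1)).eventually (gt_mem_nhds (hepos j))).exists
    exact ⟨N, hN⟩
  choose N hN using hN
  have hlB : ∀ j, ∀ᶠ k in UF, ((walk A B l (N j + 1)) k).leak (B k) / (S.F k).n ≤ e j := by
    intro j
    have h1 : ul (fun k => ((walk A B l (N j + 1)) k).info / (S.F k).n - ((walk A B l (N j + 2)) k).info / (S.F k).n) =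
        (walk A B l (N j + 1)).info - (walk A B l (N j + 2)).info := ul_sub (walk_UB hl _) (walk_UB hl _)
    have h2 : ul (fun k => ((walk A B l (N j + 1)) k).info / (S.F k).n -
        ((walk A B l (N j + 2)) k).info / (S.F k).n) < e j := by
      rw [h1]
      have := hN j
      have := hepos j
      show _ < 2 * (1 / ((j : ℝ) + 1))
      linarith
    filter_upwards [eventually_lt_of_ul_lt ((walk_UB hl _).sub (walk_UB hl _)) h2] with k hk
    have h3 := walk_info A B l (N j + 1) k
    have h4 : ((walk A B l (N j + 1)) k).leak (B k) ≤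
        ((walk A B l (N j + 1)) k).info - ((walk A B l (N j + 2)) k).info := by
      have h5 : ((walk A B l (N j + 1 + 1)) k).info = ((walk A B l (N j + 2)) k).info := rfl
      linarith
    have h6 := div_le_div_of_nonneg_right h4 (S.F k).pos.le
    rw [sub_div] at h6
    linarith
  have hlA : ∀ j, ∀ᶠ k in UF, ((walk A B l (N j + 1)) k).leak (A k) / (S.F k).n ≤ e j := by
    intro j
    refine Eventually.of_forall fun k => ?_
    rw [walk_leak, zero_div]
    have := hepos j
    show 0 ≤ 2 * (1 / ((j : ℝ) + 1))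
    linarith
  have hli : ∀ j, ∀ᶠ k in UF, v - e j ≤ ((walk A B l (N j + 1)) k).info / (S.F k).n := by
    intro j
    have h1 : v - e j < (walk A B l (N j + 1)).info := by
      have h2 := hvle (N j + 1)
      have := hepos j
      have h3 : e j = 2 * (1 / ((j : ℝ) + 1)) := rfl
      rw [h3]
      linarith
    filter_upwards [eventually_gt_of_lt_ul (walk_UB hl _) h1] with k hk using hk.le
  obtain ⟨y, hy, hyi⟩ := approx' hA (fun j => walk A B l (N j + 1)) e he0 v hlA hlB hli
  have h9 : v = 0 := le_antisymm (hyi.trans (htr y hy)) hv0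
  rw [h9] at hlim
  exact hlim

end Lab

end

end Pool.Agent.Helper40.EL
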