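import Mathlib

/-! Corner lemma, real analysis part (ns_notes_87 (1.1)): coarse digits are independent of the new information at
almost every level. -/

namespace Pool.Agent.Helper40.EL

open MeasureTheory Filter Set

/-- mean value of the increments of an antitone function -/
theorem K1_int (g : ℝ → ℝ) (hg : Antitone g) (M h : ℝ) (h0 : 0 ≤ h) (hg0 : ∀ c, 0 ≤ g c) (hgM : ∀ c, g c ≤ M) :
    ∫ c in (0:ℝ)..1, (g c - g (c + h)) ≤ M * h := by
  have hi : ∀ a b : ℝ, IntervalIntegrable g volume a b := fun a b => hg.intervalIntegrable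
  have hi' : ∀ a b : ℝ, IntervalIntegrable (fun c => g (c + h)) volume a b := by
    intro a b
    have : Antitone (fun c => g (c + h)) := fun x y hxy => hg (by linarith)
    exact this.intervalIntegrable
  rw [intervalIntegral.integral_sub (hi 0 1) (hi' 0 1), intervalIntegral.integral_comp_add_right]
  have e1 : (∫ c in (0:ℝ)..1, g c) = (∫ c in (0:ℝ)..h, g c) + ∫ c in h..1, g c :=
    (intervalIntegral.integral_add_adjacent_intervals (hi 0 h) (hi h 1)).symm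
  have e2 : (∫ c in (0 + h)..(1 + h), g c) = (∫ c in h..1, g c) + ∫ c in (1:ℝ)..(1 + h), g c := by
    rw [zero_add]
    exact (intervalIntegral.integral_add_adjacent_intervals (hi h 1) (hi 1 (1 + h))).symm
  have e3 : 0 ≤ ∫ c in (1:ℝ)..(1 + h), g c :=
    intervalIntegral.integral_nonneg (by linarith) (fun c _ => hg0 c)
  have e4 : (∫ c in (0:ℝ)..h, g c) ≤ ∫ c in (0:ℝ)..h, M :=
    intervalIntegral.integral_mono_on h0 (hi 0 h) (by simp) (fun c _ => hgM c)
  rw [intervalIntegral.integral_const, smul_eq_mul] at e4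
  rw [e1, e2]
  nlinarith

/-- Markov inequality for the increments -/
theorem K1_meas (g : ℝ → ℝ) (hg : Antitone g) (M h ε : ℝ) (h0 : 0 ≤ h) (hε : 0 < ε) (hg0 : ∀ c, 0 ≤ g c)
    (hgM : ∀ c, g c ≤ M) :
    (volume.restrict (Ioc (0:ℝ) 1)) {c | ε ≤ g c - g (c + h)} ≤ ENNReal.ofReal (M * h / ε) := by
  have hd0 : ∀ c, 0 ≤ g c - g (c + h) := fun c => by
    have := hg (show c ≤ c + h by linarith)
    linarith
  have hA : Antitone (fun c => g (c + h)) := fun x y hxy => hg (by linarith)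
  have hint : IntegrableOn (fun c => g c - g (c + h)) (Ioc (0:ℝ) 1) volume := by
    have h1 : IntervalIntegrable g volume 0 1 := hg.intervalIntegrable
    have h2 : IntervalIntegrable (fun c => g (c + h)) volume 0 1 := hA.intervalIntegrable
    exact ((intervalIntegrable_iff_integrableOn_Ioc_of_le (by norm_num)).1 (h1.sub h2))
  have hmk := mul_meas_ge_le_integral_of_nonneg (μ := volume.restrict (Ioc (0:ℝ) 1))
    (f := fun c => g c - g (c + h)) (Eventually.of_forall hd0) hint ε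
  have hI : ∫ c in Ioc (0:ℝ) 1, (g c - g (c + h)) ≤ M * h := by
    rw [← intervalIntegral.integral_of_le (by norm_num : (0:ℝ) ≤ 1)]
    exact K1_int g hg M h h0 hg0 hgM
  have hfin : (volume.restrict (Ioc (0:ℝ) 1)) {c | ε ≤ g c - g (c + h)} ≠ ⊤ := measure_ne_top _ _
  have h3 : ((volume.restrict (Ioc (0:ℝ) 1)) {c | ε ≤ g c - g (c + h)}).toReal ≤ M * h / ε := by
    rw [le_div_iff₀ hε]
    have : ε * ((volume.restrict (Ioc (0:ℝ) 1)) {c | ε ≤ g c - g (c + h)}).toReal ≤ M * h :=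
      le_trans hmk hI
    linarith
  rw [← ENNReal.ofReal_toReal hfin]
  exact ENNReal.ofReal_le_ofReal h3

/-- (K1) corner lemma, analytic part: `f u c` = entropy of the first `u` digits of the direction given the common
information of the window `c` -/
theorem K1 (m : ℝ) (f : ℝ → ℝ → ℝ) (hf0 : ∀ u c, 0 ≤ f u c) (hfm : ∀ u c, 0 ≤ u → f u c ≤ m * u)
    (ha : ∀ u, Antitone (f u)) :
    ∀ᵐ c ∂(volume.restrict (Ioc (0:ℝ) 1)), ∀ C : ℕ, ∀ᶠ j : ℕ in atTop,
      f (C / 2 ^ j) c - f (C / 2 ^ j) (c + C / 2 ^ j) < (2:ℝ) ^ (-(3 * (j:ℝ) / 2)) := by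
  rw [ae_all_iff]
  intro C
  have hb : ∀ j : ℕ, (volume.restrict (Ioc (0:ℝ) 1))
      {c | (2:ℝ) ^ (-(3 * (j:ℝ) / 2)) ≤ f (C / 2 ^ j) c - f (C / 2 ^ j) (c + C / 2 ^ j)} ≤
      ENNReal.ofReal (m * C ^ 2 * ((2:ℝ) ^ (-(1:ℝ) / 2)) ^ j) := by
    intro j
    have hu : (0:ℝ) ≤ C / 2 ^ j := by positivity
    refine le_trans (K1_meas (f (C / 2 ^ j)) (ha _) (m * (C / 2 ^ j)) (C / 2 ^ j) _ hu (by positivity)
      (hf0 _) (fun c => hfm _ _ hu)) (le_of_eq ?_)
    congr 1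
    have e1 : ((2:ℝ) ^ (-(1:ℝ) / 2)) ^ j = (2:ℝ) ^ (-((j:ℝ) / 2)) := by
      rw [← Real.rpow_natCast, ← Real.rpow_mul (by norm_num)]
      congr 1
      ring
    have e2 : (2:ℝ) ^ j = (2:ℝ) ^ ((j:ℝ)) := (Real.rpow_natCast 2 j).symm
    have e3 : (2:ℝ) ^ (-((j:ℝ) / 2)) * (2:ℝ) ^ (-(3 * (j:ℝ) / 2)) * ((2:ℝ) ^ ((j:ℝ)) * (2:ℝ) ^ ((j:ℝ))) = 1 := by
      rw [← Real.rpow_add (by norm_num), ← Real.rpow_add (by norm_num), ← Real.rpow_add (by norm_num)]
      rw [show -((j:ℝ) / 2) + -(3 * (j:ℝ) / 2) + ((j:ℝ) + (j:ℝ)) = 0 by ring, Real.rpow_zero]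
    rw [e1, e2]
    have p1 : (0:ℝ) < (2:ℝ) ^ ((j:ℝ)) := by positivity
    have p2 : (0:ℝ) < (2:ℝ) ^ (-(3 * (j:ℝ) / 2)) := by positivity
    field_simp
    linear_combination (-(m * (C:ℝ) ^ 2)) * e3
  have hs : (∑' j : ℕ, (volume.restrict (Ioc (0:ℝ) 1))
      {c | (2:ℝ) ^ (-(3 * (j:ℝ) / 2)) ≤ f (C / 2 ^ j) c - f (C / 2 ^ j) (c + C / 2 ^ j)}) ≠ ⊤ := by
    refine ne_top_of_le_ne_top ?_ (ENNReal.tsum_le_tsum hb)
    have hm : 0 ≤ m := by
      have h1 := hf0 1 0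
      have h2 := hfm 1 0 (by norm_num)
      linarith
    have hr : (2:ℝ) ^ (-(1:ℝ) / 2) < 1 := Real.rpow_lt_one_of_one_lt_of_neg (by norm_num) (by norm_num)
    have hsum : Summable (fun j : ℕ => m * C ^ 2 * ((2:ℝ) ^ (-(1:ℝ) / 2)) ^ j) :=
      (summable_geometric_of_lt_one (by positivity) hr).mul_left _
    rw [← ENNReal.ofReal_tsum_of_nonneg (fun j => by positivity) hsum]
    exact ENNReal.ofReal_ne_top
  have hbc := ae_eventually_notMem hs
  filter_upwards [hbc] with c hc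
  filter_upwards [hc] with j hj
  simpa only [Set.mem_ofPred_eq, not_le] using hj

end Pool.Agent.Helper40.EL
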