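import Mathlib

/-! Logarithmic Remez inequality with relative entropy (ns_notes_6b sect. 1 (a)), on a grid of times. -/

namespace Pool.Agent.Helper40.EL

open Finset Real

/-- Gibbs inequality -/
theorem gibbs (N : ℕ) (f φ : ℕ → ℝ) (hf : ∀ j, 0 ≤ f j) (hf1 : ∑ j ∈ range N, f j = 1) (C : ℝ)
    (hC : ∑ j ∈ range N, (2:ℝ) ^ (φ j) ≤ C * N) :
    ∑ j ∈ range N, f j * φ j ≤ ∑ j ∈ range N, f j * logb 2 (f j * N) + logb 2 C := by
  have hN : 0 < N := by
    rcases Nat.eq_zero_or_pos N with h | h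
    · subst h
      simp at hf1
    · exact h
  have hNr : (0:ℝ) < N := by exact_mod_cast hN
  have hC0 : 0 < C := by
    have h1 : 0 < ∑ j ∈ range N, (2:ℝ) ^ (φ j) :=
      Finset.sum_pos (fun j _ => by positivity) (Finset.nonempty_range_iff.2 hN.ne')
    by_contra h
    have : C * N ≤ 0 := mul_nonpos_of_nonpos_of_nonneg (not_lt.1 h) hNr.le
    linarith
  have hl2 : 0 < Real.log 2 := Real.log_pos (by norm_num)
  -- pointwise inequality
  have key : ∀ j ∈ range N, f j * (φ j * Real.log 2 - Real.log (f j * N) - Real.log C) ≤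
      (2:ℝ) ^ (φ j) / (C * N) - f j := by
    intro j _
    rcases (hf j).eq_or_lt with h | h
    · rw [← h]
      simp only [zero_mul, sub_zero]
      positivity
    · have h1 : Real.log ((2:ℝ) ^ (φ j) / (C * N * f j)) = φ j * Real.log 2 - Real.log (f j * N) - Real.log C := by
        rw [Real.log_div (by positivity) (by positivity), Real.log_rpow (by norm_num),
          Real.log_mul (by positivity) (by positivity), Real.log_mul (by positivity) (by positivity),
          Real.log_mul (by positivity) (by positivity)]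
        ring
      have h2 := Real.log_le_sub_one_of_pos (show 0 < (2:ℝ) ^ (φ j) / (C * N * f j) by positivity)
      rw [h1] at h2
      have h3 := mul_le_mul_of_nonneg_left h2 h.le
      refine le_trans h3 (le_of_eq ?_)
      field_simp
  have hs := Finset.sum_le_sum key
  have h4 : ∑ j ∈ range N, ((2:ℝ) ^ (φ j) / (C * N) - f j) ≤ 0 := by
    rw [Finset.sum_sub_distrib, ← Finset.sum_div, hf1]
    have : (∑ j ∈ range N, (2:ℝ) ^ (φ j)) / (C * N) ≤ 1 := by
      rw [div_le_one (by positivity)]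
      exact hC
    linarith
  have h5 : ∑ j ∈ range N, f j * (φ j * Real.log 2 - Real.log (f j * N) - Real.log C) =
      (∑ j ∈ range N, f j * φ j) * Real.log 2 - (∑ j ∈ range N, f j * Real.log (f j * N)) - Real.log C := by
    have e : ∀ j ∈ range N, f j * (φ j * Real.log 2 - Real.log (f j * N) - Real.log C) =
        f j * φ j * Real.log 2 - f j * Real.log (f j * N) - f j * Real.log C := fun j _ => by ring
    rw [Finset.sum_congr rfl e, Finset.sum_sub_distrib, Finset.sum_sub_distrib, ← Finset.sum_mul, ← Finset.sum_mul,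
      hf1, one_mul]
  rw [h5] at hs
  have h6 : (∑ j ∈ range N, f j * logb 2 (f j * N)) = (∑ j ∈ range N, f j * Real.log (f j * N)) / Real.log 2 := by
    rw [Finset.sum_div]
    refine Finset.sum_congr rfl fun j _ => ?_
    rw [Real.logb]
    ring
  rw [h6, Real.logb, ← add_div, le_div_iff₀ hl2]
  linarith

/-- sums of an antitone function of the distance to a point -/
theorem dist_sum (N : ℕ) (g : ℕ → ℝ) (hg : Antitone g) (hg0 : ∀ k, 0 ≤ g k) (y : ℝ) :
    ∑ j ∈ range N, g ⌊|(j:ℝ) - y|⌋₊ ≤ 2 * ∑ k ∈ range N, g k := by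
  classical
  -- m = number of j with j < y
  set m : ℕ := ⌈y⌉₊ with hm
  have h1 : ∑ j ∈ (range N).filter (fun j => m ≤ j), g ⌊|(j:ℝ) - y|⌋₊ ≤ ∑ k ∈ range N, g k := by
    have e : ∀ j ∈ (range N).filter (fun j => m ≤ j), g ⌊|(j:ℝ) - y|⌋₊ ≤ g (j - m) := by
      intro j hj
      rw [mem_filter] at hj
      apply hg
      apply Nat.le_floor
      have hjm : (m:ℝ) ≤ j := by exact_mod_cast hj.2
      have hy : y ≤ m := Nat.le_ceil y
      rw [Nat.cast_sub hj.2]
      have : (j:ℝ) - y ≤ |(j:ℝ) - y| := le_abs_self _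
      linarith
    refine le_trans (Finset.sum_le_sum e) ?_
    rw [← Finset.sum_image (f := g) (g := fun j => j - m) (s := (range N).filter (fun j => m ≤ j))]
    · refine Finset.sum_le_sum_of_subset_of_nonneg ?_ (fun k _ _ => hg0 k)
      intro k hk
      rw [mem_image] at hk
      obtain ⟨j, hj, rfl⟩ := hk
      rw [mem_filter, mem_range] at hj
      rw [mem_range]
      omega
    · intro a ha b hb hab
      simp only [coe_filter, Set.mem_ofPred_eq] at ha hb
      simp only at hab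
      omega
  have h2 : ∑ j ∈ (range N).filter (fun j => ¬ m ≤ j), g ⌊|(j:ℝ) - y|⌋₊ ≤ ∑ k ∈ range N, g k := by
    have e : ∀ j ∈ (range N).filter (fun j => ¬ m ≤ j), g ⌊|(j:ℝ) - y|⌋₊ ≤ g (min m N - 1 - j) := by
      intro j hj
      rw [mem_filter, not_le, mem_range] at hj
      apply hg
      apply Nat.le_floor
      have hy : ((m - 1 : ℕ) : ℝ) ≤ y := by
        have h0 : m ≠ 0 := by omega
        have := (Nat.lt_ceil (n := m - 1) (a := y)).1 (by omega)
        exact this.le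
      have h3 : ((min m N - 1 - j : ℕ) : ℝ) ≤ ((m - 1 : ℕ) : ℝ) - j := by
        have h4 : min m N - 1 - j ≤ m - 1 - j := by omega
        have h5 : ((m - 1 - j : ℕ) : ℝ) = ((m - 1 : ℕ) : ℝ) - j := by
          rw [Nat.cast_sub (by omega)]
        rw [← h5]
        exact_mod_cast h4
      have : -((j:ℝ) - y) ≤ |(j:ℝ) - y| := neg_le_abs _
      linarith
    refine le_trans (Finset.sum_le_sum e) ?_
    rw [← Finset.sum_image (f := g) (g := fun j => min m N - 1 - j) (s := (range N).filter (fun j => ¬ m ≤ j))]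
    · refine Finset.sum_le_sum_of_subset_of_nonneg ?_ (fun k _ _ => hg0 k)
      intro k hk
      rw [mem_image] at hk
      obtain ⟨j, hj, rfl⟩ := hk
      rw [mem_filter, mem_range] at hj
      rw [mem_range]
      omega
    · intro a ha b hb hab
      simp only [coe_filter, Set.mem_ofPred_eq, mem_range] at ha hb
      simp only at hab
      omega
  rw [← Finset.sum_filter_add_sum_filter_not (range N) (fun j => m ≤ j)]
  linarith

theorem sum_inv_sqrt (N : ℕ) : ∑ k ∈ range N, 1 / Real.sqrt (k + 1) ≤ 2 * Real.sqrt N := by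
  induction N with
  | zero => simp
  | succ N ih =>
    rw [Finset.sum_range_succ]
    have h1 : 1 / Real.sqrt ((N:ℝ) + 1) ≤ 2 * (Real.sqrt ((N:ℝ) + 1) - Real.sqrt N) := by
      have hp : 0 < Real.sqrt ((N:ℝ) + 1) := Real.sqrt_pos.2 (by positivity)
      have hq : 0 ≤ Real.sqrt (N:ℝ) := Real.sqrt_nonneg _
      have e1 : Real.sqrt ((N:ℝ) + 1) ^ 2 = N + 1 := Real.sq_sqrt (by positivity)
      have e2 : Real.sqrt (N:ℝ) ^ 2 = N := Real.sq_sqrt (by positivity)
      rw [div_le_iff₀ hp]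
      nlinarith [sq_nonneg (Real.sqrt ((N:ℝ) + 1) - Real.sqrt N)]
    have : ((N + 1 : ℕ) : ℝ) = (N:ℝ) + 1 := by push_cast; ring
    rw [this]
    linarith

/-- mean over the grid of the truncated inverse square root of the distance to a point -/
theorem root_sum (n : ℕ) (y : ℝ) (X : ℕ → ℝ) (h1 : ∀ j, X j ≤ (2:ℝ) ^ n)
    (h2 : ∀ j : ℕ, (1:ℝ) ≤ |(j:ℝ) - y| → X j ≤ Real.sqrt (3 * 2 ^ n / |(j:ℝ) - y|)) :
    ∑ j ∈ range (2 ^ n), X j ≤ 12 * 2 ^ n := by
  set N : ℕ := 2 ^ n with hN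
  have hNr : (N:ℝ) = 2 ^ n := by rw [hN]; push_cast; ring
  set g : ℕ → ℝ := fun k => if k = 0 then (2:ℝ) ^ n * 2 else Real.sqrt (3 * 2 ^ n / k) with hg
  have hNone : (1:ℝ) ≤ 2 ^ n := one_le_pow₀ (by norm_num)
  have hanti : Antitone g := by
    refine antitone_nat_of_succ_le fun k => ?_
    simp only [hg]
    rw [if_neg (Nat.succ_ne_zero k)]
    by_cases h0 : k = 0
    · rw [if_pos h0, h0]
      rw [Real.sqrt_le_iff]
      constructor
      · positivity
      · simp only [zero_add, Nat.cast_one, div_one]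
        nlinarith
    · rw [if_neg h0]
      apply Real.sqrt_le_sqrt
      have : (0:ℝ) < k := by exact_mod_cast Nat.pos_of_ne_zero h0
      apply div_le_div_of_nonneg_left (by positivity) this
      push_cast
      linarith
  have hg0 : ∀ k, 0 ≤ g k := fun k => by
    simp only [hg]
    split_ifs
    · positivity
    · exact Real.sqrt_nonneg _
  have hX : ∀ j ∈ range N, X j ≤ g ⌊|(j:ℝ) - y|⌋₊ := by
    intro j _
    simp only [hg]
    split_ifs with h
    · have := h1 j
      have h3 : (2:ℝ) ^ n ≤ 2 ^ n * 2 := by linarith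
      linarith
    · have h3 : (1:ℝ) ≤ |(j:ℝ) - y| := by
        by_contra hc
        apply h
        rw [Nat.floor_eq_zero]
        exact not_le.1 hc
      refine le_trans (h2 j h3) (Real.sqrt_le_sqrt ?_)
      have h4 : ((⌊|(j:ℝ) - y|⌋₊ : ℕ) : ℝ) ≤ |(j:ℝ) - y| := Nat.floor_le (abs_nonneg _)
      have h5 : (0:ℝ) < (⌊|(j:ℝ) - y|⌋₊ : ℕ) := by exact_mod_cast Nat.pos_of_ne_zero h
      exact div_le_div_of_nonneg_left (by positivity) h5 h4
  refine le_trans (Finset.sum_le_sum hX) (le_trans (dist_sum N g hanti hg0 y) ?_)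
  have hsum : ∑ k ∈ range N, g k ≤ 2 ^ n * 2 + Real.sqrt (3 * 2 ^ n) * (2 * Real.sqrt N) := by
    have hNpos : N = (N - 1) + 1 := by
      have : 0 < N := by rw [hN]; positivity
      omega
    rw [hNpos, Finset.sum_range_succ']
    have e1 : g 0 = 2 ^ n * 2 := by simp [hg]
    have e2 : ∀ k ∈ range (N - 1), g (k + 1) = Real.sqrt (3 * 2 ^ n) * (1 / Real.sqrt (k + 1)) := by
      intro k _
      simp only [hg]
      rw [if_neg (Nat.succ_ne_zero k)]
      push_cast
      rw [Real.sqrt_div (by positivity)]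
      ring
    rw [e1, Finset.sum_congr rfl e2, ← Finset.mul_sum]
    have h6 := sum_inv_sqrt (N - 1)
    have h7 : Real.sqrt ((N - 1 : ℕ) : ℝ) ≤ Real.sqrt ((N - 1 + 1 : ℕ) : ℝ) := by
      apply Real.sqrt_le_sqrt
      push_cast
      linarith
    have h8 : 0 ≤ Real.sqrt (3 * 2 ^ n) := Real.sqrt_nonneg _
    have h9 : Real.sqrt (3 * 2 ^ n) * ∑ i ∈ range (N - 1), 1 / Real.sqrt (i + 1) ≤
        Real.sqrt (3 * 2 ^ n) * (2 * Real.sqrt ((N - 1 + 1 : ℕ) : ℝ)) :=
      mul_le_mul_of_nonneg_left (by linarith) h8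
    linarith
  have h10 : Real.sqrt (3 * 2 ^ n) * (2 * Real.sqrt N) = 2 * Real.sqrt 3 * 2 ^ n := by
    rw [hNr, Real.sqrt_mul (by norm_num)]
    have := Real.mul_self_sqrt (show (0:ℝ) ≤ 2 ^ n by positivity)
    linear_combination (2 * Real.sqrt 3) * this
  have h11 : Real.sqrt 3 ≤ 1.75 := by
    rw [Real.sqrt_le_iff]
    norm_num
  rw [h10] at hsum
  have h12 : (0:ℝ) < 2 ^ n := by positivity
  nlinarith

/-- truncated inverse square root of the relative distance of a grid point to a root -/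
noncomputable def rt (n : ℕ) (z : ℂ) (j : ℕ) : ℝ :=
  if ‖((j:ℝ) / 2 ^ n : ℂ) - z‖ = 0 then (2:ℝ) ^ n
  else min (Real.sqrt (max ‖z‖ ‖1 - z‖ / ‖((j:ℝ) / 2 ^ n : ℂ) - z‖)) ((2:ℝ) ^ n)

/-- one root: mean over the grid of the truncated inverse square root of the relative distance to a root -/
theorem one_root (n : ℕ) (z : ℂ) : ∑ j ∈ range (2 ^ n), rt n z j ≤ 14 * 2 ^ n := by
  have hpos : (0:ℝ) < 2 ^ n := by positivity
  have h1n : (1:ℝ) ≤ 2 ^ n := one_le_pow₀ (by norm_num)
  by_cases hz : 2 ≤ ‖z‖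
  · have h1 : ∀ j ∈ range (2 ^ n), rt n z j ≤ 2 := by
      intro j hj
      have hj1 : ‖((j:ℝ) / 2 ^ n : ℂ)‖ ≤ 1 := by
        rw [norm_div, norm_pow]
        simp only [Complex.ofReal_natCast, RCLike.norm_natCast, RCLike.norm_ofNat]
        rw [div_le_one hpos]
        rw [mem_range] at hj
        exact_mod_cast hj.le
      have h2 : ‖z‖ - 1 ≤ ‖((j:ℝ) / 2 ^ n : ℂ) - z‖ := by
        have := norm_sub_norm_le z ((j:ℝ) / 2 ^ n : ℂ)
        rw [norm_sub_rev] at this
        linarith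
      have h4 : 0 < ‖((j:ℝ) / 2 ^ n : ℂ) - z‖ := by linarith
      rw [rt, if_neg h4.ne']
      refine le_trans (min_le_left _ _) ?_
      rw [Real.sqrt_le_iff]
      refine ⟨by norm_num, ?_⟩
      have h3 : max ‖z‖ ‖1 - z‖ ≤ ‖z‖ + 1 := by
        apply max_le
        · linarith
        · have := norm_sub_le (1:ℂ) z
          rw [norm_one] at this
          linarith
      rw [div_le_iff₀ h4]
      nlinarith
    refine le_trans (Finset.sum_le_sum h1) ?_
    rw [Finset.sum_const, card_range, nsmul_eq_mul]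
    push_cast
    linarith
  · rw [not_le] at hz
    have hS : max ‖z‖ ‖1 - z‖ ≤ 3 := by
      apply max_le
      · linarith
      · have := norm_sub_le (1:ℂ) z
        rw [norm_one] at this
        linarith
    have h := root_sum n (2 ^ n * z.re) (rt n z) ?_ ?_
    · refine le_trans h ?_
      nlinarith
    · intro j
      rw [rt]
      split_ifs
      · exact le_rfl
      · exact min_le_right _ _
    · intro j hj
      have h1 : |(j:ℝ) - 2 ^ n * z.re| / 2 ^ n ≤ ‖((j:ℝ) / 2 ^ n : ℂ) - z‖ := by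
        have h2 := Complex.abs_re_le_norm (((j:ℝ) / 2 ^ n : ℂ) - z)
        have h3 : (((j:ℝ) / 2 ^ n : ℂ) - z).re = ((j:ℝ) - 2 ^ n * z.re) / 2 ^ n := by
          have h4 : (((j:ℝ) / 2 ^ n : ℂ)) = (((j:ℝ) / 2 ^ n : ℝ) : ℂ) := by push_cast; ring
          rw [Complex.sub_re, h4, Complex.ofReal_re]
          field_simp
        rw [h3, abs_div, abs_of_pos hpos] at h2
        exact h2
      have h5 : 0 < |(j:ℝ) - 2 ^ n * z.re| / 2 ^ n := by positivity
      rw [rt, if_neg (lt_of_lt_of_le h5 h1).ne']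
      refine le_trans (min_le_left _ _) (Real.sqrt_le_sqrt ?_)
      calc max ‖z‖ ‖1 - z‖ / ‖((j:ℝ) / 2 ^ n : ℂ) - z‖ ≤ 3 / (|(j:ℝ) - 2 ^ n * z.re| / 2 ^ n) :=
            div_le_div₀ (by norm_num) hS h5 h1
        _ = 3 * 2 ^ n / |(j:ℝ) - 2 ^ n * z.re| := by field_simp

/-- factorisation of a real polynomial over the complex numbers -/
theorem factor (q : Polynomial ℝ) (hq0 : q ≠ 0) :
    ∃ (L : ℕ) (z : Fin L → ℂ) (c : ℝ), L = q.natDegree ∧ 0 < c ∧
      ∀ t : ℝ, |q.eval t| = c * ∏ i, ‖(t:ℂ) - z i‖ := by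
  classical
  set p : Polynomial ℂ := q.map (algebraMap ℝ ℂ) with hp
  have hp0 : p ≠ 0 := (Polynomial.map_ne_zero_iff (algebraMap ℝ ℂ).injective).2 hq0
  have hsp : p.Splits := IsAlgClosed.splits p
  have hcard : Multiset.card p.roots = p.natDegree := (Polynomial.splits_iff_card_roots.1 hsp)
  have hdeg : p.natDegree = q.natDegree := Polynomial.natDegree_map _
  set l : List ℂ := p.roots.toList with hl
  have hlen : l.length = q.natDegree := by
    rw [hl, Multiset.length_toList, hcard, hdeg]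
  refine ⟨l.length, fun i => l.get i, ‖p.leadingCoeff‖, hlen, norm_pos_iff.2 (Polynomial.leadingCoeff_ne_zero.2 hp0), ?_⟩
  intro t
  have h1 : p.eval (t:ℂ) = ((q.eval t : ℝ) : ℂ) := by
    rw [hp]
    exact (Polynomial.eval_map_algebraMap q (t:ℂ)).trans (by
      have := Polynomial.aeval_algebraMap_apply ℂ t q
      simpa using this)
  have h2 : p.eval (t:ℂ) = p.leadingCoeff * (p.roots.map (fun a => (t:ℂ) - a)).prod :=
    hsp.eval_eq_prod_roots (t:ℂ)
  have h3 : (p.roots.map (fun a => (t:ℂ) - a)).prod = ∏ i : Fin l.length, ((t:ℂ) - l.get i) := by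
    have h4 : p.roots = (l : Multiset ℂ) := (Multiset.coe_toList _).symm
    rw [h4, Multiset.map_coe, Multiset.prod_coe]
    rw [← List.prod_ofFn]
    congr 1
    apply List.ext_get
    · simp
    · intro k hk1 hk2
      simp
  have h5 : |q.eval t| = ‖p.eval (t:ℂ)‖ := by
    rw [h1, Complex.norm_real, Real.norm_eq_abs]
  rw [h5, h2, norm_mul, h3, norm_prod]

/-- (R1) logarithmic Remez inequality: `f` a probability on the grid of `2 ^ n` times -/
theorem R1 (n D : ℕ) (hD : 1 ≤ D) (q : Polynomial ℝ) (hq : q.natDegree ≤ D) (hq0 : q ≠ 0) (M s : ℝ) (hM : 0 < M)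
    (hs0 : 0 ≤ s) (hs1 : s ≤ 1) (hMs : M ≤ |q.eval s|) (f : ℕ → ℝ) (hf : ∀ j, 0 ≤ f j)
    (hf1 : ∑ j ∈ range (2 ^ n), f j = 1) (ρ : ℝ) (hρ : ρ ≤ 2) :
    ∑ j ∈ range (2 ^ n), f j * (-logb 2 (max (|q.eval ((j:ℝ) / 2 ^ n)| / M) ((2:ℝ) ^ (-(ρ * n))))) ≤
      2 * D * (∑ j ∈ range (2 ^ n), f j * logb 2 (f j * 2 ^ n) + 4) := by
  classical
  obtain ⟨L, z, c, hL, hc, hfac⟩ := factor q hq0
  have hDr : (0:ℝ) < D := by exact_mod_cast hD
  have hLD : (L:ℝ) ≤ D := by
    rw [hL]
    exact_mod_cast hq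
  set S : Fin L → ℝ := fun i => max ‖z i‖ ‖1 - z i‖ with hS
  have hSpos : ∀ i, 0 < S i := by
    intro i
    have h1 : (1:ℝ) ≤ ‖z i‖ + ‖1 - z i‖ := by
      have := norm_add_le (z i) (1 - z i)
      simpa using this
    have h2 : ‖z i‖ ≤ S i := le_max_left _ _
    have h3 : ‖1 - z i‖ ≤ S i := le_max_right _ _
    linarith
  have hdist : ∀ (i : Fin L) (t : ℝ), 0 ≤ t → t ≤ 1 → ‖(t:ℂ) - z i‖ ≤ S i := by
    intro i t ht0 ht1
    have e : (t:ℂ) - z i = ((1 - t : ℝ) : ℂ) * (-z i) + (t:ℂ) * (1 - z i) := by push_cast; ring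
    rw [e]
    refine le_trans (norm_add_le _ _) ?_
    rw [norm_mul, norm_mul, Complex.norm_real, Complex.norm_real, norm_neg, Real.norm_eq_abs, Real.norm_eq_abs,
      abs_of_nonneg ht0, abs_of_nonneg (by linarith : (0:ℝ) ≤ 1 - t)]
    have h2 : ‖z i‖ ≤ S i := le_max_left _ _
    have h3 : ‖1 - z i‖ ≤ S i := le_max_right _ _
    nlinarith
  have hMc : M ≤ c * ∏ i, S i := by
    refine le_trans hMs ?_
    rw [hfac s]
    exact mul_le_mul_of_nonneg_left (Finset.prod_le_prod (fun i _ => norm_nonneg _) (fun i _ => hdist i s hs0 hs1)) hc.le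
  have hcast : ∀ j : ℕ, ((((j:ℝ) / 2 ^ n : ℝ)) : ℂ) = ((j:ℝ) / 2 ^ n : ℂ) := fun j => by push_cast; ring
  have h2n : (1:ℝ) ≤ 2 ^ n := one_le_pow₀ (by norm_num)
  set φ : ℕ → ℝ := fun j =>
    1 / (2 * D) * (-logb 2 (max (|q.eval ((j:ℝ) / 2 ^ n)| / M) ((2:ℝ) ^ (-(ρ * n))))) with hφ
  have hpt : ∀ j ∈ range (2 ^ n), (2:ℝ) ^ (φ j) ≤ (1 / D) * ∑ i, rt n (z i) j + 1 := by
    intro j hj
    rw [mem_range] at hj
    have ht0 : (0:ℝ) ≤ (j:ℝ) / 2 ^ n := by positivity
    have ht1 : (j:ℝ) / 2 ^ n ≤ 1 := by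
      rw [div_le_one (by positivity)]
      exact_mod_cast hj.le
    set w : ℝ := max (|q.eval ((j:ℝ) / 2 ^ n)| / M) ((2:ℝ) ^ (-(ρ * n))) with hw
    have hwpos : 0 < w := lt_of_lt_of_le (by positivity) (le_max_right _ _)
    have e1 : (2:ℝ) ^ (φ j) = w ^ (-(1 / (2 * (D:ℝ)))) := by
      simp only [hφ]
      rw [← hw]
      rw [show 1 / (2 * (D:ℝ)) * -logb 2 w = logb 2 w * (-(1 / (2 * (D:ℝ)))) by ring, Real.rpow_mul (by norm_num),
        Real.rpow_logb (by norm_num) (by norm_num) hwpos]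
    have hY1 : ∀ i, 1 ≤ rt n (z i) j := by
      intro i
      rw [rt]
      split_ifs with h0
      · exact h2n
      · have hp : 0 < ‖((j:ℝ) / 2 ^ n : ℂ) - z i‖ := lt_of_le_of_ne (norm_nonneg _) (Ne.symm h0)
        apply le_min
        · rw [Real.one_le_sqrt, le_div_iff₀ hp, one_mul, ← hcast]
          exact hdist i _ ht0 ht1
        · exact h2n
    have hY0 : ∀ i, 0 < rt n (z i) j := fun i => lt_of_lt_of_le one_pos (hY1 i)
    have hprod : w ^ (-(1 / (2 * (D:ℝ)))) ≤ ∏ i, (rt n (z i) j) ^ (1 / (D:ℝ)) := by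
      by_cases hA : ∃ i, rt n (z i) j = 2 ^ n
      · obtain ⟨i0, hi0⟩ := hA
        have h1 : w ^ (-(1 / (2 * (D:ℝ)))) ≤ ((2:ℝ) ^ (-(ρ * n))) ^ (-(1 / (2 * (D:ℝ)))) := by
          apply Real.rpow_le_rpow_of_nonpos (by positivity) (le_max_right _ _)
          have : 0 < 1 / (2 * (D:ℝ)) := by positivity
          linarith
        have h2 : ((2:ℝ) ^ (-(ρ * n))) ^ (-(1 / (2 * (D:ℝ)))) ≤ ((2:ℝ) ^ n) ^ (1 / (D:ℝ)) := by
          rw [← Real.rpow_mul (by norm_num), ← Real.rpow_natCast, ← Real.rpow_mul (by norm_num)]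
          apply Real.rpow_le_rpow_of_exponent_le (by norm_num)
          have hn0 : (0:ℝ) ≤ n := by positivity
          have : -(ρ * n) * -(1 / (2 * (D:ℝ))) = (ρ * n / 2) * (1 / D) := by field_simp
          rw [this]
          apply mul_le_mul_of_nonneg_right _ (by positivity)
          nlinarith
        have h3 : ((2:ℝ) ^ n) ^ (1 / (D:ℝ)) ≤ ∏ i, (rt n (z i) j) ^ (1 / (D:ℝ)) := by
          rw [← hi0]
          rw [← Finset.mul_prod_erase univ _ (mem_univ i0)]
          have h4 : (1:ℝ) ≤ ∏ i ∈ univ.erase i0, (rt n (z i) j) ^ (1 / (D:ℝ)) := by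
            rw [← Finset.prod_const_one (s := univ.erase i0)]
            exact Finset.prod_le_prod (fun _ _ => zero_le_one) (fun i _ => Real.one_le_rpow (hY1 i) (by positivity))
          have h5 : 0 ≤ (rt n (z i0) j) ^ (1 / (D:ℝ)) := Real.rpow_nonneg (hY0 i0).le _
          nlinarith
        exact le_trans h1 (le_trans h2 h3)
      · push Not at hA
        have hd : ∀ i, 0 < ‖((j:ℝ) / 2 ^ n : ℂ) - z i‖ := by
          intro i
          refine lt_of_le_of_ne (norm_nonneg _) (Ne.symm fun h0 => hA i ?_)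
          rw [rt, if_pos h0]
        have hYe : ∀ i, rt n (z i) j = Real.sqrt (S i / ‖((j:ℝ) / 2 ^ n : ℂ) - z i‖) := by
          intro i
          have h := hA i
          rw [rt, if_neg (hd i).ne'] at h ⊢
          rw [min_eq_left]
          by_contra hc
          rw [not_le] at hc
          exact h (min_eq_right hc.le)
        have hq1 : ∏ i, (‖((j:ℝ) / 2 ^ n : ℂ) - z i‖ / S i) ≤ w := by
          refine le_trans ?_ (le_max_left _ _)
          rw [le_div_iff₀ hM, hfac, Finset.prod_div_distrib, hcast]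
          have hSp : 0 < ∏ i, S i := Finset.prod_pos (fun i _ => hSpos i)
          have hdp : 0 < ∏ i, ‖((j:ℝ) / 2 ^ n : ℂ) - z i‖ := Finset.prod_pos (fun i _ => hd i)
          rw [div_mul_eq_mul_div, div_le_iff₀ hSp]
          nlinarith
        have hq2 : 0 < ∏ i, (‖((j:ℝ) / 2 ^ n : ℂ) - z i‖ / S i) :=
          Finset.prod_pos (fun i _ => div_pos (hd i) (hSpos i))
        have h1 : w ^ (-(1 / (2 * (D:ℝ)))) ≤ (∏ i, (‖((j:ℝ) / 2 ^ n : ℂ) - z i‖ / S i)) ^ (-(1 / (2 * (D:ℝ)))) := by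
          apply Real.rpow_le_rpow_of_nonpos hq2 hq1
          have : 0 < 1 / (2 * (D:ℝ)) := by positivity
          linarith
        refine le_trans h1 (le_of_eq ?_)
        rw [← Real.finsetProd_rpow _ _ (fun i _ => (div_pos (hd i) (hSpos i)).le)]
        refine Finset.prod_congr rfl fun i _ => ?_
        rw [hYe i, Real.sqrt_eq_rpow, ← Real.rpow_mul (div_pos (hSpos i) (hd i)).le,
          show (1:ℝ) / 2 * (1 / D) = -(-(1 / (2 * (D:ℝ)))) by field_simp, Real.rpow_neg (div_pos (hSpos i) (hd i)).le,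
          ← Real.inv_rpow (div_pos (hSpos i) (hd i)).le, inv_div]
    have hamgm : ∏ i, (rt n (z i) j) ^ (1 / (D:ℝ)) ≤ (1 / D) * ∑ i, rt n (z i) j + 1 := by
      have h := Real.geom_mean_le_arith_mean_weighted (univ : Finset (Option (Fin L)))
        (fun o => o.elim (1 - L / (D:ℝ)) (fun _ => 1 / (D:ℝ))) (fun o => o.elim 1 (fun i => rt n (z i) j)) ?_ ?_ ?_
      · rw [Fintype.prod_option, Fintype.sum_option] at h
        simp only [Option.elim] at h
        rw [Real.one_rpow, one_mul, ← Finset.mul_sum] at h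
        have h6 : 0 ≤ (L:ℝ) / D := by positivity
        linarith
      · intro o _
        cases o with
        | none =>
          simp only [Option.elim]
          rw [sub_nonneg, div_le_one hDr]
          exact hLD
        | some i =>
          simp only [Option.elim]
          positivity
      · rw [Fintype.sum_option]
        simp only [Option.elim, Finset.sum_const, Finset.card_univ, Fintype.card_fin, nsmul_eq_mul]
        field_simp
        ring
      · intro o _
        cases o with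
        | none => simp
        | some i => exact (hY0 i).le
    rw [e1]
    exact le_trans hprod hamgm
  have hsum : ∑ j ∈ range (2 ^ n), (2:ℝ) ^ (φ j) ≤ 15 * ((2 ^ n : ℕ) : ℝ) := by
    refine le_trans (Finset.sum_le_sum hpt) ?_
    rw [Finset.sum_add_distrib, ← Finset.mul_sum, Finset.sum_comm, Finset.sum_const, card_range, nsmul_eq_mul, mul_one]
    have h1 : ∑ i, ∑ j ∈ range (2 ^ n), rt n (z i) j ≤ ∑ _i : Fin L, 14 * (2:ℝ) ^ n :=
      Finset.sum_le_sum fun i _ => one_root n (z i)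
    rw [Finset.sum_const, Finset.card_univ, Fintype.card_fin, nsmul_eq_mul] at h1
    have h2 : (1 / (D:ℝ)) * ∑ i, ∑ j ∈ range (2 ^ n), rt n (z i) j ≤ 14 * (2:ℝ) ^ n := by
      rw [one_div, inv_mul_le_iff₀ hDr]
      refine le_trans h1 ?_
      exact mul_le_mul_of_nonneg_right hLD (by positivity)
    push_cast
    linarith
  have hg := gibbs (2 ^ n) f φ hf hf1 15 hsum
  have hlog : logb 2 15 ≤ 4 := by
    rw [Real.logb_le_iff_le_rpow (by norm_num) (by norm_num)]
    norm_num
  have h7 : ∑ j ∈ range (2 ^ n), f j * (-logb 2 (max (|q.eval ((j:ℝ) / 2 ^ n)| / M) ((2:ℝ) ^ (-(ρ * n))))) =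
      2 * D * ∑ j ∈ range (2 ^ n), f j * φ j := by
    rw [Finset.mul_sum]
    refine Finset.sum_congr rfl fun j _ => ?_
    simp only [hφ]
    field_simp
  rw [h7]
  push_cast at hg
  apply mul_le_mul_of_nonneg_left _ (by positivity)
  linarith

end Pool.Agent.Helper40.EL
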